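import Mathlib
import Pool.Agent.H293Z.MO.Sub

set_option autoImplicit false

open Filter Topology Finset MeasureTheory

namespace Pool.Agent.H506Z.FP

open Pool.Agent.H392Z.MO Pool.Agent.H293Z.MO

theorem integrable_gauss (δ y : ℝ) (hδ : 0 < δ) :
    Integrable (fun u : ℝ => Real.exp (-((u - y) ^ 2 / (2 * δ ^ 2)))) := by
  have h := (integrable_exp_neg_mul_sq (b := 1 / (2 * δ ^ 2)) (by positivity)).comp_sub_right y
  refine h.congr (ae_of_all _ fun u => ?_)
  simp only
  congr 1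
  ring

theorem MM_lower {δ u : ℝ} (hδ : 0 < δ) (hu : 0 ≤ u) : δ * Real.exp u / 2 ≤ MM δ u := by
  unfold MM
  have hint : Integrable (fun v : ℝ => Real.exp (v - (u - v) ^ 2 / (2 * δ ^ 2))) := by
    have h := (integrable_gauss δ (u + δ ^ 2) hδ).const_mul (Real.exp (u + δ ^ 2 / 2))
    refine h.congr (ae_of_all _ fun v => ?_)
    simp only
    rw [← Real.exp_add]
    congr 1
    field_simp
    ring
  have h1 : ∫ v in Set.Ioc u (u + δ), Real.exp (v - (u - v) ^ 2 / (2 * δ ^ 2)) ≤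
      ∫ v in Set.Ioi (0 : ℝ), Real.exp (v - (u - v) ^ 2 / (2 * δ ^ 2)) := by
    refine setIntegral_mono_set hint.integrableOn (ae_of_all _ fun v => (Real.exp_pos _).le) ?_
    refine (show Set.Ioc u (u + δ) ⊆ Set.Ioi (0 : ℝ) from fun v hv => ?_).eventuallyLE
    exact lt_of_le_of_lt hu hv.1
  refine le_trans ?_ h1
  have h2 : ∫ _v in Set.Ioc u (u + δ), Real.exp u / 2 = δ * Real.exp u / 2 := by
    rw [setIntegral_const]
    simp [Real.volume_real_Ioc, hδ.le]
    ring
  rw [← h2]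
  refine setIntegral_mono_on (by simp) hint.integrableOn measurableSet_Ioc fun v hv => ?_
  have h3 : (u - v) ^ 2 / (2 * δ ^ 2) ≤ 1 / 2 := by
    rw [div_le_div_iff₀ (by positivity) (by norm_num)]
    nlinarith [hv.1, hv.2]
  have h4 : Real.exp (u + -(1 / 2)) ≤ Real.exp (v - (u - v) ^ 2 / (2 * δ ^ 2)) :=
    Real.exp_le_exp.2 (by linarith [hv.1])
  rw [Real.exp_add] at h4
  have h5 := Real.add_one_le_exp (-(1 / 2) : ℝ)
  have h6 := Real.exp_pos u
  nlinarith

theorem gauss_int {δ : ℝ} (y a b : ℝ) (hδ : 0 < δ) (hab : a ≤ b) :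
    ∫ u in a..b, Real.exp (-((u - y) ^ 2 / (2 * δ ^ 2))) ≤ 3 * δ := by
  rw [intervalIntegral.integral_of_le hab]
  refine le_trans (setIntegral_le_integral (integrable_gauss δ y hδ)
    (ae_of_all _ fun v => (Real.exp_pos _).le)) ?_
  have h1 : ∫ u : ℝ, Real.exp (-((u - y) ^ 2 / (2 * δ ^ 2))) =
      ∫ u : ℝ, Real.exp (-(1 / (2 * δ ^ 2)) * u ^ 2) := by
    rw [← integral_sub_right_eq_self (fun u : ℝ => Real.exp (-(1 / (2 * δ ^ 2)) * u ^ 2)) y]
    congr 1
    funext u
    congr 1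
    ring
  rw [h1, integral_gaussian, Real.sqrt_le_left (by positivity)]
  have h2 : Real.pi / (1 / (2 * δ ^ 2)) = Real.pi * (2 * δ ^ 2) := by field_simp
  rw [h2]
  nlinarith [Real.pi_le_four, sq_nonneg δ]

theorem GG_upper {δ η : ℝ} (u : ℝ) (I : Finset ℕ) (hδ : 0 < δ) (hδ1 : δ ≤ 1) (hη : 0 ≤ η)
    (h : ∀ n : ℕ, n ∉ I → 1 ≤ n → η ≤ |u - Real.log n|) :
    GG δ u ≤ ∑ n ∈ I, ArithmeticFunction.vonMangoldt n *
      Real.exp (-((u - Real.log n) ^ 2 / (2 * δ ^ 2))) +
      2 * Real.exp (9 + 3 * u - η ^ 2 / (4 * δ ^ 2)) := by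
  classical
  unfold GG
  have hnn : ∀ n : ℕ, 0 ≤ ArithmeticFunction.vonMangoldt n *
      Real.exp (-((u - Real.log n) ^ 2 / (2 * δ ^ 2))) := fun n =>
    mul_nonneg ArithmeticFunction.vonMangoldt_nonneg (Real.exp_pos _).le
  refine Real.tsum_le_of_sum_le hnn fun s => ?_
  rw [← Finset.sum_inter_add_sum_sdiff s I]
  refine add_le_add (Finset.sum_le_sum_of_subset_of_nonneg inter_subset_right fun n _ _ => hnn n) ?_
  have h1 : ∀ n ∈ s \ I, ArithmeticFunction.vonMangoldt n *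
      Real.exp (-((u - Real.log n) ^ 2 / (2 * δ ^ 2))) ≤
      Real.exp (9 + 3 * u - η ^ 2 / (4 * δ ^ 2)) * (1 / (n : ℝ) ^ 2) := by
    intro n hn
    rcases Nat.eq_zero_or_pos n with rfl | hn0
    · simp
    have hnR : (0 : ℝ) < n := by exact_mod_cast hn0
    have h2 := h n (mem_sdiff.1 hn).2 hn0
    have h3 : η ^ 2 ≤ (u - Real.log n) ^ 2 := by
      rw [← sq_abs (u - Real.log n)]
      exact pow_le_pow_left₀ hη h2 2
    set w := u - Real.log n with hw
    have h4 : -(w ^ 2 / (2 * δ ^ 2)) ≤ 9 + 3 * w - η ^ 2 / (4 * δ ^ 2) := by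
      have h5 : η ^ 2 / (4 * δ ^ 2) ≤ w ^ 2 / (4 * δ ^ 2) := by gcongr
      have h6 : w ^ 2 / 4 ≤ w ^ 2 / (4 * δ ^ 2) := by
        apply div_le_div_of_nonneg_left (sq_nonneg _) (by positivity)
        nlinarith
      have h7 : w ^ 2 / (2 * δ ^ 2) = w ^ 2 / (4 * δ ^ 2) + w ^ 2 / (4 * δ ^ 2) := by
        field_simp
        ring
      nlinarith [sq_nonneg (w / 2 + 3)]
    have h8 : Real.exp (9 + 3 * w - η ^ 2 / (4 * δ ^ 2)) =
        Real.exp (9 + 3 * u - η ^ 2 / (4 * δ ^ 2)) * (1 / (n : ℝ) ^ 3) := by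
      have h9 : (n : ℝ) ^ 3 = Real.exp (3 * Real.log n) := by
        rw [show (3 : ℝ) * Real.log n = ((3 : ℕ) : ℝ) * Real.log n by norm_num, Real.exp_nat_mul,
          Real.exp_log hnR]
      rw [h9, one_div, ← Real.exp_neg, ← Real.exp_add]
      congr 1
      rw [hw]
      ring
    have h10 : ArithmeticFunction.vonMangoldt n ≤ n :=
      ArithmeticFunction.vonMangoldt_le_log.trans (Real.log_le_self hnR.le)
    calc _ ≤ (n : ℝ) * (Real.exp (9 + 3 * u - η ^ 2 / (4 * δ ^ 2)) * (1 / (n : ℝ) ^ 3)) := by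
          rw [← h8]
          exact mul_le_mul h10 (Real.exp_le_exp.2 h4) (Real.exp_pos _).le hnR.le
      _ = _ := by field_simp
  refine (Finset.sum_le_sum h1).trans ?_
  rw [← Finset.mul_sum, mul_comm]
  refine mul_le_mul_of_nonneg_right ?_ (Real.exp_pos _).le
  have h11 := sum_le_hasSum (s \ I) (fun n _ => by positivity) hasSum_zeta_two
  have h12 := Real.pi_lt_d2
  have h13 := Real.pi_pos
  nlinarith

theorem mem_Ival {t H : ℝ} {n : ℕ} : n ∈ Ival t H ↔ t ≤ n ∧ (n : ℝ) < t + H := by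
  unfold Ival
  rw [mem_Ico, Nat.ceil_le, Nat.lt_ceil]

theorem sum_Lambda {X H t : ℝ} (hX : 1 ≤ X) (hH : 0 < H) (hHX : H ^ 2 ≤ X) (hHX' : H ≤ X)
    (ht : X ≤ t) (ht2 : t ≤ 2 * X) :
    ∑ n ∈ Ival t H, ArithmeticFunction.vonMangoldt n ≤
      (((Ival t H).filter Nat.Prime).card : ℝ) * Real.log (3 * X) +
        (2 * Real.log (3 * X) + 1) * Real.log (3 * X) := by
  classical
  set M := Real.log (3 * X) with hM
  have hM0 : 0 ≤ M := Real.log_nonneg (by linarith)
  have hle : ∀ n ∈ Ival t H, ArithmeticFunction.vonMangoldt n ≤ M := by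
    intro n hn
    have h1 := mem_Ival.1 hn
    refine ArithmeticFunction.vonMangoldt_le_log.trans (Real.log_le_log (by linarith) (by linarith))
  rw [← Finset.sum_filter_add_sum_filter_not (Ival t H) Nat.Prime]
  refine add_le_add ?_ ?_
  · have := Finset.sum_le_card_nsmul ((Ival t H).filter Nat.Prime) _ M
      (fun n hn => hle n (mem_filter.1 hn).1)
    rwa [nsmul_eq_mul] at this
  · set S := ((Ival t H).filter fun n => ¬ n.Prime).filter IsPrimePow with hS
    have h1 : ∑ n ∈ (Ival t H).filter fun n => ¬ n.Prime, ArithmeticFunction.vonMangoldt n =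
        ∑ n ∈ S, ArithmeticFunction.vonMangoldt n := by
      rw [hS]
      refine (Finset.sum_filter_of_ne fun n _ hn => ?_).symm
      exact ArithmeticFunction.vonMangoldt_ne_zero_iff.1 hn
    rw [h1]
    have h2 := Finset.sum_le_card_nsmul S _ M
      (fun n hn => hle n (mem_filter.1 (mem_filter.1 hn).1).1)
    rw [nsmul_eq_mul] at h2
    refine h2.trans (mul_le_mul_of_nonneg_right ?_ hM0)
    have h3 : ∀ n ∈ S, ∃ k p : ℕ, 2 ≤ p ∧ 2 ≤ k ∧ p ^ k = n := by
      intro n hn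
      obtain ⟨p, k, hp, hk, rfl⟩ := (isPrimePow_nat_iff _).1 (mem_filter.1 hn).2
      refine ⟨k, p, hp.two_le, ?_, rfl⟩
      by_contra h
      have : k = 1 := by omega
      subst this
      exact (mem_filter.1 (mem_filter.1 hn).1).2 (by simpa using hp)
    choose! k p hp hk hpk using h3
    have hmem : ∀ n ∈ S, t ≤ n ∧ (n : ℝ) < t + H := fun n hn =>
      mem_Ival.1 (mem_filter.1 (mem_filter.1 hn).1).1
    have hlt : ∀ n ∈ S, ∀ n' ∈ S, k n = k n' → p n < p n' → False := by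
      intro n hn n' hn' hkk hpp
      obtain ⟨j, hj⟩ : ∃ j, k n = j + 1 := ⟨k n - 1, by have := hk n hn; omega⟩
      have hj1 : 1 ≤ j := by have := hk n hn; omega
      have e1 : p n ^ (j + 1) = n := by rw [← hj]; exact hpk n hn
      have e2 : p n' ^ (j + 1) = n' := by rw [← hj, hkk]; exact hpk n' hn'
      have e3 : p n ^ (j + 1) + p n ^ j ≤ p n' ^ (j + 1) := by
        calc p n ^ (j + 1) + p n ^ j = p n ^ j * (p n + 1) := by ring
          _ ≤ p n' ^ j * p n' := Nat.mul_le_mul (Nat.pow_le_pow_left hpp.le j) hpp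
          _ = _ := by ring
      have e4 : p n ^ (j + 1) ≤ (p n ^ j) ^ 2 := by
        rw [← pow_mul]
        exact Nat.pow_le_pow_right (by have := hp n hn; omega) (by omega)
      rw [e1, e2] at e3
      rw [e1] at e4
      have e5 : (n : ℝ) + (p n ^ j : ℕ) ≤ n' := by exact_mod_cast e3
      have e6 : (n : ℝ) ≤ ((p n ^ j : ℕ) : ℝ) ^ 2 := by exact_mod_cast e4
      have e7 := hmem n hn
      have e8 := hmem n' hn'
      have e9 : H ≤ ((p n ^ j : ℕ) : ℝ) :=
        le_of_sq_le_sq (by linarith) (Nat.cast_nonneg _)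
      linarith
    have h4 : S.card ≤ (range (⌊2 * M⌋₊ + 1)).card := by
      refine Finset.card_le_card_of_injOn k (fun n hn => ?_) (fun n hn n' hn' hkk => ?_)
      · have hn' : n ∈ S := hn
        rw [coe_range, Set.mem_Iio, Nat.lt_succ_iff]
        refine Nat.le_floor ?_
        have e1 : (2 : ℝ) ^ k n ≤ 3 * X := by
          have e2 : 2 ^ k n ≤ n := by
            calc 2 ^ k n ≤ p n ^ k n := Nat.pow_le_pow_left (hp n hn') _
              _ = n := hpk n hn'
          have e3 : (2 : ℝ) ^ k n ≤ n := by exact_mod_cast e2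
          linarith [(hmem n hn').2]
        have e4 := Real.log_le_log (by positivity) e1
        rw [Real.log_pow] at e4
        have e5 := Real.log_two_gt_d9
        have e6 : (0 : ℝ) ≤ k n := Nat.cast_nonneg _
        nlinarith
      · have hn1 : n ∈ S := hn
        have hn2 : n' ∈ S := hn'
        rcases lt_trichotomy (p n) (p n') with h | h | h
        · exact (hlt n hn1 n' hn2 hkk h).elim
        · rw [← hpk n hn1, ← hpk n' hn2, h, hkk]
        · exact (hlt n' hn2 n hn1 hkk.symm h).elim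
    rw [card_range] at h4
    have h5 : (S.card : ℝ) ≤ (⌊2 * M⌋₊ : ℝ) + 1 := by exact_mod_cast h4
    have h6 := Nat.floor_le (show 0 ≤ 2 * M by linarith)
    linarith

end Pool.Agent.H506Z.FP
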