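import Mathlib
import Pool.Agent.H506Z.FP1

set_option autoImplicit false

open Filter Topology Finset MeasureTheory

namespace Pool.Agent.H506Z.FP

open Pool.Agent.H392Z.MO Pool.Agent.H293Z.MO

theorem log_sub_ge {a b : ℝ} (ha : 0 < a) (hb : 0 < b) : (b - a) / b ≤ Real.log b - Real.log a := by
  have h := Real.log_le_sub_one_of_pos (div_pos ha hb)
  rw [Real.log_div ha.ne' hb.ne'] at h
  have : (b - a) / b = 1 - a / b := by field_simp
  linarith

theorem log_sub_le {a b : ℝ} (ha : 0 < a) (hb : 0 < b) : Real.log b - Real.log a ≤ (b - a) / a := by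
  have h := Real.log_le_sub_one_of_pos (div_pos hb ha)
  rw [Real.log_div hb.ne' ha.ne'] at h
  have : (b - a) / a = b / a - 1 := by field_simp
  linarith

theorem one_interval {X H t L δ : ℝ} (hX0 : 0 < X) (hL : L = Real.log X) (hL1 : 100000 ≤ L)
    (hδ : δ = H / (X * L)) (hH : 800 * L ^ 2 ≤ H) (hHX : H ^ 2 ≤ X) (ht : X ≤ t) (ht2 : t ≤ 2 * X)
    (hp : (((Ival t H).filter Nat.Prime).card : ℝ) ≤ H / (100 * L))
    (hc : Continuous fun u => GG δ u - MM δ u) :
    δ ^ 2 * X * H / 400 ≤
      ∫ u in Real.log (t + H / 3)..Real.log (t + 2 * H / 3), (GG δ u - MM δ u) ^ 2 := by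
  have hL0 : 0 < L := by linarith
  have hH1 : 1 ≤ H := by nlinarith
  have hH0 : 0 < H := by linarith
  have hHX' : H ≤ X := by nlinarith
  have hX1 : 1 ≤ X := by linarith
  have hLX : L ≤ X := hL ▸ Real.log_le_self hX0.le
  have hδ0 : 0 < δ := by rw [hδ]; positivity
  have hδ1 : δ ≤ 1 := by
    rw [hδ, div_le_one (by positivity)]
    nlinarith
  have hδ2 : Real.exp (-(2 * L)) ≤ δ := by
    have h1 : Real.exp (2 * L) = X ^ 2 := by
      rw [show (2 : ℝ) * L = ((2 : ℕ) : ℝ) * L by norm_num, Real.exp_nat_mul, hL, Real.exp_log hX0]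
    rw [Real.exp_neg, h1, hδ, inv_eq_one_div, div_le_div_iff₀ (by positivity) (by positivity)]
    nlinarith [mul_le_mul_of_nonneg_left hLX hX0.le, mul_pos hX0 hX0]
  set α := Real.log (t + H / 3) with hα
  set β := Real.log (t + 2 * H / 3) with hβ
  have hA0 : 0 < t + H / 3 := by linarith
  have hB0 : 0 < t + 2 * H / 3 := by linarith
  have hαβ : α ≤ β := Real.log_le_log hA0 (by linarith)
  have hM : Real.log (3 * X) ≤ L + 2 := by
    rw [Real.log_mul (by norm_num) hX0.ne', ← hL]
    have := Real.log_le_sub_one_of_pos (show (0 : ℝ) < 3 by norm_num)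
    linarith
  have hM0 : 0 ≤ Real.log (3 * X) := Real.log_nonneg (by linarith)
  have hl1 : 4 * H / 15 ≤ (β - α) * (t + H / 3) := by
    have h1 := log_sub_ge hA0 hB0
    have h2 : 4 * H / 15 / (t + H / 3) ≤ (t + 2 * H / 3 - (t + H / 3)) / (t + 2 * H / 3) := by
      rw [div_le_div_iff₀ hA0 hB0]
      nlinarith
    exact (div_le_iff₀ hA0).1 (h2.trans h1)
  have hl2 : β - α ≤ H / (3 * X) := by
    refine (log_sub_le hA0 hB0).trans ?_
    rw [div_le_div_iff₀ hA0 (by positivity)]
    nlinarith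
  have hl3 : β - α ≤ H := hl2.trans (by
    rw [div_le_iff₀ (by positivity)]
    nlinarith)
  have hsum : ∑ n ∈ Ival t H, ArithmeticFunction.vonMangoldt n ≤ 151 / 10000 * H := by
    refine (sum_Lambda hX1 hH0 hHX hHX' ht ht2).trans ?_
    have h1 : (((Ival t H).filter Nat.Prime).card : ℝ) * Real.log (3 * X) ≤
        H / (100 * L) * (101 / 100 * L) :=
      mul_le_mul hp (by linarith) hM0 (by positivity)
    have h2 : H / (100 * L) * (101 / 100 * L) = 101 / 10000 * H := by field_simp; norm_num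
    have h3 : (2 * Real.log (3 * X) + 1) * Real.log (3 * X) ≤ (3 * L) * (4 / 3 * L) :=
      mul_le_mul (by linarith) (by linarith) hM0 (by positivity)
    nlinarith
  have hpt : ∀ u ∈ Set.Icc α β, GG δ u - MM δ u ≤
      ∑ n ∈ Ival t H, ArithmeticFunction.vonMangoldt n *
        Real.exp (-((u - Real.log n) ^ 2 / (2 * δ ^ 2))) + (δ / 100 - δ * (t + H / 3) / 2) := by
    intro u hu
    have hu0 : 0 ≤ u := (Real.log_nonneg (by linarith)).trans hu.1
    have h1 := MM_lower hδ0 hu0
    have h2 : t + H / 3 ≤ Real.exp u := by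
      rw [← Real.exp_log hA0]
      exact Real.exp_le_exp.2 hu.1
    have h3 := GG_upper (η := H / (9 * X)) u (Ival t H) hδ0 hδ1 (by positivity) (by
      intro n hn hn1
      have hnR : (0 : ℝ) < n := by exact_mod_cast hn1
      rw [mem_Ival, not_and_or, not_le, not_lt] at hn
      rcases hn with hn | hn
      · have e1 := Real.log_le_log hnR hn.le
        have e2 := log_sub_ge (show 0 < t by linarith) hA0
        have e3 : H / (9 * X) ≤ (t + H / 3 - t) / (t + H / 3) := by
          rw [div_le_div_iff₀ (by positivity) hA0]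
          nlinarith
        exact le_trans (by linarith [hu.1]) (le_abs_self _)
      · have e0 : 0 < t + H := by linarith
        have e1 := Real.log_le_log e0 hn
        have e2 := log_sub_ge hB0 e0
        have e3 : H / (9 * X) ≤ (t + H - (t + 2 * H / 3)) / (t + H) := by
          rw [div_le_div_iff₀ (by positivity) e0]
          nlinarith
        exact le_trans (by linarith [hu.2]) (neg_le_abs _))
    have h4 : (H / (9 * X)) ^ 2 / (4 * δ ^ 2) = L ^ 2 / 324 := by
      rw [hδ]
      field_simp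
      norm_num
    rw [h4] at h3
    have h5 : u ≤ L + 2 := hu.2.trans ((Real.log_le_log hB0 (by linarith)).trans hM)
    have h6 : 200 * Real.exp (9 + 3 * u - L ^ 2 / 324) ≤ Real.exp (-(2 * L)) := by
      have e1 : Real.exp (-(2 * L)) = Real.exp (L ^ 2 / 324 - 2 * L - 9 - 3 * u) *
          Real.exp (9 + 3 * u - L ^ 2 / 324) := by
        rw [← Real.exp_add]
        congr 1
        ring
      rw [e1]
      refine mul_le_mul_of_nonneg_right ?_ (Real.exp_pos _).le
      have e2 := Real.add_one_le_exp (L ^ 2 / 324 - 2 * L - 9 - 3 * u)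
      nlinarith
    have h7 : δ * (t + H / 3) ≤ δ * Real.exp u := mul_le_mul_of_nonneg_left h2 hδ0.le
    linarith
  have hcg : ∀ n : ℕ, Continuous fun u : ℝ => ArithmeticFunction.vonMangoldt n *
      Real.exp (-((u - Real.log n) ^ 2 / (2 * δ ^ 2))) := fun n => by fun_prop
  have hint : ∫ u in α..β, (GG δ u - MM δ u) ≤ -(H * δ / 20) := by
    have h1 := intervalIntegral.integral_mono_on (μ := volume) hαβ (hc.intervalIntegrable α β)
      (((continuous_finsetSum _ fun n _ => hcg n).add continuous_const).intervalIntegrable α β) hpt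
    refine h1.trans ?_
    simp only [Pi.add_apply]
    rw [intervalIntegral.integral_add ((continuous_finsetSum _ fun n _ => hcg n).intervalIntegrable α β)
      (continuous_const.intervalIntegrable α β),
      intervalIntegral.integral_finset_sum fun n _ => (hcg n).intervalIntegrable α β,
      intervalIntegral.integral_const, smul_eq_mul]
    have h2 : ∑ n ∈ Ival t H, ∫ u in α..β, ArithmeticFunction.vonMangoldt n *
        Real.exp (-((u - Real.log n) ^ 2 / (2 * δ ^ 2))) ≤
        ∑ n ∈ Ival t H, ArithmeticFunction.vonMangoldt n * (3 * δ) := by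
      refine Finset.sum_le_sum fun n _ => ?_
      rw [intervalIntegral.integral_const_mul]
      exact mul_le_mul_of_nonneg_left (gauss_int _ _ _ hδ0 hαβ) ArithmeticFunction.vonMangoldt_nonneg
    rw [← Finset.sum_mul] at h2
    have h3 : (∑ n ∈ Ival t H, ArithmeticFunction.vonMangoldt n) * (3 * δ) ≤
        151 / 10000 * H * (3 * δ) := mul_le_mul_of_nonneg_right hsum (by positivity)
    have h4 := mul_le_mul_of_nonneg_right hl1 hδ0.le
    have h5 := mul_le_mul_of_nonneg_right hl3 hδ0.le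
    have h6 : 0 < H * δ := by positivity
    nlinarith
  set a := δ * X / 20 with ha
  have ha0 : 0 < a := by positivity
  have h1 : ∫ u in α..β, (-(2 * a) * (GG δ u - MM δ u) - a ^ 2) ≤
      ∫ u in α..β, (GG δ u - MM δ u) ^ 2 :=
    intervalIntegral.integral_mono_on hαβ
      (((continuous_const.mul hc).sub continuous_const).intervalIntegrable α β)
      ((hc.pow 2).intervalIntegrable α β)
      fun u _ => by nlinarith [sq_nonneg (GG δ u - MM δ u + a)]
  refine le_trans ?_ h1
  have hc2 : Continuous fun u => -(2 * a) * (GG δ u - MM δ u) := continuous_const.mul hc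
  rw [intervalIntegral.integral_sub (hc2.intervalIntegrable α β)
    (continuous_const.intervalIntegrable α β), intervalIntegral.integral_const_mul,
    intervalIntegral.integral_const, smul_eq_mul]
  have h2 : (β - α) * a ^ 2 ≤ H / (3 * X) * a ^ 2 := mul_le_mul_of_nonneg_right hl2 (sq_nonneg a)
  have h3 : H / (3 * X) * a ^ 2 = δ ^ 2 * X * H / 1200 := by
    rw [ha]
    field_simp
    norm_num
  have h4 := mul_le_mul_of_nonneg_left hint (show 0 ≤ 2 * a by positivity)
  have h5 : 2 * a * -(H * δ / 20) = -(δ ^ 2 * X * H / 200) := by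
    rw [ha]
    ring
  have h6 : 0 < δ ^ 2 * X * H := by positivity
  linarith

theorem sum_intervals {X H : ℝ} (hX0 : 0 < X) (hH0 : 0 < H) (hHX : H ≤ X) (T : Finset ℝ)
    (hT : ∀ t ∈ T, X ≤ t ∧ t ≤ 2 * X) (hsep : ∀ s ∈ T, ∀ t ∈ T, s ≠ t → H ≤ |s - t|)
    {f : ℝ → ℝ} (hf : Continuous f) (hf0 : ∀ u, 0 ≤ f u) :
    ∑ t ∈ T, ∫ u in Real.log (t + H / 3)..Real.log (t + 2 * H / 3), f u ≤
      ∫ u in Real.log X..Real.log (3 * X), f u := by
  have h1 : ∀ t ∈ T, ∫ u in Real.log (t + H / 3)..Real.log (t + 2 * H / 3), f u =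
      ∫ u in Set.Ioc (Real.log (t + H / 3)) (Real.log (t + 2 * H / 3)), f u := fun t ht =>
    intervalIntegral.integral_of_le (Real.log_le_log (by linarith [(hT t ht).1]) (by linarith))
  rw [Finset.sum_congr rfl h1, intervalIntegral.integral_of_le (Real.log_le_log hX0 (by linarith)),
    ← integral_biUnion_finset T (fun t _ => measurableSet_Ioc) ?_
      (fun t _ => hf.integrableOn_Ioc)]
  · refine setIntegral_mono_set hf.integrableOn_Ioc (ae_of_all _ hf0) ?_
    refine HasSubset.Subset.eventuallyLE ?_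
    intro u hu
    simp only [Set.mem_iUnion] at hu
    obtain ⟨t, ht, hu⟩ := hu
    have h2 := hT t ht
    exact ⟨lt_of_le_of_lt (Real.log_le_log hX0 (by linarith)) hu.1,
      hu.2.trans (Real.log_le_log (by linarith) (by linarith))⟩
  · intro s hs t ht hst
    have h2 := hsep s hs t ht hst
    have h3 := hT s hs
    have h4 := hT t ht
    simp only [Function.onFun]
    rw [Set.disjoint_left]
    intro u hu hu'
    rcases le_abs.1 h2 with h | h
    · have := Real.log_le_log (show 0 < t + 2 * H / 3 by linarith)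
        (show t + 2 * H / 3 ≤ s + H / 3 by linarith)
      linarith [hu.1, hu'.2]
    · have := Real.log_le_log (show 0 < s + 2 * H / 3 by linarith)
        (show s + 2 * H / 3 ≤ t + H / 3 by linarith)
      linarith [hu'.1, hu.2]

theorem fp : S_FP := by
  intro hMS d hd
  set ε := min (d / 5) (1 / 4) with hε
  have hε0 : 0 < ε := lt_min (by positivity) (by norm_num)
  have hε1 : ε ≤ 1 / 4 := min_le_right _ _
  have hε2 : ε ≤ d / 5 := min_le_left _ _
  obtain ⟨C, hC, hMS⟩ := hMS ε hε0 hε1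
  refine ⟨400 * C * 9 / ε, Real.exp 100000, by positivity, ?_⟩
  intro X hX H hH1 hH2 T hT hsep hp
  have hX0 : 0 < X := (Real.exp_pos _).trans_le hX
  set L := Real.log X with hL
  have hL1 : 100000 ≤ L := by
    rw [hL, Real.le_log_iff_exp_le hX0]
    exact hX
  have hL0 : 0 < L := by linarith
  have hH : 800 * L ^ 2 ≤ H := by
    refine le_trans ?_ hH1
    rw [Real.rpow_def_of_pos hX0, ← hL]
    have h1 := Real.pow_div_factorial_le_exp (L * (2 / 5)) (by positivity) 3
    refine le_trans ?_ h1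
    norm_num [Nat.factorial]
    nlinarith [sq_nonneg L]
  have hH1' : 1 ≤ H := by nlinarith
  have hH0 : 0 < H := by linarith
  have hHX : H ^ 2 ≤ X := by
    rw [← Real.sqrt_eq_rpow] at hH2
    exact (Real.le_sqrt hH0.le hX0.le).1 hH2
  have hHX' : H ≤ X := by nlinarith
  have hX1 : 1 ≤ X := by linarith
  have hLX : L ≤ X := Real.log_le_self hX0.le
  set δ := H / (X * L) with hδ
  have hδ0 : 0 < δ := by positivity
  have hδ1 : δ ≤ 1 := by
    rw [hδ, div_le_one (by positivity)]
    nlinarith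
  obtain ⟨hc, hb⟩ := hMS δ hδ0 hδ1
  have h1 := hb L (Real.log (3 * X)) hL0.le (Real.log_le_log hX0 (by linarith))
  have h2 := sum_intervals hX0 hH0 hHX' T hT hsep (hc.pow 2) fun u => sq_nonneg _
  have h3 := Finset.card_nsmul_le_sum T _ (δ ^ 2 * X * H / 400) fun t ht =>
    one_interval hX0 hL hL1 hδ hH hHX (hT t ht).1 (hT t ht).2 (hp t ht) hc
  rw [nsmul_eq_mul] at h3
  have h4 : (T.card : ℝ) * (δ ^ 2 * X * H / 400) ≤
      C * δ ^ (1 - ε) * Real.exp ((1 + 2 * ε) * Real.log (3 * X)) := h3.trans (h2.trans h1)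
  have h5 : Real.exp ((1 + 2 * ε) * Real.log (3 * X)) ≤ 9 * X ^ (1 + 2 * ε) := by
    rw [mul_comm, ← Real.rpow_def_of_pos (by positivity), Real.mul_rpow (by norm_num) hX0.le]
    refine mul_le_mul_of_nonneg_right ?_ (by positivity)
    calc (3 : ℝ) ^ (1 + 2 * ε) ≤ 3 ^ (2 : ℝ) :=
          Real.rpow_le_rpow_of_exponent_le (by norm_num) (by linarith)
      _ = 9 := by norm_num
  have h6 : δ ^ (1 - ε) ≤ δ * X ^ (2 * ε) := by
    rw [Real.rpow_sub hδ0, Real.rpow_one, div_eq_mul_inv, ← Real.inv_rpow hδ0.le,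
      Real.rpow_mul hX0.le]
    refine mul_le_mul_of_nonneg_left (Real.rpow_le_rpow (by positivity) ?_ hε0.le) hδ0.le
    rw [hδ, inv_div, div_le_iff₀ hH0, Real.rpow_two]
    nlinarith [mul_le_mul_of_nonneg_left hLX hX0.le, mul_pos hX0 hX0]
  have h7 : L ≤ X ^ ε / ε := Real.log_le_rpow_div hX0.le hε0
  have h8 : X ^ (1 + 2 * ε) * X ^ (2 * ε) * X ^ ε ≤ X ^ (1 + d) := by
    rw [← Real.rpow_add hX0, ← Real.rpow_add hX0]
    exact Real.rpow_le_rpow_of_exponent_le hX1 (by linarith)
  have h9 : (T.card : ℝ) * (δ ^ 2 * X * H / 400) ≤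
      C * (δ * X ^ (2 * ε)) * (9 * X ^ (1 + 2 * ε)) :=
    h4.trans (mul_le_mul (mul_le_mul_of_nonneg_left h6 hC.le) h5 (Real.exp_pos _).le
      (by positivity))
  have h10 : δ ^ 2 * X * H / 400 = δ * (H ^ 2 / (400 * L)) := by
    rw [hδ]
    field_simp
  rw [h10] at h9
  have h11 : (T.card : ℝ) * (H ^ 2 / (400 * L)) ≤ C * X ^ (2 * ε) * (9 * X ^ (1 + 2 * ε)) := by
    refine le_of_mul_le_mul_left ?_ hδ0
    linarith
  rw [le_div_iff₀ (by positivity)]
  have h12 : (T.card : ℝ) * H ^ 2 = (T.card : ℝ) * (H ^ 2 / (400 * L)) * (400 * L) := by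
    field_simp
  rw [h12]
  calc _ ≤ C * X ^ (2 * ε) * (9 * X ^ (1 + 2 * ε)) * (400 * (X ^ ε / ε)) :=
        mul_le_mul h11 (by linarith) (by positivity) (by positivity)
    _ = 400 * C * 9 / ε * (X ^ (1 + 2 * ε) * X ^ (2 * ε) * X ^ ε) := by ring
    _ ≤ _ := mul_le_mul_of_nonneg_left h8 (by positivity)

end Pool.Agent.H506Z.FP
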