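import Mathlib

set_option autoImplicit false

namespace Pool.Agent.H506Z.Cube

open Finset

theorem xor_two_pow (x j : ℕ) :
    (x.testBit j = true ∧ (x ^^^ 2 ^ j) + 2 ^ j = x) ∨
      (x.testBit j = false ∧ x ^^^ 2 ^ j = x + 2 ^ j) := by
  induction j generalizing x with
  | zero =>
    rcases Nat.even_or_odd' x with ⟨k, rfl | rfl⟩
    · right
      refine ⟨by simp [Nat.testBit_zero], ?_⟩
      simp
    · left
      refine ⟨by simp [Nat.testBit_zero], ?_⟩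
      have := Nat.xor_one_of_odd (n := 2 * k + 1) (by simp)
      simp only [pow_zero, this]
      omega
  | succ j ih =>
    have h1 : (x ^^^ 2 ^ (j + 1)) / 2 = x / 2 ^^^ 2 ^ j := by
      rw [Nat.xor_div_two, pow_succ, Nat.mul_div_cancel _ (by norm_num)]
    have h2 : (x ^^^ 2 ^ (j + 1)) % 2 = x % 2 := by
      rw [Nat.xor_mod_two_eq, pow_succ]
      omega
    rw [Nat.testBit_succ, pow_succ]
    rw [pow_succ] at h1 h2
    rcases ih (x / 2) with ⟨h3, h4⟩ | ⟨h3, h4⟩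
    · left
      exact ⟨h3, by omega⟩
    · right
      exact ⟨h3, by omega⟩

theorem abs_xor (x j : ℕ) : |(x : ℝ) - ((x ^^^ 2 ^ j : ℕ) : ℝ)| = 2 ^ j := by
  rcases xor_two_pow x j with ⟨-, h⟩ | ⟨-, h⟩
  · have : ((x ^^^ 2 ^ j : ℕ) : ℝ) + 2 ^ j = x := by exact_mod_cast h
    rw [show (x : ℝ) - ((x ^^^ 2 ^ j : ℕ) : ℝ) = 2 ^ j by linarith, abs_of_pos (by positivity)]
  · have : ((x ^^^ 2 ^ j : ℕ) : ℝ) = x + 2 ^ j := by exact_mod_cast h
    rw [show (x : ℝ) - ((x ^^^ 2 ^ j : ℕ) : ℝ) = -2 ^ j by linarith, abs_neg,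
      abs_of_pos (by positivity)]

/-- The hypercube graph on `Fin (2 ^ d)`. -/
def Q (d : ℕ) : SimpleGraph (Fin (2 ^ d)) where
  Adj x y := ∃ j < d, y.1 = x.1 ^^^ 2 ^ j
  symm := ⟨by
    rintro x y ⟨j, hj, h⟩
    exact ⟨j, hj, by rw [h, Nat.xor_assoc, Nat.xor_self, Nat.xor_zero]⟩⟩
  loopless := ⟨by
    rintro x ⟨j, -, h⟩
    have h0 : 0 < 2 ^ j := by positivity
    rcases xor_two_pow x.1 j with ⟨-, h1⟩ | ⟨-, h1⟩ <;> omega⟩

theorem eq_xor_of {u v j : ℕ} (hb : u.testBit j ≠ v.testBit j)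
    (h : |(u : ℝ) - v| = |((u ^^^ 2 ^ j : ℕ) : ℝ) - ((v ^^^ 2 ^ j : ℕ) : ℝ)|) :
    v = u ^^^ 2 ^ j := by
  have h0 : (0 : ℝ) < 2 ^ j := by positivity
  rcases xor_two_pow u j with ⟨h1, h2⟩ | ⟨h1, h2⟩ <;>
    rcases xor_two_pow v j with ⟨h3, h4⟩ | ⟨h3, h4⟩
  · exact absurd (h1.trans h3.symm) hb
  · have e1 : ((u ^^^ 2 ^ j : ℕ) : ℝ) + 2 ^ j = u := by exact_mod_cast h2
    have e2 : ((v ^^^ 2 ^ j : ℕ) : ℝ) = v + 2 ^ j := by exact_mod_cast h4
    have e3 : (v : ℝ) = ((u ^^^ 2 ^ j : ℕ) : ℝ) := by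
      rcases abs_eq_abs.1 h with h5 | h5 <;> linarith
    exact_mod_cast e3
  · have e1 : ((u ^^^ 2 ^ j : ℕ) : ℝ) = u + 2 ^ j := by exact_mod_cast h2
    have e2 : ((v ^^^ 2 ^ j : ℕ) : ℝ) + 2 ^ j = v := by exact_mod_cast h4
    have e3 : (v : ℝ) = ((u ^^^ 2 ^ j : ℕ) : ℝ) := by
      rcases abs_eq_abs.1 h with h5 | h5 <;> linarith
    exact_mod_cast e3
  · exact absurd (h1.trans h3.symm) hb

theorem no_triangle {u a b c : ℕ} (h : u ^^^ 2 ^ a ^^^ 2 ^ b = u ^^^ 2 ^ c) : False := by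
  rw [Nat.xor_assoc, Nat.xor_right_inj] at h
  by_cases hab : a = b
  · subst hab
    rw [Nat.xor_self] at h
    exact absurd h.symm (by positivity)
  · have h1 := congrArg (fun x => x.testBit a) h
    have h2 := congrArg (fun x => x.testBit b) h
    simp only [Nat.testBit_xor, Nat.testBit_two_pow] at h1 h2
    have hba : ¬ b = a := fun e => hab e.symm
    simp [hab, hba] at h1 h2
    omega

theorem card_le_two {d : ℕ} (H : (Q d).Subgraph)
    (hH : ∀ f g : Fin (2 ^ d) → ℝ, Set.InjOn f H.verts → Set.InjOn g H.verts →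
      (∀ u v, H.Adj u v → |f u - f v| = |g u - g v|) →
      ∀ u ∈ H.verts, ∀ v ∈ H.verts, |f u - f v| = |g u - g v|) : H.verts.ncard ≤ 2 := by
  have key : ∀ u ∈ H.verts, ∀ v ∈ H.verts, u ≠ v → ∃ j, v.1 = u.1 ^^^ 2 ^ j := by
    intro u hu v hv huv
    obtain ⟨j, hj⟩ := Nat.exists_testBit_ne_of_ne (fun h => huv (Fin.ext h) : u.1 ≠ v.1)
    refine ⟨j, eq_xor_of hj ?_⟩
    refine hH (fun x => (x.1 : ℝ)) (fun x => ((x.1 ^^^ 2 ^ j : ℕ) : ℝ)) ?_ ?_ ?_ u hu v hv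
    · intro x _ y _ h
      exact Fin.ext (Nat.cast_injective (R := ℝ) h)
    · intro x _ y _ h
      have h1 : x.1 ^^^ 2 ^ j = y.1 ^^^ 2 ^ j := Nat.cast_injective (R := ℝ) h
      exact Fin.ext (Nat.xor_left_inj.1 h1)
    · intro x y hxy
      obtain ⟨i, -, hi⟩ := H.adj_sub hxy
      rw [hi, abs_xor, Nat.xor_assoc, Nat.xor_comm (2 ^ i), ← Nat.xor_assoc, abs_xor]
  by_contra h
  push Not at h
  obtain ⟨u, hu, v, hv, w, hw, huv, huw, hvw⟩ := (Set.two_lt_ncard (Set.toFinite _)).1 h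
  obtain ⟨a, ha⟩ := key u hu v hv huv
  obtain ⟨b, hb⟩ := key v hv w hw hvw
  obtain ⟨c, hc⟩ := key u hu w hw huw
  rw [ha, hc] at hb
  exact no_triangle hb.symm

theorem edges (d : ℕ) : d * 2 ^ d ≤ 2 * (Q d).edgeSet.ncard := by
  classical
  rw [Set.ncard_eq_toFinset_card', ← SimpleGraph.edgeFinset,
    ← SimpleGraph.sum_degrees_eq_twice_card_edges]
  have h : ∀ x : Fin (2 ^ d), d ≤ (Q d).degree x := by
    intro x
    rw [← SimpleGraph.card_neighborFinset_eq_degree]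
    have hlt : ∀ j : Fin d, x.1 ^^^ 2 ^ j.1 < 2 ^ d := fun j =>
      Nat.xor_lt_two_pow x.2 (Nat.pow_lt_pow_right (by norm_num) j.2)
    have := Finset.card_le_card_of_injOn (s := (univ : Finset (Fin d)))
      (t := (Q d).neighborFinset x) (fun j => ⟨x.1 ^^^ 2 ^ j.1, hlt j⟩)
      (fun j _ => by
        rw [mem_coe, SimpleGraph.mem_neighborFinset]
        exact ⟨j.1, j.2, rfl⟩)
      (fun i _ j _ hij => by
        have h1 : x.1 ^^^ 2 ^ i.1 = x.1 ^^^ 2 ^ j.1 := congrArg Fin.val hij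
        rw [Nat.xor_right_inj] at h1
        exact Fin.ext (Nat.pow_right_injective le_rfl h1))
    simpa using this
  calc d * 2 ^ d = ∑ _x : Fin (2 ^ d), d := by simp [mul_comm]
    _ ≤ _ := Finset.sum_le_sum fun x _ => h x

theorem main : ¬ (∃ c : ℝ, 0 < c ∧
    ∀ (n : ℕ) (G : SimpleGraph (Fin n)), G.edgeSet.Nonempty →
      ∃ H : G.Subgraph,
        (∀ f g : Fin n → ℝ, Set.InjOn f H.verts → Set.InjOn g H.verts →
          (∀ u v : Fin n, H.Adj u v → |f u - f v| = |g u - g v|) →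
          ∀ u ∈ H.verts, ∀ v ∈ H.verts, |f u - f v| = |g u - g v|) ∧
        c * (G.edgeSet.ncard : ℝ) / (n : ℝ) ≤ (H.verts.ncard : ℝ)) := by
  rintro ⟨c, hc, h⟩
  obtain ⟨d, hd⟩ := exists_nat_gt (4 / c)
  have hd0 : 0 < d := by
    have : (0 : ℝ) < d := lt_trans (by positivity) hd
    exact_mod_cast this
  have he := edges d
  have hne : (Q d).edgeSet.Nonempty := by
    refine Set.nonempty_of_ncard_ne_zero fun h0 => ?_
    have : 0 < d * 2 ^ d := by positivity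
    omega
  obtain ⟨H, hH, hle⟩ := h (2 ^ d) (Q d) hne
  have h2 : (H.verts.ncard : ℝ) ≤ 2 := by exact_mod_cast card_le_two H hH
  have h3 : (d : ℝ) * 2 ^ d ≤ 2 * (Q d).edgeSet.ncard := by exact_mod_cast he
  have h4 : (0 : ℝ) < 2 ^ d := by positivity
  push_cast at hle
  rw [div_le_iff₀ h4] at hle
  rw [div_lt_iff₀ hc] at hd
  nlinarith [mul_le_mul_of_nonneg_left h3 hc.le, mul_le_mul_of_nonneg_right h2 h4.le,
    mul_lt_mul_of_pos_right hd h4]

end Pool.Agent.H506Z.Cube
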