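import Mathlib

set_option autoImplicit false

namespace Pool.Agent.H506Z.Groetzsch

open Finset

/-- The twenty edges of the Groetzsch graph on the vertices `0, ..., 10`. -/
def E : Fin 20 → Fin 11 × Fin 11 :=
  ![(0, 1), (1, 2), (2, 3), (3, 4), (4, 0), (5, 1), (5, 4), (6, 2), (6, 0), (7, 3), (7, 1),
    (8, 4), (8, 2), (9, 0), (9, 3), (5, 10), (6, 10), (7, 10), (8, 10), (9, 10)]

/-- The dual hypergraph: one hyperedge for each vertex, the set of the graph edges at it. -/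
def e (i : Fin 11) : Finset (Fin 20) := univ.filter fun v => (E v).1 = i ∨ (E v).2 = i

/-- Six independent sets covering every vertex exactly twice. -/
def I : Fin 6 → Finset (Fin 11) :=
  ![{0, 2, 5, 7}, {0, 3, 5, 8}, {1, 3, 10}, {1, 4, 6, 9}, {2, 4, 10}, {6, 7, 8, 9}]

theorem e_nonempty : ∀ i, (e i).Nonempty := by decide +kernel

theorem I_indep : ∀ k, ∀ i ∈ I k, ∀ j ∈ I k, i ≠ j → Disjoint (e i) (e j) := by decide +kernel

theorem I_cover : ∀ i : Fin 11, (univ.filter fun k => i ∈ I k).card = 2 := by decide +kernel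

theorem sup_eq : (univ.sup fun v : Fin 20 => (univ.filter fun i : Fin 11 => v ∈ e i).card) = 2 := by
  decide +kernel

theorem not_disj : ∀ v : Fin 20, (E v).1 ≠ (E v).2 ∧ ¬ Disjoint (e (E v).1) (e (E v).2) := by
  decide +kernel

theorem no3 : ∀ a0 a1 : Fin 3, a0 ≠ a1 → ∀ a2 : Fin 3, a1 ≠ a2 → ∀ a3 : Fin 3, a2 ≠ a3 →
    ∀ a4 : Fin 3, a3 ≠ a4 → a4 ≠ a0 → ∀ a10 a5 : Fin 3, a5 ≠ a1 → a5 ≠ a4 → a5 ≠ a10 →
    ∀ a6 : Fin 3, a6 ≠ a2 → a6 ≠ a0 → a6 ≠ a10 → ∀ a7 : Fin 3, a7 ≠ a3 → a7 ≠ a1 → a7 ≠ a10 →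
    ∀ a8 : Fin 3, a8 ≠ a4 → a8 ≠ a2 → a8 ≠ a10 → ∀ a9 : Fin 3, a9 ≠ a0 → a9 ≠ a3 → a9 ≠ a10 →
    False := by decide +kernel

theorem not_col (c : Fin 11 → Fin 3) (hc : ∀ i j, i ≠ j → c i = c j → Disjoint (e i) (e j)) :
    False := by
  have h : ∀ v : Fin 20, c (E v).1 ≠ c (E v).2 := fun v hv =>
    (not_disj v).2 (hc _ _ (not_disj v).1 hv)
  exact no3 (c 0) (c 1) (h 0) (c 2) (h 1) (c 3) (h 2) (c 4) (h 3) (h 4) (c 10) (c 5) (h 5) (h 6)
    (h 15) (c 6) (h 7) (h 8) (h 16) (c 7) (h 9) (h 10) (h 17) (c 8) (h 11) (h 12) (h 18) (c 9)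
    (h 13) (h 14) (h 19)

theorem sum_inter (S : Finset (Fin 11)) : ∑ k : Fin 6, (S ∩ I k).card = 2 * S.card := by
  have h1 : ∀ k : Fin 6, (S ∩ I k).card = ∑ i ∈ S, if i ∈ I k then 1 else 0 := by
    intro k
    rw [← Finset.filter_mem_eq_inter, Finset.card_filter]
  simp_rw [h1]
  rw [Finset.sum_comm]
  have h2 : ∀ i ∈ S, (∑ k : Fin 6, if i ∈ I k then 1 else 0) = 2 := by
    intro i _
    rw [← Finset.card_filter]
    exact I_cover i
  rw [Finset.sum_congr rfl h2]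
  simp [mul_comm]

theorem exists_big (S : Finset (Fin 11)) : ∃ k : Fin 6, S.card ≤ (S ∩ I k).card * 3 := by
  by_contra h
  push Not at h
  have h1 := sum_inter S
  have h2 : ∑ k : Fin 6, (S ∩ I k).card * 3 < ∑ _k : Fin 6, S.card :=
    Finset.sum_lt_sum_of_nonempty univ_nonempty fun k _ => h k
  rw [← Finset.sum_mul, h1] at h2
  simp at h2
  omega

theorem hyp (S : Finset (Fin 11)) : ∃ M ⊆ S,
    (∀ i ∈ M, ∀ j ∈ M, i ≠ j → Disjoint (e i) (e j)) ∧
      S.card ≤ M.card * (univ.sup (fun v : Fin 20 => (S.filter (fun i => v ∈ e i)).card) + 1) := by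
  by_cases hS : ∀ i ∈ S, ∀ j ∈ S, i ≠ j → Disjoint (e i) (e j)
  · exact ⟨S, subset_rfl, hS, Nat.le_mul_of_pos_right _ (Nat.succ_pos _)⟩
  · push Not at hS
    obtain ⟨i, hi, j, hj, hij, hd⟩ := hS
    obtain ⟨v, hvi, hvj⟩ := Finset.not_disjoint_iff.1 hd
    have h2 : 2 ≤ univ.sup (fun v : Fin 20 => (S.filter (fun i => v ∈ e i)).card) := by
      refine le_trans ?_ (Finset.le_sup (f := fun v : Fin 20 => (S.filter (fun i => v ∈ e i)).card)
        (mem_univ v))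
      rw [← Finset.card_pair hij]
      refine Finset.card_le_card ?_
      intro x hx
      simp only [mem_insert, mem_singleton] at hx
      rcases hx with rfl | rfl
      · exact mem_filter.2 ⟨hi, hvi⟩
      · exact mem_filter.2 ⟨hj, hvj⟩
    obtain ⟨k, hk⟩ := exists_big S
    refine ⟨S ∩ I k, inter_subset_left, fun a ha b hb hab =>
      I_indep k a (mem_inter.1 ha).2 b (mem_inter.1 hb).2 hab, hk.trans ?_⟩
    exact Nat.mul_le_mul_left _ (by omega)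

end Pool.Agent.H506Z.Groetzsch
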