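import Pool.Agent.H506Z.TPDefs
import Pool.Agent.H812R3.KP.Defs

/-! Twisted group algebras on `ℓ²(G)`. -/

set_option autoImplicit false
set_option linter.unusedSectionVars false
set_option linter.deprecated false

namespace Pool.Agent.H506Z.TP

open Pool.Agent.H812R3.KP
open scoped InnerProductSpace ComplexConjugate

/-- The Hilbert space `ℓ²(X)`. -/
abbrev Hil (X : Type) : Type := lp (fun _ : X => ℂ) 2

/-- The bounded operators on `ℓ²(X)`. -/
abbrev Op (X : Type) : Type := Hil X →L[ℂ] Hil X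

open Classical in
/-- The matrix coefficient `⟨δ_x, T δ_y⟩`. -/
noncomputable def coeff {X : Type} (T : Op X) (x y : X) : ℂ := (T (lp.single 2 y (1 : ℂ))) x

/-- `T = a ⊗ b` on `ℓ²(X × Y) = ℓ²(X) ⊗ ℓ²(Y)`. -/
def IsTensor {X Y : Type} (T : Op (X × Y)) (a : Op X) (b : Op Y) : Prop :=
  ∀ (x x' : X) (y y' : Y), coeff T (x, y) (x', y') = coeff a x x' * coeff b y y'

/-- The minimal (spatial) tensor product: the norm closure of the star-algebra generated by the
operators `a ⊗ b`, `a ∈ A`, `b ∈ B`. -/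
noncomputable def minTensor {X Y : Type} (A : StarSubalgebra ℂ (Op X)) (B : StarSubalgebra ℂ (Op Y)) :
    StarSubalgebra ℂ (Op (X × Y)) :=
  (StarAlgebra.adjoin ℂ {T : Op (X × Y) | ∃ a ∈ A, ∃ b ∈ B, IsTensor T a b}).topologicalClosure

/-- `γ_(g,h) (a ⊗ b) = α_g a ⊗ β_h b`. -/
def IsTensorAction {X Y G H : Type} [Group G] [Group H] {A : StarSubalgebra ℂ (Op X)}
    {B : StarSubalgebra ℂ (Op Y)} (α : G →* (A ≃⋆ₐ[ℂ] A)) (β : H →* (B ≃⋆ₐ[ℂ] B))
    (γ : G × H →* (minTensor A B ≃⋆ₐ[ℂ] minTensor A B)) : Prop :=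
  ∀ (g : G) (h : H) (a : A) (b : B), ∃ T : minTensor A B,
    IsTensor (T : Op (X × Y)) (a : Op X) (b : Op Y) ∧
      IsTensor (γ (g, h) T : Op (X × Y)) (α g a : Op X) (β h b : Op Y)

theorem coeff_eq {X : Type} (T : B X) (x y : X) : coeff T x y = ent T x y := by
  unfold coeff ent
  rw [@dl_eq_single X (fun a b => Classical.propDecidable (a = b)) y]

theorem ext_dl {X : Type} {S T : B X} (h : ∀ y, S (dl y) = T (dl y)) : S = T :=
  ent_ext fun x y => by simp only [ent, h]

/-- diagonal operator, linear map -/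
noncomputable def diagL {X : Type} (f : X → ℂ) (hf : ∀ x, ‖f x‖ = 1) : L2 X →ₗ[ℂ] L2 X where
  toFun ξ := ⟨fun x => f x * ξ x, mem_of_summable (by
    simpa only [norm_mul, hf, one_mul] using summable_sq ξ)⟩
  map_add' ξ η := by
    ext x
    change f x * (ξ + η) x = f x * ξ x + f x * η x
    rw [lp.coeFn_add, Pi.add_apply, mul_add]
  map_smul' c ξ := by
    ext x
    change f x * (c • ξ) x = c * (f x * ξ x)
    rw [lp.coeFn_smul, Pi.smul_apply, smul_eq_mul]
    ring

/-- diagonal operator -/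
noncomputable def diag {X : Type} (f : X → ℂ) (hf : ∀ x, ‖f x‖ = 1) : B X :=
  (diagL f hf).mkContinuous 1 (by
    intro ξ
    have h : ‖diagL f hf ξ‖ ^ 2 = ‖ξ‖ ^ 2 := by
      rw [norm_sq_eq, norm_sq_eq]
      refine tsum_congr fun x => ?_
      change ‖f x * ξ x‖ ^ 2 = _
      rw [norm_mul, hf, one_mul]
    rw [one_mul]
    exact ((sq_eq_sq₀ (norm_nonneg _) (norm_nonneg _)).1 h).le)

theorem diag_apply {X : Type} (f : X → ℂ) (hf : ∀ x, ‖f x‖ = 1) (ξ : L2 X) (x : X) :
    (diag f hf ξ) x = f x * ξ x := rfl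

theorem diag_dl {X : Type} (f : X → ℂ) (hf : ∀ x, ‖f x‖ = 1) (y : X) :
    diag f hf (dl y) = f y • dl y := by
  classical
  ext x
  rw [diag_apply, lp.coeFn_smul, Pi.smul_apply, dl_apply]
  by_cases h : x = y
  · subst h; simp
  · simp [h]

theorem ent_diag_mul {X : Type} (f : X → ℂ) (hf : ∀ x, ‖f x‖ = 1) (T : B X) (x y : X) :
    ent (diag f hf * T) x y = f x * ent T x y := rfl

theorem ent_mul_diag {X : Type} (f : X → ℂ) (hf : ∀ x, ‖f x‖ = 1) (T : B X) (x y : X) :
    ent (T * diag f hf) x y = ent T x y * f y := by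
  simp only [ent, mul_apply_eq_comp, diag_dl, map_smul, lp.coeFn_smul, Pi.smul_apply,
    smul_eq_mul, mul_comm]

theorem star_diag {X : Type} (f : X → ℂ) (hf : ∀ x, ‖f x‖ = 1) :
    star (diag f hf) = diag (fun x => conj (f x)) (fun x => by simpa using hf x) := by
  classical
  apply ent_ext
  intro x y
  rw [ent_star]
  simp only [ent, diag_apply, dl_apply]
  by_cases h : x = y
  · subst h; simp
  · rw [if_neg h, if_neg (fun h' => h h'.symm)]; simp

theorem conj_mul_of_norm {z : ℂ} (h : ‖z‖ = 1) : conj z * z = 1 := by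
  rw [Complex.conj_mul', h]; simp

theorem mul_conj_of_norm {z : ℂ} (h : ‖z‖ = 1) : z * conj z = 1 := by
  rw [mul_comm, conj_mul_of_norm h]

/-- a normalised unimodular 2-cocycle -/
structure Coc (G : Type) [Group G] where
  c : G → G → ℂ
  norm_c : ∀ g h, ‖c g h‖ = 1
  one_left : ∀ g, c 1 g = 1
  one_right : ∀ g, c g 1 = 1
  assoc : ∀ g h k, c g h * c (g * h) k = c h k * c g (h * k)

section
variable {G : Type} [Group G] (κ : Coc G)

/-- twisted left translation -/
noncomputable def u (g : G) : B G := perm (Equiv.mulLeft g) * diag (κ.c g) (κ.norm_c g)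

theorem u_dl (g y : G) : u κ g (dl y) = κ.c g y • dl (g * y) := by
  rw [u, mul_apply_eq_comp, diag_dl, map_smul, perm_dl]
  rfl

theorem ent_u [DecidableEq G] (g x y : G) :
    ent (u κ g) x y = if x = g * y then κ.c g y else 0 := by
  rw [ent, u_dl, lp.coeFn_smul, Pi.smul_apply, dl_apply]
  split_ifs <;> simp

theorem u_mul (g h : G) : u κ g * u κ h = κ.c g h • u κ (g * h) := by
  apply ext_dl
  intro y
  rw [mul_apply_eq_comp, u_dl, map_smul, u_dl, smul_apply, u_dl,
    smul_smul, smul_smul, κ.assoc, mul_assoc]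

theorem u_one : u κ 1 = 1 := by
  apply ext_dl
  intro y
  rw [u_dl, κ.one_left, one_smul, one_mul]
  rfl

theorem c_inv (g : G) : κ.c g g⁻¹ = κ.c g⁻¹ g := by
  have h := κ.assoc g g⁻¹ g
  rwa [mul_inv_cancel, inv_mul_cancel, κ.one_left, κ.one_right, mul_one, mul_one] at h

theorem star_u (g : G) : star (u κ g) = conj (κ.c g g⁻¹) • u κ g⁻¹ := by
  classical
  apply ent_ext
  intro x y
  rw [ent_star, ent_smul, ent_u, ent_u]
  by_cases h : y = g * x
  · subst h
    rw [if_pos rfl, if_pos (by simp)]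
    have h1 := κ.assoc g⁻¹ g x
    rw [inv_mul_cancel, κ.one_left, mul_one] at h1
    rw [c_inv, h1, map_mul, mul_assoc, conj_mul_of_norm (κ.norm_c _ _), mul_one]
  · rw [if_neg h, if_neg]
    · simp
    · rintro rfl; simp at h

theorem star_u_mul (g : G) : star (u κ g) * u κ g = 1 := by
  rw [star_u, smul_mul_assoc, u_mul, smul_smul, inv_mul_cancel, u_one, ← c_inv,
    conj_mul_of_norm (κ.norm_c _ _), one_smul]

theorem mul_star_u (g : G) : u κ g * star (u κ g) = 1 := by
  rw [star_u, mul_smul_comm, u_mul, smul_smul, mul_inv_cancel, u_one,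
    conj_mul_of_norm (κ.norm_c _ _), one_smul]

theorem u_unitary (g : G) : u κ g ∈ unitary (B G) := ⟨star_u_mul κ g, mul_star_u κ g⟩

/-- finite sums -/
noncomputable def A0 : StarSubalgebra ℂ (B G) where
  carrier := Submodule.span ℂ (Set.range (u κ))
  mul_mem' := by
    intro S T hS hT
    induction hS, hT using Submodule.span_induction₂ with
    | mem_mem x y hx hy =>
      obtain ⟨g, rfl⟩ := hx
      obtain ⟨h, rfl⟩ := hy
      rw [u_mul]
      exact Submodule.smul_mem _ _ (Submodule.subset_span ⟨_, rfl⟩)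
    | zero_left y hy => simp
    | zero_right x hx => simp
    | add_left x y z _ _ _ h1 h2 => rw [add_mul]; exact Submodule.add_mem _ h1 h2
    | add_right x y z _ _ _ h1 h2 => rw [mul_add]; exact Submodule.add_mem _ h1 h2
    | smul_left r x y _ _ h => rw [smul_mul_assoc]; exact Submodule.smul_mem _ _ h
    | smul_right r x y _ _ h => rw [mul_smul_comm]; exact Submodule.smul_mem _ _ h
  one_mem' := Submodule.subset_span ⟨1, u_one κ⟩
  add_mem' := fun h1 h2 => Submodule.add_mem _ h1 h2
  zero_mem' := Submodule.zero_mem _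
  algebraMap_mem' := by
    intro r
    rw [Algebra.algebraMap_eq_smul_one]
    exact Submodule.smul_mem _ _ (Submodule.subset_span ⟨1, u_one κ⟩)
  star_mem' := by
    intro S hS
    induction hS using Submodule.span_induction with
    | mem x hx =>
      obtain ⟨g, rfl⟩ := hx
      rw [star_u]
      exact Submodule.smul_mem _ _ (Submodule.subset_span ⟨_, rfl⟩)
    | zero => simp
    | add x y _ _ h1 h2 => rw [star_add]; exact Submodule.add_mem _ h1 h2
    | smul r x _ h => rw [star_smul]; exact Submodule.smul_mem _ _ h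

/-- the reduced twisted group C*-algebra -/
noncomputable def Al : StarSubalgebra ℂ (B G) := (A0 κ).topologicalClosure

theorem u_mem (g : G) : u κ g ∈ Al κ :=
  (A0 κ).le_topologicalClosure (Submodule.subset_span ⟨g, rfl⟩)

theorem isClosed_al : IsClosed (Al κ : Set (B G)) := (A0 κ).isClosed_topologicalClosure

/-- finite linear combinations -/
noncomputable def L : (G →₀ ℂ) →ₗ[ℂ] B G := Finsupp.linearCombination ℂ (u κ)

theorem L_apply (f : G →₀ ℂ) : L κ f = ∑ g ∈ f.support, f g • u κ g := by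
  rw [L, Finsupp.linearCombination_apply, Finsupp.sum]

theorem L_mem (f : G →₀ ℂ) : L κ f ∈ Al κ := by
  rw [L_apply]
  exact sum_mem fun g _ => (Al κ).smul_mem (u_mem κ g) _

theorem dense {T : B G} (hT : T ∈ Al κ) {δ : ℝ} (hδ : 0 < δ) : ∃ f : G →₀ ℂ, ‖T - L κ f‖ < δ := by
  have h1 : T ∈ closure (A0 κ : Set (B G)) := by
    rw [← StarSubalgebra.topologicalClosure_coe]; exact hT
  obtain ⟨S, hS, hd⟩ := Metric.mem_closure_iff.1 h1 δ hδ
  have hS' : S ∈ Submodule.span ℂ (Set.range (u κ)) := hS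
  rw [← Finsupp.range_linearCombination] at hS'
  obtain ⟨f, rfl⟩ := hS'
  exact ⟨f, by rwa [dist_eq_norm] at hd⟩

theorem map_al {E : Type} [NormedAddCommGroup E] [NormedSpace ℂ E] (M : Submodule ℂ E)
    (hM : IsClosed (M : Set E)) (Φ : B G →L[ℂ] E) (h : ∀ g, Φ (u κ g) ∈ M) {T : B G}
    (hT : T ∈ Al κ) : Φ T ∈ M := by
  have h1 : T ∈ closure (A0 κ : Set (B G)) := by
    rw [← StarSubalgebra.topologicalClosure_coe]; exact hT
  have h2 := map_mem_closure Φ.continuous h1 (t := (M : Set E)) ?_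
  · rwa [hM.closure_eq] at h2
  · intro S hS
    have hS' : S ∈ Submodule.span ℂ (Set.range (u κ)) := hS
    induction hS' using Submodule.span_induction with
    | mem x hx =>
      obtain ⟨g, rfl⟩ := hx
      exact h g
    | zero => simp
    | add x y hx hy h1 h2 => rw [map_add]; exact M.add_mem (h1 hx) (h2 hy)
    | smul r x hx h => rw [map_smul]; exact M.smul_mem r (h hx)

theorem al_zero {E : Type} [NormedAddCommGroup E] [NormedSpace ℂ E]
    (Φ : B G →L[ℂ] E) (h : ∀ g, Φ (u κ g) = 0) {T : B G} (hT : T ∈ Al κ) : Φ T = 0 := by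
  have := map_al κ (⊥ : Submodule ℂ E) (by simp) Φ (by simpa using h) hT
  simpa using this

theorem map_al' {Y : Type} (M : StarSubalgebra ℂ (B Y)) (hM : IsClosed (M : Set (B Y)))
    (Φ : B G →L[ℂ] B Y) (h : ∀ g, Φ (u κ g) ∈ M) {T : B G} (hT : T ∈ Al κ) : Φ T ∈ M :=
  map_al κ (Subalgebra.toSubmodule M.toSubalgebra) hM Φ h hT

theorem al_comm {R : B G} (h : ∀ g, R * u κ g = u κ g * R) {T : B G} (hT : T ∈ Al κ) :
    R * T = T * R := by
  have := al_zero κ (ContinuousLinearMap.mul ℂ (B G) R - (ContinuousLinearMap.mul ℂ (B G)).flip R)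
    (by intro g; simp [h]) hT
  simpa [sub_eq_zero] using this

/-- the canonical trace -/
noncomputable def tr : B G →L[ℂ] ℂ := entL 1 1

theorem tr_apply (T : B G) : tr T = ent T 1 1 := entL_apply _ _ _

theorem tr_one : tr (1 : B G) = 1 := by
  classical
  rw [tr_apply, ent_one, if_pos rfl]

theorem norm_tr_le (T : B G) : ‖tr T‖ ≤ ‖T‖ := by
  rw [tr_apply]; exact norm_ent_le _ _ _

theorem tr_u [DecidableEq G] (g : G) : tr (u κ g) = if g = 1 then 1 else 0 := by
  rw [tr_apply, ent_u, κ.one_right, mul_one]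
  simp only [eq_comm]

theorem tr_L (f : G →₀ ℂ) : tr (L κ f) = f 1 := by
  classical
  rw [L_apply, map_sum]
  simp only [map_smul, tr_u, smul_eq_mul, mul_ite, mul_one, mul_zero]
  rw [Finset.sum_ite_eq']
  split_ifs with h
  · rfl
  · simpa using (Finsupp.notMem_support_iff.1 h).symm

theorem tr_star_mul (S T : B G) : tr (star S * T) = ⟪S (dl 1), T (dl 1)⟫_ℂ := by
  rw [tr_apply, ent_eq_inner, mul_apply_eq_comp, ContinuousLinearMap.star_eq_adjoint,
    ContinuousLinearMap.adjoint_inner_right]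

theorem tr_star_mul_self (T : B G) : tr (star T * T) = ((‖T (dl 1)‖ ^ 2 : ℝ) : ℂ) := by
  rw [tr_star_mul, inner_self_eq_norm_sq_to_K]
  simp

theorem tr_comm {S T : B G} (hS : S ∈ Al κ) (hT : T ∈ Al κ) : tr (S * T) = tr (T * S) := by
  classical
  have h1 : ∀ g, tr (u κ g * T) = tr (T * u κ g) := by
    intro g
    have := al_zero κ (tr.comp (ContinuousLinearMap.mul ℂ (B G) (u κ g)) -
      tr.comp ((ContinuousLinearMap.mul ℂ (B G)).flip (u κ g))) ?_ hT
    · simpa [sub_eq_zero] using this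
    · intro h
      simp only [sub_apply, ContinuousLinearMap.comp_apply,
        ContinuousLinearMap.mul_apply', ContinuousLinearMap.flip_apply, u_mul, map_smul, tr_u,
        smul_eq_mul]
      by_cases hh : h = g⁻¹
      · subst hh; simp [c_inv]
      · rw [if_neg, if_neg]
        · simp
        · intro h'; exact hh (eq_inv_of_mul_eq_one_left h')
        · intro h'; exact hh (eq_inv_of_mul_eq_one_right h')
  have := al_zero κ (tr.comp ((ContinuousLinearMap.mul ℂ (B G)).flip T) -
      tr.comp (ContinuousLinearMap.mul ℂ (B G) T)) ?_ hS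
  · simpa [sub_eq_zero] using this
  · intro h
    simp [h1]

theorem faithful {T : B G} (hT : T ∈ Al κ) (h : T (dl 1) = 0) : T = 0 := by
  classical
  apply ent_ext
  intro x y
  have := al_zero κ (entL x y - κ.c (x * y⁻¹) y • entL (x * y⁻¹) 1) ?_ hT
  · simp only [sub_apply, smul_apply, entL_apply,
      smul_eq_mul, sub_eq_zero] at this
    rw [this, ent_zero, ent, h]
    simp
  · intro g
    simp only [sub_apply, smul_apply, entL_apply,
      smul_eq_mul, ent_u, κ.one_right, mul_one]
    by_cases hx : x = g * y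
    · subst hx; simp
    · rw [if_neg hx, if_neg]
      · simp
      · rintro rfl; simp at hx

theorem faithful' {T : B G} (hT : T ∈ Al κ) (h : tr (star T * T) = 0) : T = 0 := by
  rw [tr_star_mul_self] at h
  apply faithful κ hT
  have : ‖T (dl 1)‖ ^ 2 = 0 := by exact_mod_cast h
  simpa using this

theorem stablyFinite (S : StarSubalgebra ℂ (B G)) (hS : S = Al κ) : IsStablyFinite S := by
  subst hS
  intro n v hv
  set p : Matrix (Fin n) (Fin n) (Al κ) := 1 - v * star v with hp
  have hp1 : star p = p := by rw [hp, star_sub, star_one, star_mul, star_star]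
  have hp2 : p * p = p := by
    have : v * star v * (v * star v) = v * star v := by
      rw [mul_assoc, ← mul_assoc (star v), hv, one_mul]
    rw [hp, sub_mul, mul_sub, mul_sub, this]
    simp
  let t : Al κ →+ ℂ := (tr : B G →L[ℂ] ℂ).toLinearMap.toAddMonoidHom.comp
    (Al κ).subtype.toAlgHom.toRingHom.toAddMonoidHom
  have ht : ∀ a : Al κ, t a = tr (a : B G) := fun a => rfl
  have hT : ∀ m w : Matrix (Fin n) (Fin n) (Al κ),
      ∑ i, t ((m * w) i i) = ∑ i, t ((w * m) i i) := by
    intro m w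
    simp only [Matrix.mul_apply, map_sum]
    rw [Finset.sum_comm]
    refine Finset.sum_congr rfl fun i _ => Finset.sum_congr rfl fun j _ => ?_
    rw [ht, ht]
    exact tr_comm κ (m j i).2 (w i j).2
  have h0 : ∑ i, t ((star p * p) i i) = 0 := by
    rw [hp1, hp2, hp]
    simp only [Matrix.sub_apply, map_sub, Finset.sum_sub_distrib]
    rw [hT v (star v), hv, sub_self]
  have h1 : ∑ i, ∑ j, ‖(p j i : B G) (dl 1)‖ ^ 2 = 0 := by
    have : ((∑ i, ∑ j, ‖(p j i : B G) (dl 1)‖ ^ 2 : ℝ) : ℂ) = 0 := by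
      rw [← h0]
      simp only [Matrix.mul_apply, map_sum, Matrix.star_apply, Complex.ofReal_sum]
      refine Finset.sum_congr rfl fun i _ => Finset.sum_congr rfl fun j _ => ?_
      rw [ht, ← tr_star_mul_self]
      rfl
    exact_mod_cast this
  have h2 : p = 0 := by
    refine Matrix.ext fun i j => ?_
    have h3 := (Finset.sum_eq_zero_iff_of_nonneg (fun i _ => Finset.sum_nonneg
      fun j _ => by positivity)).1 h1 j (Finset.mem_univ _)
    have h4 := (Finset.sum_eq_zero_iff_of_nonneg (fun i _ => by positivity)).1 h3 i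
      (Finset.mem_univ _)
    have h5 : (p i j : B G) = 0 := faithful κ (p i j).2 (by simpa using h4)
    exact Subtype.ext h5
  rw [hp, sub_eq_zero] at h2
  exact h2.symm

end

end Pool.Agent.H506Z.TP
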