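import Mathlib

/-!
Definitions for the two questions on tensor product actions: actions, the spatial tensor product,
simplicity, stable finiteness, the Rokhlin property and the tracial Rokhlin property.
-/

set_option autoImplicit false

namespace Pool.Agent.H506Z.TPS

/-- `π` is a unital star-homomorphism. -/
def IsStarHom {A R : Type} [CStarAlgebra A] [CStarAlgebra R] (π : A → R) : Prop :=
  π 1 = 1 ∧ (∀ a b, π (a + b) = π a + π b) ∧ (∀ a b, π (a * b) = π a * π b) ∧
    (∀ (c : ℂ) a, π (c • a) = c • π a) ∧ ∀ a, π (star a) = star (π a)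

/-- `σ` is an action of the group `K` on `D` by star-automorphisms. -/
def IsAction {K D : Type} [Group K] [CStarAlgebra D] (σ : K → D → D) : Prop :=
  (∀ k, IsStarHom (σ k)) ∧ (∀ d, σ 1 d = d) ∧ ∀ k l d, σ (k * l) d = σ k (σ l d)

/-- `m a x y = ⟨e_x, π(a) e_y⟩` for a faithful representation `π` of `A` on a Hilbert space with
an orthonormal basis `(e_x)` indexed by `X`. -/
def IsFaithfulRep {A X : Type} [CStarAlgebra A] (m : A → X → X → ℂ) : Prop :=
  ∃ (E : Type) (_ : NormedAddCommGroup E) (_ : InnerProductSpace ℂ E) (_ : CompleteSpace E)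
    (e : HilbertBasis X ℂ E) (π : A → (E →L[ℂ] E)),
    IsStarHom π ∧ Function.Injective π ∧ ∀ a x y, m a x y = inner ℂ (e x) (π a (e y))

/-- `C`, with `t a b = a ⊗ b`, is the minimal (spatial) tensor product of `A` and `B`: the elements
`t a b` generate `C`, and there are faithful representations of `A`, `B`, `C` on Hilbert spaces
`E`, `F` and `E ⊗ F` (orthonormal bases indexed by `X`, `Y`, `X × Y`) in which `t a b` acts as the
tensor product of the operators. -/
def IsMinTensor {A B C : Type} [CStarAlgebra A] [CStarAlgebra B] [CStarAlgebra C]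
    (t : A → B → C) : Prop :=
  (StarAlgebra.adjoin ℂ {c : C | ∃ a b, c = t a b}).topologicalClosure = ⊤ ∧
    ∃ (X Y : Type) (mA : A → X → X → ℂ) (mB : B → Y → Y → ℂ) (mC : C → X × Y → X × Y → ℂ),
      IsFaithfulRep mA ∧ IsFaithfulRep mB ∧ IsFaithfulRep mC ∧
        ∀ a b x x' y y', mC (t a b) (x, y) (x', y') = mA a x x' * mB b y y'

/-- Simple: nonzero, and the only closed two-sided ideals are `0` and everything. -/
def IsSimple (D : Type) [CStarAlgebra D] : Prop :=
  Nontrivial D ∧ ∀ I : TwoSidedIdeal D, IsClosed (I : Set D) → I = ⊥ ∨ I = ⊤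

/-- Stably finite: every isometry in `M_n(D)` is a unitary. -/
def IsStablyFinite (D : Type) [CStarAlgebra D] : Prop :=
  ∀ (n : ℕ) (v : Matrix (Fin n) (Fin n) D), star v * v = 1 → v * star v = 1

/-- Mutually orthogonal projections `e_k` which are permuted by `σ` up to `ε` and commute with `F`
up to `ε`. -/
def IsTower {K D : Type} [Group K] [CStarAlgebra D]
    (σ : K → D → D) (F : Finset D) (ε : ℝ) (e : K → D) : Prop :=
  (∀ k, IsStarProjection (e k)) ∧ (∀ k l, k ≠ l → e k * e l = 0) ∧
    (∀ k l, ‖σ k (e l) - e (k * l)‖ < ε) ∧ ∀ k, ∀ a ∈ F, ‖e k * a - a * e k‖ < ε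

/-- The Rokhlin property. -/
def Rokhlin {K D : Type} [Group K] [Fintype K] [CStarAlgebra D] (σ : K → D → D) : Prop :=
  ∀ (F : Finset D) (ε : ℝ), 0 < ε → ∃ e : K → D, IsTower σ F ε e ∧ ∑ k, e k = 1

/-- The tracial Rokhlin property: `1 - ∑ e_k` is Murray-von Neumann equivalent to a projection in
the closure of `x D x`. -/
def TracialRokhlin {K D : Type} [Group K] [Fintype K] [CStarAlgebra D] (σ : K → D → D) : Prop :=
  ∀ (F : Finset D) (ε : ℝ), 0 < ε → ∀ x : D, (∃ y : D, x = star y * y) → x ≠ 0 →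
    ∃ e : K → D, IsTower σ F ε e ∧
      ∃ p v : D, IsStarProjection p ∧ p ∈ closure {t : D | ∃ d : D, t = x * d * x} ∧
        star v * v = 1 - ∑ k, e k ∧ v * star v = p

end Pool.Agent.H506Z.TPS
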