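import Pool.Agent.H506Z.TP9
import Pool.Agent.H506Z.TPSt

/-! Passage to the short definitions. -/

set_option autoImplicit false

namespace Pool.Agent.H506Z.TPS

theorem isAction {K D : Type} [Group K] [CStarAlgebra D] (σ : K →* (D ≃⋆ₐ[ℂ] D)) :
    IsAction (fun k d => σ k d) :=
  ⟨fun k => ⟨map_one (σ k), map_add (σ k), map_mul (σ k), map_smul (σ k), map_star (σ k)⟩,
    fun d => by simp, fun k l d => by simp⟩

theorem faithful {A X : Type} [CStarAlgebra A] {m : A → X → X → ℂ} (h : TP.IsFaithfulRep m) :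
    IsFaithfulRep m := by
  obtain ⟨E, i1, i2, i3, e, π, h1, h2⟩ := h
  exact ⟨E, i1, i2, i3, e, π, ⟨map_one π, map_add π, map_mul π, map_smul π, map_star π⟩, h1, h2⟩

theorem main :
    ∃ (A B C : Type) (_ : CStarAlgebra A) (_ : CStarAlgebra B) (_ : CStarAlgebra C) (t : A → B → C)
      (α : ℤˣ → A → A) (β : ℤˣ → B → B) (γ : ℤˣ × ℤˣ → C → C),
      IsSimple A ∧ IsSimple B ∧ IsMinTensor t ∧ IsStablyFinite C ∧
      IsAction α ∧ IsAction β ∧ IsAction γ ∧ (∀ g h a b, γ (g, h) (t a b) = t (α g a) (β h b)) ∧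
      Rokhlin γ ∧ TracialRokhlin γ ∧ ¬ Rokhlin α ∧ ¬ TracialRokhlin α := by
  obtain ⟨A, B, C, i1, i2, i3, t, α, β, γ, h1, h2, ⟨h3, X, Y, mA, mB, mC, k1, k2, k3, k4⟩, h4, h5,
    h6, h7⟩ := TP.example_abs
  exact ⟨A, B, C, i1, i2, i3, t, _, _, _, h1, h2,
    ⟨h3, X, Y, mA, mB, mC, faithful k1, faithful k2, faithful k3, k4⟩, h4, isAction α, isAction β,
    isAction γ, h5, h6, h6.tracial, fun h => h7 (TP.Rokhlin.tracial h), h7⟩

end Pool.Agent.H506Z.TPS
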