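import Pool.Agent.H506Z.TP1

/-! Simplicity by averaging. -/

set_option autoImplicit false
set_option linter.unusedSectionVars false
set_option linter.deprecated false

namespace Pool.Agent.H506Z.TP

open Pool.Agent.H812R3.KP
open scoped InnerProductSpace ComplexConjugate

theorem norm_one_le' {X : Type} : ‖(1 : B X)‖ ≤ 1 := ContinuousLinearMap.norm_id_le

theorem nstar {X : Type} (T : B X) : ‖star T‖ = ‖T‖ := by
  rw [ContinuousLinearMap.star_eq_adjoint]
  exact LinearIsometryEquiv.norm_map _ _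

open Classical in
theorem cut_dl {X : Type} (S : Set X) (y : X) : cut S (dl y) = if y ∈ S then dl y else 0 := by
  ext x
  rw [cut_apply]
  by_cases h : y ∈ S
  · rw [if_pos h, dl_apply]
    by_cases hx : x = y
    · subst hx; simp [h]
    · simp [hx]
  · rw [if_neg h, dl_apply]
    by_cases hx : x = y
    · subst hx; simp [h]
    · simp [hx]

open Classical in
theorem ent_cut {X : Type} (S : Set X) (x y : X) :
    ent (cut S) x y = if x ∈ S ∧ x = y then 1 else 0 := by
  rw [ent, cut_apply, dl_apply]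
  by_cases h : x ∈ S <;> simp [h]

theorem star_cut {X : Type} (S : Set X) : star (cut S) = cut S := by
  classical
  apply ent_ext
  intro x y
  rw [ent_star, ent_cut, ent_cut]
  by_cases h : x = y
  · subst h; by_cases h' : x ∈ S <;> simp [h']
  · simp [h, Ne.symm h]

theorem cut_mul_cut {X : Type} (S : Set X) : cut S * cut S = cut S := by
  ext ξ x
  rw [mul_apply_eq_comp, cut_apply, cut_apply]
  split_ifs <;> rfl

theorem cut_proj {X : Type} (S : Set X) : IsStarProjection (cut S) :=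
  ⟨cut_mul_cut S, star_cut S⟩

theorem cut_add {X : Type} (S : Set X) : cut S + cut Sᶜ = 1 := by
  ext ξ x
  rw [add_apply, lp.coeFn_add, Pi.add_apply, cut_apply, cut_apply]
  by_cases h : x ∈ S <;> simp [h]

theorem norm_sum_orth {X ι : Type} (s : Finset ι) (q y : ι → B X) (M : ℝ)
    (hq : ∀ i, IsStarProjection (q i)) (ho : ∀ i j, i ≠ j → q i * q j = 0)
    (hy : ∀ i, ‖y i‖ ≤ M) : ‖∑ i ∈ s, q i * y i‖ ^ 2 ≤ s.card * M ^ 2 := by
  classical
  rw [sq, ← CStarRing.norm_star_mul_self]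
  have h1 : star (∑ i ∈ s, q i * y i) * ∑ i ∈ s, q i * y i = ∑ i ∈ s, star (y i) * q i * y i := by
    rw [star_sum, Finset.sum_mul_sum]
    refine Finset.sum_congr rfl fun i hi => ?_
    rw [Finset.sum_eq_single i]
    · rw [star_mul, (hq i).isSelfAdjoint.star_eq, mul_assoc, ← mul_assoc (q i),
        (hq i).isIdempotentElem.eq, mul_assoc]
    · intro j _ hj
      rw [star_mul, (hq i).isSelfAdjoint.star_eq, mul_assoc, ← mul_assoc (q i), ho i j hj.symm]
      simp
    · intro h; exact absurd hi h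
  rw [h1]
  refine (norm_sum_le _ _).trans ?_
  rw [← nsmul_eq_mul]
  refine Finset.sum_le_card_nsmul _ _ _ fun i _ => ?_
  have hM : 0 ≤ M := (norm_nonneg _).trans (hy i)
  calc ‖star (y i) * q i * y i‖ ≤ ‖star (y i)‖ * ‖q i‖ * ‖y i‖ :=
        (norm_mul_le _ _).trans (by gcongr; exact norm_mul_le _ _)
    _ ≤ M * 1 * M := by
        rw [nstar]
        gcongr
        · exact hy i
        · exact (hq i).norm_le
        · exact hy i
    _ = M ^ 2 := by ring

section
variable {G : Type} [Group G] (κ : Coc G)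

theorem cut_u_cut (S T : Set G) (g : G) (h : ∀ y ∈ T, g * y ∉ S) :
    cut S * u κ g * cut T = 0 := by
  apply ext_dl
  intro y
  rw [mul_apply_eq_comp, mul_apply_eq_comp, cut_dl]
  split_ifs with hy
  · rw [u_dl, map_smul, cut_dl, if_neg (h y hy)]
    simp
  · simp

theorem norm_conj (g : G) (x : B G) : ‖u κ g * x * star (u κ g)‖ = ‖x‖ := by
  rw [CStarRing.norm_mul_mem_unitary _ (Unitary.star_mem (u_unitary κ g)),
    CStarRing.norm_mem_unitary_mul _ (u_unitary κ g)]

/-- averaging maps -/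
def Good (Φ : B G →ₗ[ℂ] B G) : Prop :=
  (∀ x, ‖Φ x‖ ≤ ‖x‖) ∧ Φ 1 = 1 ∧
    ∀ (I : TwoSidedIdeal (Al κ)) (x : Al κ), x ∈ I → ∃ x' ∈ I, (x' : B G) = Φ x

theorem Good.comp {Φ Ψ : B G →ₗ[ℂ] B G} (h1 : Good κ Φ) (h2 : Good κ Ψ) : Good κ (Φ ∘ₗ Ψ) := by
  refine ⟨fun x => (h1.1 _).trans (h2.1 x), by simp [h1.2.1, h2.2.1], fun I x hx => ?_⟩
  obtain ⟨y, hy, e⟩ := h2.2.2 I x hx
  obtain ⟨z, hz, e'⟩ := h1.2.2 I y hy
  exact ⟨z, hz, by simp [e', e]⟩

theorem good_id : Good κ LinearMap.id := ⟨fun _ => le_rfl, rfl, fun _ x hx => ⟨x, hx, rfl⟩⟩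

theorem smul_mem_ideal (I : TwoSidedIdeal (Al κ)) (c : ℂ) {x : Al κ} (hx : x ∈ I) : c • x ∈ I := by
  rw [Algebra.smul_def]
  exact I.mul_mem_left _ _ hx

theorem simple_of (h : ∀ (f : G →₀ ℂ) (η : ℝ), 0 < η → ∃ Φ, Good κ Φ ∧
    ‖Φ (L κ f) - f 1 • (1 : B G)‖ ≤ η) : IsSimple (Al κ) := by
  have : CompleteSpace (Al κ) := (isClosed_al κ).completeSpace_coe
  refine ⟨⟨0, 1, fun h0 => ?_⟩, fun I _ => ?_⟩
  · have h1 : (0 : B G) = 1 := congrArg Subtype.val h0
    have h2 := tr_one (G := G)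
    rw [← h1, map_zero] at h2
    exact zero_ne_one h2
  by_cases hI : I = ⊥
  · exact Or.inl hI
  right
  obtain ⟨x, hx, hx0⟩ : ∃ x ∈ I, x ≠ 0 := by
    by_contra hc
    push Not at hc
    apply hI
    ext x
    rw [TwoSidedIdeal.mem_bot]
    exact ⟨hc x, fun h => h ▸ I.zero_mem⟩
  have hy : star x * x ∈ I := I.mul_mem_left _ _ hx
  set t : ℝ := ‖(x : B G) (dl 1)‖ ^ 2 with ht
  have ht0 : 0 < t := by
    have : (x : B G) (dl 1) ≠ 0 := fun h => hx0 (Subtype.ext (faithful κ x.2 h))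
    positivity
  have hty : tr ((star x * x : Al κ) : B G) = (t : ℂ) := tr_star_mul_self _
  obtain ⟨f, hf⟩ := dense κ (star x * x).2 (show 0 < t / 4 by positivity)
  obtain ⟨Φ, hΦ, hΦf⟩ := h f (t / 4) (by positivity)
  obtain ⟨x', hx', e⟩ := hΦ.2.2 I _ hy
  have h1 : ‖f 1 - (t : ℂ)‖ < t / 4 := by
    rw [← hty, ← tr_L κ f, ← map_sub, ← norm_neg, ← map_neg, neg_sub]
    exact (norm_tr_le _).trans_lt hf
  have h2 : ‖(t : ℂ) • (1 : B G) - (x' : B G)‖ < t := by
    have e1 : (t : ℂ) • (1 : B G) - (x' : B G) = -(Φ (((star x * x : Al κ) : B G) - L κ f) +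
        (Φ (L κ f) - f 1 • (1 : B G)) + (f 1 - (t : ℂ)) • (1 : B G)) := by
      rw [e, map_sub, sub_smul]; abel
    rw [e1, norm_neg]
    have h3 := hΦ.1 (((star x * x : Al κ) : B G) - L κ f)
    have h4 : ‖(f 1 - (t : ℂ)) • (1 : B G)‖ ≤ ‖f 1 - (t : ℂ)‖ := by
      rw [norm_smul]
      exact mul_le_of_le_one_right (norm_nonneg _) norm_one_le'
    have h5 := norm_add₃_le (a := Φ (((star x * x : Al κ) : B G) - L κ f))
      (b := Φ (L κ f) - f 1 • (1 : B G)) (c := (f 1 - (t : ℂ)) • (1 : B G))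
    linarith
  have h6 : ‖(1 : Al κ) - (t : ℂ)⁻¹ • x'‖ < 1 := by
    have ht1 : (t : ℂ) ≠ 0 := by exact_mod_cast ht0.ne'
    have e2 : (((1 : Al κ) - (t : ℂ)⁻¹ • x' : Al κ) : B G) =
        (t : ℂ)⁻¹ • ((t : ℂ) • (1 : B G) - (x' : B G)) := by
      rw [smul_sub, smul_smul, inv_mul_cancel₀ ht1, one_smul]
      rfl
    change ‖(((1 : Al κ) - (t : ℂ)⁻¹ • x' : Al κ) : B G)‖ < 1
    rw [e2, norm_smul, norm_inv, Complex.norm_real, Real.norm_of_nonneg ht0.le,
      inv_mul_lt_iff₀ ht0, mul_one]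
    exact h2
  have h7 : (t : ℂ)⁻¹ • x' ∈ I := smul_mem_ideal κ I _ hx'
  have h8 : ((Units.oneSub _ h6 : (Al κ)ˣ) : Al κ) = (t : ℂ)⁻¹ • x' := by
    rw [Units.val_oneSub, sub_sub_cancel]
  have h9 : (1 : Al κ) ∈ I := by
    rw [← (Units.oneSub _ h6).inv_mul, h8]
    exact I.mul_mem_left _ _ h7
  exact (TwoSidedIdeal.one_mem_iff I).1 h9

/-- the average of conjugates -/
noncomputable def avg {ι : Type} [Fintype ι] (g : ι → G) : B G →ₗ[ℂ] B G :=
  ((Fintype.card ι : ℂ)⁻¹) • ∑ i, (LinearMap.mulRight ℂ (star (u κ (g i)))) ∘ₗ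
    (LinearMap.mulLeft ℂ (u κ (g i)))

theorem avg_apply {ι : Type} [Fintype ι] (g : ι → G) (x : B G) :
    avg κ g x = ((Fintype.card ι : ℂ)⁻¹) • ∑ i, u κ (g i) * x * star (u κ (g i)) := by
  simp [avg, LinearMap.sum_apply]

theorem good_avg {ι : Type} [Fintype ι] [Nonempty ι] (g : ι → G) : Good κ (avg κ g) := by
  have hc : (0 : ℝ) < Fintype.card ι := by exact_mod_cast Fintype.card_pos
  refine ⟨fun x => ?_, ?_, fun I x hx => ?_⟩
  · rw [avg_apply, norm_smul, norm_inv, Complex.norm_natCast, inv_mul_le_iff₀ hc]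
    refine (norm_sum_le _ _).trans ?_
    simp only [norm_conj]
    simp
  · rw [avg_apply]
    simp only [mul_one, mul_star_u, Finset.sum_const, Finset.card_univ]
    rw [← Nat.cast_smul_eq_nsmul ℂ, smul_smul, inv_mul_cancel₀, one_smul]
    exact_mod_cast hc.ne'
  · let w : ι → Al κ := fun i => ⟨u κ (g i), u_mem κ _⟩
    refine ⟨((Fintype.card ι : ℂ)⁻¹) • ∑ i, w i * x * star (w i), smul_mem_ideal κ I _
      (sum_mem fun i _ => I.mul_mem_right _ _ (I.mul_mem_left _ _ hx)), ?_⟩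
    rw [avg_apply]
    change ((Fintype.card ι : ℂ)⁻¹) • ((Al κ).subtype (∑ i, w i * x * star (w i))) = _
    rw [map_sum]
    rfl

theorem L_sub [DecidableEq G] (f : G →₀ ℂ) :
    L κ f - f 1 • (1 : B G) = ∑ g ∈ f.support.erase 1, f g • u κ g := by
  rw [L_apply]
  by_cases h : (1 : G) ∈ f.support
  · rw [← Finset.add_sum_erase _ _ h, u_one]
    abel
  · rw [Finset.erase_eq_of_notMem h, Finsupp.notMem_support_iff.1 h]
    simp

/-- the Powers property gives simplicity -/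
theorem simple_powers (h : ∀ F : Finset G, 1 ∉ F → ∃ (D : Set G) (g : ℕ → G),
    (∀ f ∈ F, ∀ y ∈ D, f * y ∉ D) ∧ ∀ i j, i ≠ j → ∀ y ∉ D, (g i)⁻¹ * g j * y ∈ D) :
    IsSimple (Al κ) := by
  classical
  apply simple_of
  intro f η hη
  obtain ⟨D, g, h1, h2⟩ := h (f.support.erase 1) (by simp)
  set y := L κ f - f 1 • (1 : B G) with hy
  obtain ⟨k, hk⟩ := exists_nat_gt (4 * ‖y‖ ^ 2 / η ^ 2)
  have hk0 : (0 : ℝ) < k := lt_of_le_of_lt (by positivity) hk
  have hk1 : 0 < k := by exact_mod_cast hk0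
  have : Nonempty (Fin k) := ⟨⟨0, hk1⟩⟩
  refine ⟨avg κ (fun i : Fin k => g i), good_avg κ _, ?_⟩
  have e0 : avg κ (fun i : Fin k => g i) (L κ f) - f 1 • (1 : B G)
      = avg κ (fun i : Fin k => g i) y := by
    rw [hy, map_sub, map_smul, (good_avg κ _).2.1]
  have e1 : cut D * y * cut D = 0 := by
    rw [hy, L_sub, Finset.mul_sum, Finset.sum_mul]
    refine Finset.sum_eq_zero fun a ha => ?_
    rw [mul_smul_comm, smul_mul_assoc, cut_u_cut κ D D a (h1 a ha), smul_zero]
  have e2 : y = cut Dᶜ * y + cut D * y * cut Dᶜ := by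
    calc y = (cut D + cut Dᶜ) * y := by rw [cut_add, one_mul]
      _ = cut Dᶜ * y + cut D * y := by rw [add_mul, add_comm]
      _ = cut Dᶜ * y + cut D * y * (cut D + cut Dᶜ) := by rw [cut_add, mul_one]
      _ = _ := by rw [mul_add, e1, zero_add]
  let q : Fin k → B G := fun i => u κ (g i) * cut Dᶜ * star (u κ (g i))
  have hq : ∀ i, IsStarProjection (q i) := by
    intro i
    constructor
    · change u κ (g i) * cut Dᶜ * star (u κ (g i)) * (u κ (g i) * cut Dᶜ * star (u κ (g i))) = _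
      simp only [mul_assoc]
      rw [← mul_assoc (star _) (u κ _), star_u_mul, one_mul, ← mul_assoc (cut _) (cut _),
        cut_mul_cut, ← mul_assoc]
    · change star (u κ (g i) * cut Dᶜ * star (u κ (g i))) = _
      rw [star_mul, star_mul, star_star, star_cut, ← mul_assoc]
  have ho : ∀ i j, i ≠ j → q i * q j = 0 := by
    intro i j hij
    change u κ (g i) * cut Dᶜ * star (u κ (g i)) * (u κ (g j) * cut Dᶜ * star (u κ (g j))) = _
    have e3 : cut Dᶜ * (star (u κ (g i)) * u κ (g j)) * cut Dᶜ = 0 := by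
      rw [star_u, smul_mul_assoc, u_mul, smul_smul, mul_smul_comm, smul_mul_assoc, cut_u_cut,
        smul_zero]
      intro z hz hz'
      exact hz' (h2 i j (fun e => hij (Fin.ext e)) z hz)
    calc _ = u κ (g i) * (cut Dᶜ * (star (u κ (g i)) * u κ (g j)) * cut Dᶜ) * star (u κ (g j)) := by
          simp only [mul_assoc]
      _ = 0 := by rw [e3]; simp
  have n1 := norm_sum_orth Finset.univ q (fun i => u κ (g i) * y * star (u κ (g i))) ‖y‖ hq ho
    (fun i => (norm_conj κ _ _).le)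
  have n2 := norm_sum_orth Finset.univ q
    (fun i => u κ (g i) * (star y * cut D) * star (u κ (g i))) ‖y‖ hq ho (fun i => by
      rw [norm_conj]
      refine (norm_mul_le _ _).trans ?_
      rw [nstar]
      exact mul_le_of_le_one_right (norm_nonneg _) (cut_proj D).norm_le)
  have e4 : ∑ i : Fin k, u κ (g i) * y * star (u κ (g i)) =
      ∑ i : Fin k, q i * (u κ (g i) * y * star (u κ (g i))) +
      star (∑ i : Fin k, q i * (u κ (g i) * (star y * cut D) * star (u κ (g i)))) := by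
    rw [star_sum, ← Finset.sum_add_distrib]
    refine Finset.sum_congr rfl fun i _ => ?_
    simp only [q, star_mul, star_star, star_cut, mul_assoc]
    rw [← mul_assoc (star (u κ (g i))) (u κ (g i)), ← mul_assoc (star (u κ (g i))) (u κ (g i)),
      star_u_mul, one_mul, one_mul, ← mul_add]
    congr 1
    conv_lhs => rw [e2]
    simp only [add_mul, mul_assoc]
  rw [e0, avg_apply, norm_smul, norm_inv, Complex.norm_natCast, Fintype.card_fin,
    inv_mul_le_iff₀ hk0, e4]
  refine (norm_add_le _ _).trans ?_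
  rw [nstar]
  simp only [Finset.card_univ, Fintype.card_fin] at n1 n2
  have hb : (k : ℝ) * ‖y‖ ^ 2 ≤ (k * η / 2) ^ 2 := by
    rw [div_lt_iff₀ (by positivity)] at hk
    nlinarith
  have m1 := (sq_le_sq₀ (norm_nonneg _) (by positivity)).1 (n1.trans hb)
  have m2 := (sq_le_sq₀ (norm_nonneg _) (by positivity)).1 (n2.trans hb)
  linarith

/-- exact averaging when the generators commute up to signs -/
theorem simple_pauli
    (h1 : ∀ g h, u κ h * u κ g * star (u κ h) = u κ g ∨ u κ h * u κ g * star (u κ h) = -u κ g)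
    (h2 : ∀ g, g ≠ 1 → ∃ h, u κ h * u κ g * star (u κ h) = -u κ g) : IsSimple (Al κ) := by
  classical
  have key : ∀ F : Finset G, 1 ∉ F → ∃ Φ, Good κ Φ ∧ ∀ g ∈ F, Φ (u κ g) = 0 := by
    intro F
    induction F using Finset.induction_on with
    | empty => exact fun _ => ⟨_, good_id κ, by simp⟩
    | insert a F ha ih =>
      intro hF
      obtain ⟨Φ, hΦ, hΦ'⟩ := ih (fun h => hF (Finset.mem_insert_of_mem h))
      obtain ⟨h, hh⟩ := h2 a (fun e => hF (e ▸ Finset.mem_insert_self _ _))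
      have ea : ∀ x, avg κ (fun b : Bool => if b then h else 1) x =
          (2 : ℂ)⁻¹ • (u κ h * x * star (u κ h) + x) := by
        intro x
        rw [avg_apply]
        simp [u_one]
      refine ⟨Φ ∘ₗ avg κ (fun b : Bool => if b then h else 1), hΦ.comp κ (good_avg κ _), ?_⟩
      intro g hg
      rw [LinearMap.comp_apply, ea]
      rcases Finset.mem_insert.1 hg with rfl | hg
      · rw [hh]; simp
      · rcases h1 g h with e | e
        · rw [e, map_smul, map_add, hΦ' g hg]; simp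
        · rw [e]; simp
  apply simple_of
  intro f η hη
  obtain ⟨Φ, hΦ, hΦ'⟩ := key (f.support.erase 1) (by simp)
  refine ⟨Φ, hΦ, ?_⟩
  have : Φ (L κ f) - f 1 • (1 : B G) = Φ (L κ f - f 1 • (1 : B G)) := by
    rw [map_sub, map_smul, hΦ.2.1]
  rw [this, L_sub, map_sum, Finset.sum_eq_zero]
  · simpa using hη.le
  · intro g hg
    rw [map_smul, hΦ' g hg, smul_zero]

end

end Pool.Agent.H506Z.TP
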