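import Pool.Agent.H506Z.TP2

/-! Dual actions, tensor products, Rokhlin towers. -/

set_option autoImplicit false
set_option linter.unusedSectionVars false
set_option linter.deprecated false

namespace Pool.Agent.H506Z.TP

open Pool.Agent.H812R3.KP
open scoped InnerProductSpace ComplexConjugate

/-- a pairing of `K` with `G` -/
structure Chr (K G : Type) [Group K] [Group G] where
  χ : K → G → ℂ
  norm_χ : ∀ k g, ‖χ k g‖ = 1
  mul : ∀ k g h, χ k (g * h) = χ k g * χ k h
  one : ∀ g, χ 1 g = 1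
  mul' : ∀ k l g, χ (k * l) g = χ k g * χ l g

section
variable {K G : Type} [Group K] [Group G] (κ : Coc G) (ω : Chr K G)

/-- conjugation by the diagonal unitary -/
noncomputable def ad (k : K) : B G →L[ℂ] B G :=
  ContinuousLinearMap.mulLeftRight ℂ (B G) (diag (ω.χ k) (ω.norm_χ k))
    (star (diag (ω.χ k) (ω.norm_χ k)))

theorem ad_apply (k : K) (T : B G) :
    ad ω k T = diag (ω.χ k) (ω.norm_χ k) * T * star (diag (ω.χ k) (ω.norm_χ k)) := rfl

theorem ent_ad (k : K) (T : B G) (x y : G) :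
    ent (ad ω k T) x y = ω.χ k x * ent T x y * conj (ω.χ k y) := by
  rw [ad_apply, star_diag, ent_mul_diag, ent_diag_mul]

theorem ad_u (k : K) (g : G) : ad ω k (u κ g) = ω.χ k g • u κ g := by
  classical
  apply ent_ext
  intro x y
  rw [ent_ad, ent_smul, ent_u]
  split_ifs with h
  · subst h
    rw [ω.mul]
    linear_combination (ω.χ k g * κ.c g y) * mul_conj_of_norm (ω.norm_χ k y)
  · simp

theorem ad_mem (k : K) {T : B G} (hT : T ∈ Al κ) : ad ω k T ∈ Al κ :=
  map_al' κ _ (isClosed_al κ) _ (fun g => by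
    rw [ad_u]; exact (Al κ).smul_mem (u_mem κ g) _) hT

theorem ad_ad (k l : K) (T : B G) : ad ω k (ad ω l T) = ad ω (k * l) T := by
  apply ent_ext
  intro x y
  rw [ent_ad, ent_ad, ent_ad, ω.mul', ω.mul', map_mul]
  ring

theorem ad_one (T : B G) : ad ω 1 T = T := by
  apply ent_ext
  intro x y
  rw [ent_ad, ω.one, ω.one]
  simp

theorem star_diag_mul {X : Type} (f : X → ℂ) (hf : ∀ x, ‖f x‖ = 1) :
    star (diag f hf) * diag f hf = 1 := by
  rw [star_diag]
  ext ξ x
  rw [mul_apply_eq_comp, diag_apply, diag_apply, ← mul_assoc, conj_mul_of_norm (hf x), one_mul]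
  rfl

theorem ad_mul (k : K) (S T : B G) : ad ω k (S * T) = ad ω k S * ad ω k T := by
  simp only [ad_apply, mul_assoc]
  rw [← mul_assoc (star _) (diag _ _), star_diag_mul, one_mul]

theorem ad_star (k : K) (T : B G) : ad ω k (star T) = star (ad ω k T) := by
  simp only [ad_apply, star_mul, star_star, mul_assoc]

theorem tr_ad (k : K) (T : B G) : tr (ad ω k T) = tr T := by
  rw [tr_apply, tr_apply, ent_ad]
  linear_combination (ent T 1 1) * mul_conj_of_norm (ω.norm_χ k 1)

/-- the automorphism -/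
noncomputable def aut (S : StarSubalgebra ℂ (B G)) (hS : S = Al κ) (k : K) : S ≃⋆ₐ[ℂ] S where
  toFun T := ⟨ad ω k T, by subst hS; exact ad_mem κ ω k T.2⟩
  invFun T := ⟨ad ω k⁻¹ T, by subst hS; exact ad_mem κ ω k⁻¹ T.2⟩
  left_inv T := Subtype.ext (by
    change ad ω k⁻¹ (ad ω k T) = T
    rw [ad_ad, inv_mul_cancel, ad_one])
  right_inv T := Subtype.ext (by
    change ad ω k (ad ω k⁻¹ T) = T
    rw [ad_ad, mul_inv_cancel, ad_one])
  map_mul' S T := Subtype.ext (ad_mul ω k _ _)
  map_add' S T := Subtype.ext (map_add (ad ω k) _ _)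
  map_star' T := Subtype.ext (ad_star ω k _)
  map_smul' c T := Subtype.ext (map_smul (ad ω k) _ _)

/-- the action -/
noncomputable def act (S : StarSubalgebra ℂ (B G)) (hS : S = Al κ) : K →* (S ≃⋆ₐ[ℂ] S) :=
  MonoidHom.mk' (aut κ ω S hS) (by
    intro k l
    ext T : 1
    exact Subtype.ext (ad_ad ω k l T).symm)

theorem act_coe (S : StarSubalgebra ℂ (B G)) (hS : S = Al κ) (k : K) (T : S) :
    ((act κ ω S hS k T : S) : B G) = ad ω k T := rfl

end

/-- the pairing given by a sign character -/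
noncomputable def sgn {G : Type} [Group G] (ε : G →* ℤˣ) : Chr ℤˣ G where
  χ k g := if k = 1 then 1 else (((ε g : ℤˣ) : ℤ) : ℂ)
  norm_χ k g := by
    split_ifs
    · simp
    · rcases Int.units_eq_one_or (ε g) with h | h <;> simp [h]
  mul k g h := by
    split_ifs
    · simp
    · simp
  one g := by simp
  mul' k l g := by
    rcases Int.units_eq_one_or k with rfl | rfl <;> rcases Int.units_eq_one_or l with rfl | rfl <;>
      rcases Int.units_eq_one_or (ε g) with h | h <;> simp [h]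

theorem sgn_even {G : Type} [Group G] (ε : G →* ℤˣ) {g : G} (h : ε g = 1) (k : ℤˣ) :
    (sgn ε).χ k g = 1 := by
  simp [sgn, h]

theorem sgn_odd {G : Type} [Group G] (ε : G →* ℤˣ) {g : G} (h : ε g = -1) (k : ℤˣ) :
    (sgn ε).χ k g = ((k : ℤ) : ℂ) := by
  rcases Int.units_eq_one_or k with rfl | rfl <;> simp [sgn, h]

section
variable {G H : Type} [Group G] [Group H] (κ : Coc G) (μ : Coc H)

/-- product cocycle -/
def Coc.prod : Coc (G × H) where
  c g h := κ.c g.1 h.1 * μ.c g.2 h.2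
  norm_c g h := by rw [norm_mul, κ.norm_c, μ.norm_c, one_mul]
  one_left g := by simp [κ.one_left, μ.one_left]
  one_right g := by simp [κ.one_right, μ.one_right]
  assoc g h k := by
    have h1 := κ.assoc g.1 h.1 k.1
    have h2 := μ.assoc g.2 h.2 k.2
    simp only [Prod.fst_mul, Prod.snd_mul]
    calc _ = (κ.c g.1 h.1 * κ.c (g.1 * h.1) k.1) * (μ.c g.2 h.2 * μ.c (g.2 * h.2) k.2) := by ring
      _ = _ := by rw [h1, h2]; ring

/-- product pairing -/
def Chr.prod {K K' : Type} [Group K] [Group K'] (ω : Chr K G) (ω' : Chr K' H) :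
    Chr (K × K') (G × H) where
  χ k g := ω.χ k.1 g.1 * ω'.χ k.2 g.2
  norm_χ k g := by rw [norm_mul, ω.norm_χ, ω'.norm_χ, one_mul]
  mul k g h := by simp only [Prod.fst_mul, Prod.snd_mul, ω.mul, ω'.mul]; ring
  one g := by simp [ω.one, ω'.one]
  mul' k l g := by simp only [Prod.fst_mul, Prod.snd_mul, ω.mul', ω'.mul']; ring

end

/-- `a ⊗ 1` -/
noncomputable def amp1 (X Y : Type) : B X →L[ℂ] B (X × Y) := amp (Equiv.refl (X × Y))

/-- `1 ⊗ b` -/
noncomputable def amp2 (X Y : Type) : B Y →L[ℂ] B (X × Y) := amp (Equiv.prodComm Y X)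

theorem ent_amp1 {X Y : Type} [DecidableEq Y] (a : B X) (x x' : X) (y y' : Y) :
    ent (amp1 X Y a) (x, y) (x', y') = if y = y' then ent a x x' else 0 :=
  ent_amp (Equiv.refl (X × Y)) a x x' y y'

theorem ent_amp2 {X Y : Type} [DecidableEq X] (b : B Y) (x x' : X) (y y' : Y) :
    ent (amp2 X Y b) (x, y) (x', y') = if x = x' then ent b y y' else 0 :=
  ent_amp (Equiv.prodComm Y X) b y y' x x'

theorem isTensor_amp {X Y : Type} (a : B X) (b : B Y) :
    IsTensor (amp1 X Y a * amp2 X Y b) a b := by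
  classical
  intro x x' y y'
  simp only [coeff_eq]
  have h1 := ent_mul (amp1 X Y a) (amp2 X Y b) (x, y) (x', y')
  have h2 := hasSum_single (f := fun z => ent (amp1 X Y a) (x, y) z * ent (amp2 X Y b) z (x', y'))
    (x', y) (by
      rintro ⟨z, w⟩ hz
      rw [ent_amp1, ent_amp2]
      by_cases h : y = w
      · subst h
        rw [if_neg (c := z = x'), mul_zero]
        rintro rfl
        exact hz rfl
      · rw [if_neg h, zero_mul])
  rw [h1.unique h2, ent_amp1, ent_amp2, if_pos rfl, if_pos rfl]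

theorem IsTensor.eq {X Y : Type} {T : B (X × Y)} {a : B X} {b : B Y} (h : IsTensor T a b) :
    T = amp1 X Y a * amp2 X Y b := by
  apply ent_ext
  rintro ⟨x, y⟩ ⟨x', y'⟩
  rw [← coeff_eq, ← coeff_eq, h, isTensor_amp]

section
variable {G H : Type} [Group G] [Group H] (κ : Coc G) (μ : Coc H)

theorem amp1_u (g : G) : amp1 G H (u κ g) = u (κ.prod μ) (g, 1) := by
  classical
  apply ent_ext
  rintro ⟨x, y⟩ ⟨x', y'⟩
  rw [ent_amp1, ent_u, ent_u]
  by_cases h1 : y = y' <;> by_cases h2 : x = g * x' <;> simp [h1, h2, Coc.prod, μ.one_left]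

theorem amp2_u (h : H) : amp2 G H (u μ h) = u (κ.prod μ) (1, h) := by
  classical
  apply ent_ext
  rintro ⟨x, y⟩ ⟨x', y'⟩
  rw [ent_amp2, ent_u, ent_u]
  by_cases h1 : x = x' <;> by_cases h2 : y = h * y' <;> simp [h1, h2, Coc.prod, κ.one_left]

theorem minTensor_eq : minTensor (Al κ) (Al μ) = Al (κ.prod μ) := by
  apply le_antisymm
  · refine StarSubalgebra.topologicalClosure_minimal ?_ (isClosed_al _)
    refine StarAlgebra.adjoin_le ?_
    rintro T ⟨a, ha, b, hb, hT⟩
    rw [hT.eq]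
    refine mul_mem (map_al' κ _ (isClosed_al _) _ (fun g => ?_) ha)
      (map_al' μ _ (isClosed_al _) _ (fun g => ?_) hb)
    · rw [amp1_u κ μ]; exact u_mem _ _
    · rw [amp2_u κ μ]; exact u_mem _ _
  · intro T hT
    refine map_al' (κ.prod μ) _ (StarSubalgebra.isClosed_topologicalClosure _)
      (ContinuousLinearMap.id ℂ _) ?_ hT
    rintro ⟨g, h⟩
    apply StarSubalgebra.le_topologicalClosure
    apply StarAlgebra.subset_adjoin
    refine ⟨u κ g, u_mem κ g, u μ h, u_mem μ h, ?_⟩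
    have : u (κ.prod μ) (g, h) = amp1 G H (u κ g) * amp2 G H (u μ h) := by
      rw [amp1_u κ μ, amp2_u κ μ, u_mul]
      simp [Coc.prod, κ.one_right, μ.one_left]
    rw [ContinuousLinearMap.id_apply, this]
    exact isTensor_amp _ _

theorem isTensorAction {K K' : Type} [Group K] [Group K'] (ω : Chr K G) (ω' : Chr K' H) :
    IsTensorAction (act κ ω _ rfl) (act μ ω' _ rfl)
      (act (κ.prod μ) (ω.prod ω') _ (minTensor_eq κ μ)) := by
  intro g h a b
  refine ⟨⟨amp1 G H a * amp2 G H b, StarSubalgebra.le_topologicalClosure _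
    (StarAlgebra.subset_adjoin _ _ ⟨a, a.2, b, b.2, isTensor_amp _ _⟩)⟩, isTensor_amp _ _, ?_⟩
  intro x x' y y'
  have := isTensor_amp (a : B G) (b : B H) x x' y y'
  simp only [coeff_eq] at this
  simp only [coeff_eq, act_coe, ent_ad, this, Chr.prod, map_mul]
  ring

end

end Pool.Agent.H506Z.TP
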