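import Pool.Agent.H506Z.TP3

/-! Rokhlin towers. -/

set_option autoImplicit false
set_option linter.unusedSectionVars false
set_option linter.deprecated false

namespace Pool.Agent.H506Z.TP

open Pool.Agent.H812R3.KP
open scoped InnerProductSpace ComplexConjugate

section
variable {D : Type} [Ring D] [StarRing D] [Algebra ℂ D] [StarModule ℂ D]

/-- spectral projection of a symmetry -/
noncomputable def pj (k : ℤˣ) (s : D) : D := (2 : ℂ)⁻¹ • (1 + ((k : ℤ) : ℂ) • s)

theorem pj_mul (k l : ℤˣ) {s : D} (hs : s * s = 1) :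
    pj k s * pj l s = (4 : ℂ)⁻¹ • ((1 + ((k : ℤ) : ℂ) * ((l : ℤ) : ℂ)) • (1 : D) +
      (((k : ℤ) : ℂ) + ((l : ℤ) : ℂ)) • s) := by
  simp only [pj, smul_mul_assoc, mul_smul_comm, mul_add, add_mul, one_mul, mul_one, hs]
  module

theorem pj_proj (k : ℤˣ) {s : D} (h1 : star s = s) (hs : s * s = 1) :
    IsStarProjection (pj k s) := by
  constructor
  · change pj k s * pj k s = pj k s
    rw [pj_mul k k hs, pj]
    rcases Int.units_eq_one_or k with rfl | rfl <;> simp <;> module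
  · change star (pj k s) = pj k s
    simp [pj, star_smul, h1]

theorem pj_orth {k l : ℤˣ} (h : k ≠ l) {s : D} (hs : s * s = 1) : pj k s * pj l s = 0 := by
  rw [pj_mul k l hs]
  rcases Int.units_eq_one_or k with rfl | rfl <;> rcases Int.units_eq_one_or l with rfl | rfl <;>
    simp at h ⊢

theorem pj_sum (s : D) : ∑ k, pj k s = 1 := by
  rw [show (Finset.univ : Finset ℤˣ) = {1, -1} from rfl, Finset.sum_pair (by decide)]
  simp [pj]
  module

theorem pj_comm (k : ℤˣ) {s r : D} (h : Commute s r) : Commute (pj k s) r :=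
  ((Commute.one_left r).add_left (h.smul_left _)).smul_left _

theorem pj_map (σ : D ≃⋆ₐ[ℂ] D) (k l : ℤˣ) {s : D} (h : σ s = ((k : ℤ) : ℂ) • s) :
    σ (pj l s) = pj (k * l) s := by
  simp only [pj, map_smul, map_add, map_one, h, smul_smul, Units.val_mul, Int.cast_mul]
  rw [mul_comm]

theorem comm_star {z r : D} (h1 : star z * z = 1) (h2 : z * star z = 1) (h : Commute z r) :
    Commute (star z) r := by
  change star z * r = r * star z
  calc star z * r = star z * r * (z * star z) := by rw [h2, mul_one]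
    _ = star z * (r * z) * star z := by simp only [mul_assoc]
    _ = star z * z * r * star z := by rw [← h.eq]; simp only [mul_assoc]
    _ = r * star z := by rw [h1, one_mul]

/-- the odd symmetry -/
noncomputable def sym (z X Y : D) : D :=
  z * ((2 : ℂ)⁻¹ • (X - Complex.I • Y)) + star z * ((2 : ℂ)⁻¹ • (X + Complex.I • Y))

theorem sym_comm {z X Y r : D} (h1 : star z * z = 1) (h2 : z * star z = 1) (hz : Commute z r)
    (hX : Commute X r) (hY : Commute Y r) : Commute (sym z X Y) r :=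
  (hz.mul_left ((hX.sub_left (hY.smul_left _)).smul_left _)).add_left
    ((comm_star h1 h2 hz).mul_left ((hX.add_left (hY.smul_left _)).smul_left _))

theorem sym_star {z X Y : D} (h1 : star z * z = 1) (h2 : z * star z = 1) (hX : star X = X)
    (hY : star Y = Y) (zX : Commute z X) (zY : Commute z Y) : star (sym z X Y) = sym z X Y := by
  have a1 := (comm_star h1 h2 zX).eq
  have a2 := (comm_star h1 h2 zY).eq
  simp only [sym, star_add, star_mul, star_smul, star_sub, star_star, hX, hY, smul_mul_assoc,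
    mul_smul_comm, sub_mul, add_mul, mul_sub, mul_add, a1, a2, zX.eq, zY.eq]
  simp
  module

theorem sym_sq {z X Y : D} (h1 : star z * z = 1) (h2 : z * star z = 1) (hX : X * X = 1)
    (hY : Y * Y = 1) (hXY : X * Y = -(Y * X)) (zX : Commute z X) (zY : Commute z Y) :
    sym z X Y * sym z X Y = 1 := by
  set W : D := (2 : ℂ)⁻¹ • (X + Complex.I • Y) with hW
  set W' : D := (2 : ℂ)⁻¹ • (X - Complex.I • Y) with hW'
  have b1 : Commute z W := (zX.add_right (zY.smul_right _)).smul_right _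
  have b2 : Commute z W' := (zX.sub_right (zY.smul_right _)).smul_right _
  have b3 := comm_star h1 h2 b1
  have b4 := comm_star h1 h2 b2
  have hI : Complex.I * Complex.I = -1 := Complex.I_mul_I
  have c1 : W * W = 0 := by
    simp only [hW, smul_mul_assoc, mul_smul_comm, add_mul, mul_add, hX, hY, hXY, smul_smul]
    match_scalars <;> ring_nf <;> simp
  have c2 : W' * W' = 0 := by
    simp only [hW', smul_mul_assoc, mul_smul_comm, sub_mul, mul_sub, hX, hY, hXY, smul_smul]
    match_scalars <;> ring_nf <;> simp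
  have c3 : W' * W + W * W' = 1 := by
    simp only [hW, hW', smul_mul_assoc, mul_smul_comm, sub_mul, mul_sub, add_mul, mul_add, hX, hY,
      hXY, smul_smul]
    match_scalars <;> ring_nf <;> simp <;> norm_num
  change (z * W' + star z * W) * (z * W' + star z * W) = 1
  have d1 : z * W' * (z * W') = z * z * (W' * W') := by
    rw [mul_assoc, ← mul_assoc W', ← b2.eq]; simp only [mul_assoc]
  have d2 : z * W' * (star z * W) = z * star z * (W' * W) := by
    rw [mul_assoc, ← mul_assoc W', ← b4.eq]; simp only [mul_assoc]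
  have d3 : star z * W * (z * W') = star z * z * (W * W') := by
    rw [mul_assoc, ← mul_assoc W, ← b1.eq]; simp only [mul_assoc]
  have d4 : star z * W * (star z * W) = star z * star z * (W * W) := by
    rw [mul_assoc, ← mul_assoc W, ← b3.eq]; simp only [mul_assoc]
  rw [add_mul, mul_add, mul_add, d1, d2, d3, d4, c1, c2, h1, h2]
  simpa using c3

end

section
variable {G : Type} [Group G] (κ : Coc G)

theorem rokhlin_of (ω : Chr (ℤˣ × ℤˣ) G) (S : StarSubalgebra ℂ (B G)) (hS : S = Al κ)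
    (h : ∀ Φ : Finset G, ∃ s ∈ Al κ, ∃ t ∈ Al κ, star s = s ∧ star t = t ∧ s * s = 1 ∧ t * t = 1 ∧
      Commute s t ∧ (∀ g ∈ Φ, Commute s (u κ g) ∧ Commute t (u κ g)) ∧
      ∀ k, ad ω k s = ((k.1 : ℤ) : ℂ) • s ∧ ad ω k t = ((k.2 : ℤ) : ℂ) • t) :
    Rokhlin (act κ ω S hS) := by
  classical
  subst hS
  intro F ε hε
  choose f hf using fun a : Al κ => dense κ a.2 (half_pos hε)
  obtain ⟨s, hs, t, ht, s1, t1, s2, t2, st, hc, ha⟩ := h (F.biUnion fun a => (f a).support)
  let s' : Al κ := ⟨s, hs⟩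
  let t' : Al κ := ⟨t, ht⟩
  have s1' : star s' = s' := Subtype.ext s1
  have t1' : star t' = t' := Subtype.ext t1
  have s2' : s' * s' = 1 := Subtype.ext s2
  have t2' : t' * t' = 1 := Subtype.ext t2
  have st' : Commute s' t' := Subtype.ext st
  have cc : ∀ k l, Commute (pj k s') (pj l t') := fun k l =>
    pj_comm k (pj_comm l st'.symm).symm
  have hp : ∀ k : ℤˣ × ℤˣ, IsStarProjection (pj k.1 s' * pj k.2 t') := fun k =>
    (pj_proj k.1 s1' s2').mul (pj_proj k.2 t1' t2') (cc _ _)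
  refine ⟨fun k => pj k.1 s' * pj k.2 t', ⟨hp, ?_, ?_, ?_⟩, ?_⟩
  · intro k l hkl
    have e : pj k.1 s' * pj k.2 t' * (pj l.1 s' * pj l.2 t') =
        (pj k.1 s' * pj l.1 s') * (pj k.2 t' * pj l.2 t') := by
      rw [mul_assoc, ← mul_assoc (pj k.2 t'), ← (cc l.1 k.2).eq]; simp only [mul_assoc]
    change pj k.1 s' * pj k.2 t' * (pj l.1 s' * pj l.2 t') = 0
    rw [e]
    by_cases h1 : k.1 = l.1
    · rw [pj_orth (fun h2 => hkl (Prod.ext h1 h2)) t2', mul_zero]
    · rw [pj_orth h1 s2', zero_mul]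
  · intro k l
    have a1 : act κ ω _ rfl k s' = ((k.1 : ℤ) : ℂ) • s' := Subtype.ext (ha k).1
    have a2 : act κ ω _ rfl k t' = ((k.2 : ℤ) : ℂ) • t' := Subtype.ext (ha k).2
    simp only [map_mul, pj_map _ _ _ a1, pj_map _ _ _ a2, Prod.fst_mul, Prod.snd_mul, sub_self,
      norm_zero, hε]
  · intro k a haF
    let y : Al κ := ⟨L κ (f a), L_mem κ _⟩
    have hy : ∀ r : Al κ, (∀ g ∈ (f a).support, Commute (r : B G) (u κ g)) → Commute r y := by
      intro r hr
      apply Subtype.ext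
      change Commute (r : B G) (L κ (f a))
      rw [L_apply]
      exact Commute.sum_right _ _ _ fun g hg => (hr g hg).smul_right _
    have c1 : Commute s' y := hy s' fun g hg =>
      (hc g (Finset.mem_biUnion.2 ⟨a, haF, hg⟩)).1
    have c2 : Commute t' y := hy t' fun g hg =>
      (hc g (Finset.mem_biUnion.2 ⟨a, haF, hg⟩)).2
    have c3 : Commute (pj k.1 s' * pj k.2 t') y := (pj_comm _ c1).mul_left (pj_comm _ c2)
    set e := pj k.1 s' * pj k.2 t' with he
    have hn : ‖e‖ ≤ 1 := by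
      have : IsStarProjection (e : B G) :=
        ⟨congrArg Subtype.val (hp k).isIdempotentElem.eq,
          congrArg Subtype.val (hp k).isSelfAdjoint.star_eq⟩
      exact this.norm_le
    have e1 : e * a - a * e = e * (a - y) - (a - y) * e := by
      rw [mul_sub, sub_mul, c3.eq]; abel
    have hd : ‖a - y‖ < ε / 2 := hf a
    change ‖e * a - a * e‖ < ε
    rw [e1]
    have n1 : ‖e * (a - y)‖ ≤ ‖a - y‖ :=
      (norm_mul_le _ _).trans (mul_le_of_le_one_left (norm_nonneg _) hn)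
    have n2 : ‖(a - y) * e‖ ≤ ‖a - y‖ :=
      (norm_mul_le _ _).trans (mul_le_of_le_one_right (norm_nonneg _) hn)
    have n3 := norm_sub_le (e * (a - y)) ((a - y) * e)
    linarith
  · rw [Fintype.sum_prod_type]
    simp only [← Finset.mul_sum, pj_sum, mul_one]

theorem comm_u {g h : G} (h1 : g * h = h * g) (h2 : κ.c g h = κ.c h g) :
    Commute (u κ g) (u κ h) := by
  change _ * _ = _ * _
  rw [u_mul, u_mul, h1, h2]

theorem anti_u {g h : G} (h1 : g * h = h * g) (h2 : κ.c g h = -κ.c h g) :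
    u κ g * u κ h = -(u κ h * u κ g) := by
  rw [u_mul, u_mul, h1, h2, neg_smul]

theorem sq_u {g : G} (h1 : g * g = 1) (h2 : κ.c g g = 1) : u κ g * u κ g = 1 := by
  rw [u_mul, h1, h2, u_one, one_smul]

theorem star_u_of_sq {g : G} (h : u κ g * u κ g = 1) : star (u κ g) = u κ g := by
  calc star (u κ g) = star (u κ g) * (u κ g * u κ g) := by rw [h, mul_one]
    _ = u κ g := by rw [← mul_assoc, star_u_mul, one_mul]

end

/-- the trivial cocycle -/
def triv (G : Type) [Group G] : Coc G where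
  c _ _ := 1
  norm_c _ _ := by simp
  one_left _ := rfl
  one_right _ := rfl
  assoc _ _ _ := rfl

theorem rokhlin_prod {G H : Type} [Group G] [Group H] (μ : Coc H) (ε : G →* ℤˣ) (ε' : H →* ℤˣ)
    (hH : ∀ g h : H, g * h = h * g)
    (h1 : ∀ Φ : Finset G, ∃ z, ε z = -1 ∧ ∀ g ∈ Φ, z * g = g * z)
    (h2 : ∀ Φ : Finset H, ∃ x y t : H, x * x = 1 ∧ y * y = 1 ∧ t * t = 1 ∧ μ.c x x = 1 ∧
      μ.c y y = 1 ∧ μ.c t t = 1 ∧ μ.c x y = -μ.c y x ∧ μ.c x t = μ.c t x ∧ μ.c y t = μ.c t y ∧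
      ε' x = 1 ∧ ε' y = 1 ∧ ε' t = -1 ∧
      ∀ g ∈ Φ, μ.c x g = μ.c g x ∧ μ.c y g = μ.c g y ∧ μ.c t g = μ.c g t)
    (S : StarSubalgebra ℂ (B (G × H))) (hS : S = Al ((triv G).prod μ)) :
    Rokhlin (act ((triv G).prod μ) ((sgn ε).prod (sgn ε')) S hS) := by
  classical
  apply rokhlin_of
  intro Φ
  obtain ⟨z, hz, hz'⟩ := h1 (Φ.image Prod.fst)
  obtain ⟨x, y, t, x1, y1, t1, x2, y2, t2, xy, xt, yt, ex, ey, et, hc⟩ := h2 (Φ.image Prod.snd)
  set κ := (triv G).prod μ with hκ
  have hcc : ∀ g h : G × H, κ.c g h = μ.c g.2 h.2 := fun g h => one_mul _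
  have X2 : u κ (1, x) * u κ (1, x) = 1 := sq_u κ (by simp [x1]) (by rw [hcc, x2])
  have Y2 : u κ (1, y) * u κ (1, y) = 1 := sq_u κ (by simp [y1]) (by rw [hcc, y2])
  have T2 : u κ (1, t) * u κ (1, t) = 1 := sq_u κ (by simp [t1]) (by rw [hcc, t2])
  have zc : ∀ h : H, Commute (u κ (z, 1)) (u κ (1, h)) := fun h =>
    comm_u κ (by simp) (by rw [hcc, hcc, μ.one_left, μ.one_right])
  have hc2 : ∀ (h : H) (g : G × H), μ.c h g.2 = μ.c g.2 h → Commute (u κ (1, h)) (u κ g) :=
    fun h g e => comm_u κ (Prod.ext (by simp) (hH _ _)) (by rw [hcc, hcc, e])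
  have z1 := star_u_mul κ (z, 1)
  have z2 := mul_star_u κ (z, 1)
  refine ⟨sym (u κ (z, 1)) (u κ (1, x)) (u κ (1, y)), ?_, u κ (1, t), u_mem _ _,
    sym_star z1 z2 (star_u_of_sq κ X2) (star_u_of_sq κ Y2) (zc x) (zc y), star_u_of_sq κ T2,
    sym_sq z1 z2 X2 Y2 (anti_u κ (Prod.ext (by simp) (hH _ _)) (by rw [hcc, hcc, xy])) (zc x) (zc y),
    T2, sym_comm z1 z2 (zc t) (hc2 x _ xt) (hc2 y _ yt), fun g hg => ?_, fun k => ⟨?_, ?_⟩⟩
  · exact add_mem (mul_mem (u_mem _ _) ((Al κ).smul_mem (sub_mem (u_mem _ _)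
      ((Al κ).smul_mem (u_mem _ _) _)) _)) (mul_mem (star_mem (u_mem _ _)) ((Al κ).smul_mem
      (add_mem (u_mem _ _) ((Al κ).smul_mem (u_mem _ _) _)) _))
  · obtain ⟨c1, c2, c3⟩ := hc g.2 (Finset.mem_image_of_mem _ hg)
    refine ⟨sym_comm z1 z2 (comm_u κ (Prod.ext (hz' _ (Finset.mem_image_of_mem _ hg)) (by simp))
      (by rw [hcc, hcc, μ.one_left, μ.one_right])) (hc2 x g c1) (hc2 y g c2), hc2 t g c3⟩
  · have a1 : ((sgn ε).prod (sgn ε')).χ k (z, 1) = ((k.1 : ℤ) : ℂ) := by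
      change (sgn ε).χ k.1 z * (sgn ε').χ k.2 1 = _
      rw [sgn_odd ε hz, sgn_even ε' (map_one _), mul_one]
    have a2 : ∀ h, ε' h = 1 → ((sgn ε).prod (sgn ε')).χ k (1, h) = 1 := by
      intro h hh
      change (sgn ε).χ k.1 1 * (sgn ε').χ k.2 h = _
      rw [sgn_even ε' hh, sgn_even ε (map_one _), mul_one]
    simp only [sym, map_add, map_sub, map_smul, ad_mul, ad_star, ad_u, a1, a2 x ex, a2 y ey,
      one_smul, star_smul, smul_mul_assoc, smul_add]
    simp
  · rw [ad_u]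
    congr 1
    change (sgn ε).χ k.1 1 * (sgn ε').χ k.2 t = _
    rw [sgn_odd ε' et, sgn_even ε (map_one _), one_mul]

theorem Rokhlin.tracial {K D : Type} [Group K] [Fintype K] [NormedRing D] [StarRing D]
    [Algebra ℂ D] {σ : K →* (D ≃⋆ₐ[ℂ] D)} (h : Rokhlin σ) : TracialRokhlin σ := by
  intro F ε hε x _ _
  obtain ⟨e, he, hs⟩ := h F ε hε
  refine ⟨e, he, 0, 0, .zero _, subset_closure ⟨0, by simp⟩, by simp [hs], by simp⟩

end Pool.Agent.H506Z.TP
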