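import Pool.Agent.H506Z.TP4

/-! Almost central projections have trace near `0` or `1`. -/

set_option autoImplicit false
set_option linter.unusedSectionVars false
set_option linter.deprecated false

namespace Pool.Agent.H506Z.TP

open Pool.Agent.H812R3.KP
open scoped InnerProductSpace ComplexConjugate Real

theorem cut_pos {X : Type} {S : Set X} (ξ : L2 X) {x : X} (h : x ∈ S) : (cut S ξ) x = ξ x := by
  rw [cut_apply, if_pos h]

theorem cut_neg {X : Type} {S : Set X} (ξ : L2 X) {x : X} (h : x ∉ S) : (cut S ξ) x = 0 := by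
  rw [cut_apply, if_neg h]

theorem norm_perm {X : Type} (σ : Equiv.Perm X) (ξ : L2 X) : ‖perm σ ξ‖ = ‖ξ‖ := by
  have h : ‖perm σ ξ‖ ^ 2 = ‖ξ‖ ^ 2 := by
    rw [norm_sq_eq, norm_sq_eq]
    exact σ.symm.tsum_eq (fun x => ‖ξ x‖ ^ 2)
  exact (sq_eq_sq₀ (norm_nonneg _) (norm_nonneg _)).1 h

theorem proj_apply_le {X : Type} {p : B X} (hp : IsStarProjection p) (ξ : L2 X) : ‖p ξ‖ ≤ ‖ξ‖ :=
  (p.le_opNorm ξ).trans (mul_le_of_le_one_left (norm_nonneg _) hp.norm_le)

theorem norm_cut_perm {X : Type} (σ : Equiv.Perm X) (T : Set X) (ξ : L2 X) :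
    ‖cut (σ ⁻¹' T) ξ‖ = ‖cut T (perm σ ξ)‖ := by
  rw [← norm_perm σ]
  congr 1
  ext x
  rw [perm_apply]
  by_cases h : x ∈ T
  · rw [cut_pos _ h, cut_pos _ (by simpa using h), perm_apply]
  · rw [cut_neg _ h, cut_neg _ (by simpa using h)]

theorem cut_perm_close {X : Type} (σ : Equiv.Perm X) (T : Set X) (ξ : L2 X) {ε : ℝ}
    (h : ‖perm σ ξ - ξ‖ ≤ ε) : |‖cut (σ ⁻¹' T) ξ‖ - ‖cut T ξ‖| ≤ ε := by
  rw [norm_cut_perm]
  refine (abs_norm_sub_norm_le _ _).trans ?_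
  rw [← map_sub]
  exact (proj_apply_le (cut_proj T) _).trans h

theorem gap {X : Type} (σ τ : Equiv.Perm X) (W T : Set X) (h1 : ∀ x ∈ W, x ∈ T ∨ σ x ∈ T)
    (h2 : ∀ x ∈ T, x ∈ W) (h3 : ∀ x, τ x ∈ T → x ∈ W) (h4 : ∀ x, τ⁻¹ x ∈ T → x ∈ W)
    (h5 : ∀ x ∈ T, τ x ∉ T) (h6 : ∀ x ∈ T, τ⁻¹ x ∉ T) (h7 : ∀ x, τ x ∈ T → τ⁻¹ x ∉ T)
    (ξ : L2 X) {ε : ℝ} (hσ : ‖perm σ ξ - ξ‖ ≤ ε) (hτ : ‖perm τ ξ - ξ‖ ≤ ε) :
    ‖cut W ξ‖ ≤ 10 * ε := by
  have hε : 0 ≤ ε := (norm_nonneg _).trans hσ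
  have hτ' : ‖perm τ⁻¹ ξ - ξ‖ ≤ ε := by
    rw [← norm_perm τ, map_sub, ← mul_apply_eq_comp, ← perm_mul, mul_inv_cancel, perm_one,
      norm_sub_rev]
    exact hτ
  have a1 := abs_le.1 (cut_perm_close σ T ξ hσ)
  have a2 := abs_le.1 (cut_perm_close τ T ξ hτ)
  have a3 := abs_le.1 (cut_perm_close τ⁻¹ T ξ hτ')
  have b1 : ‖cut W ξ‖ ^ 2 ≤ ‖cut T ξ‖ ^ 2 + ‖cut (σ ⁻¹' T) ξ‖ ^ 2 := by
    rw [norm_sq_eq, norm_sq_eq, norm_sq_eq, ← (summable_sq _).tsum_add (summable_sq _)]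
    refine (summable_sq _).tsum_le_tsum (fun x => ?_) ((summable_sq _).add (summable_sq _))
    by_cases c1 : x ∈ W
    · rw [cut_pos _ c1]
      rcases h1 x c1 with c2 | c2
      · rw [cut_pos _ c2]; exact le_add_of_nonneg_right (by positivity)
      · rw [cut_pos (S := σ ⁻¹' T) _ c2]; exact le_add_of_nonneg_left (by positivity)
    · rw [cut_neg _ c1, norm_zero, zero_pow two_ne_zero]; positivity
  have b2 : ‖cut T ξ‖ ^ 2 + ‖cut (τ ⁻¹' T) ξ‖ ^ 2 + ‖cut ((τ⁻¹ : Equiv.Perm X) ⁻¹' T) ξ‖ ^ 2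
      ≤ ‖cut W ξ‖ ^ 2 := by
    rw [norm_sq_eq, norm_sq_eq, norm_sq_eq, norm_sq_eq, ← (summable_sq _).tsum_add (summable_sq _),
      ← ((summable_sq _).add (summable_sq _)).tsum_add (summable_sq _)]
    refine Summable.tsum_le_tsum (fun x => ?_)
      (((summable_sq _).add (summable_sq _)).add (summable_sq _)) (summable_sq _)
    by_cases c2 : x ∈ T
    · rw [cut_pos _ c2, cut_neg (S := τ ⁻¹' T) _ (h5 x c2),
        cut_neg (S := (τ⁻¹ : Equiv.Perm X) ⁻¹' T) _ (h6 x c2), cut_pos _ (h2 x c2)]; simp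
    · by_cases c3 : τ x ∈ T
      · rw [cut_neg _ c2, cut_pos (S := τ ⁻¹' T) _ c3,
          cut_neg (S := (τ⁻¹ : Equiv.Perm X) ⁻¹' T) _ (h7 x c3), cut_pos _ (h3 x c3)]; simp
      · by_cases c4 : τ⁻¹ x ∈ T
        · rw [cut_neg _ c2, cut_neg (S := τ ⁻¹' T) _ c3,
            cut_pos (S := (τ⁻¹ : Equiv.Perm X) ⁻¹' T) _ c4, cut_pos _ (h4 x c4)]; simp
        · rw [cut_neg _ c2, cut_neg (S := τ ⁻¹' T) _ c3,
            cut_neg (S := (τ⁻¹ : Equiv.Perm X) ⁻¹' T) _ c4]; simp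
  set s := ‖cut W ξ‖
  set t := ‖cut T ξ‖
  set t1 := ‖cut (σ ⁻¹' T) ξ‖
  set t2 := ‖cut (τ ⁻¹' T) ξ‖
  set t3 := ‖cut ((τ⁻¹ : Equiv.Perm X) ⁻¹' T) ξ‖
  have s0 : 0 ≤ s := norm_nonneg _
  have t0 : 0 ≤ t := norm_nonneg _
  have t10 : 0 ≤ t1 := norm_nonneg _
  have c1 : t1 ^ 2 ≤ (t + ε) ^ 2 := by gcongr; linarith
  have c2 : t ≤ 6 * ε := by
    by_contra hc
    push Not at hc
    have d1 : (t - ε) ^ 2 ≤ t2 ^ 2 := by gcongr <;> linarith
    have d2 : (t - ε) ^ 2 ≤ t3 ^ 2 := by gcongr <;> linarith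
    nlinarith
  have c3 : s ^ 2 ≤ (10 * ε) ^ 2 := by nlinarith
  exact (sq_le_sq₀ s0 (by positivity)).1 c3

section
variable {G : Type} [Group G]

/-- left translation -/
noncomputable abbrev lam (g : G) : B G := u (triv G) g

theorem lam_dl (g y : G) : lam g (dl y) = dl (g * y) := by
  rw [u_dl]; exact one_smul _ _

theorem lam_mul (g h : G) : lam (g * h) = lam g * lam h := by
  rw [u_mul]; exact (one_smul _ _).symm

theorem norm_lam (g : G) (ξ : L2 G) : ‖lam g ξ‖ = ‖ξ‖ :=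
  ContinuousLinearMap.norm_map_of_mem_unitary (u_unitary _ g) ξ

/-- conjugation -/
def cj (g : G) : Equiv.Perm G := (MulAut.conj g).toEquiv

theorem cj_apply (g x : G) : cj g x = g * x * g⁻¹ := rfl

theorem cj_inv_apply (g x : G) : (cj g)⁻¹ x = g⁻¹ * x * g := rfl

theorem cj_close {e : B G} (he : e ∈ Al (triv G)) (g : G) (η : L2 G) (hη : perm (cj g) η = η) :
    ‖perm (cj g) (e η) - e η‖ ≤ ‖e * lam g - lam g * e‖ * ‖η‖ := by
  have h1 : perm (cj g) = lam g * perm (Equiv.mulRight g⁻¹) := by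
    apply ext_dl
    intro y
    rw [mul_apply_eq_comp, perm_dl, perm_dl, lam_dl, cj_apply, mul_assoc]
    rfl
  have h2 : perm (Equiv.mulRight g⁻¹) * e = e * perm (Equiv.mulRight g⁻¹) := by
    refine al_comm _ (fun h => ?_) he
    apply ext_dl
    intro y
    rw [mul_apply_eq_comp, mul_apply_eq_comp, lam_dl, perm_dl, perm_dl, lam_dl]
    simp [mul_assoc]
  have h3 : perm (cj g) (e η) - e η =
      -((e * lam g - lam g * e) (perm (Equiv.mulRight g⁻¹) η)) := by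
    rw [sub_apply, neg_sub]
    congr 1
    · rw [h1, mul_apply_eq_comp, mul_apply_eq_comp, ← mul_apply_eq_comp (perm _) e, h2]
      rfl
    · conv_lhs => rw [← hη, h1]
      rfl
  rw [h3, norm_neg]
  refine (ContinuousLinearMap.le_opNorm _ _).trans ?_
  rw [norm_perm]

/-- the character -/
noncomputable def ch (θ : ℝ) (k : ℤ) : ℂ := Complex.exp ((k : ℂ) * Complex.I * θ)

theorem ch_add (θ : ℝ) (k l : ℤ) : ch θ (k + l) = ch θ k * ch θ l := by
  rw [ch, ch, ch, ← Complex.exp_add]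
  congr 1
  push_cast
  ring

theorem ch_zero (θ : ℝ) : ch θ 0 = 1 := by simp [ch]

theorem norm_ch (θ : ℝ) (k : ℤ) : ‖ch θ k‖ = 1 := by
  have : (k : ℂ) * Complex.I * θ = ((k * θ : ℝ) : ℂ) * Complex.I := by push_cast; ring
  rw [ch, this, Complex.norm_exp_ofReal_mul_I]

theorem int_ch (k : ℤ) : ∫ θ in (0 : ℝ)..(2 * π), ch θ k = if k = 0 then 2 * π else 0 := by
  split_ifs with h
  · subst h
    simp [ch_zero]
  · have hk : (k : ℂ) * Complex.I ≠ 0 := mul_ne_zero (by exact_mod_cast h) Complex.I_ne_zero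
    simp only [ch]
    rw [integral_exp_mul_complex hk]
    have : (k : ℂ) * Complex.I * ((2 * π : ℝ) : ℂ) = k * (2 * π * Complex.I) := by
      push_cast; ring
    rw [this, Complex.exp_int_mul_two_pi_mul_I]
    simp

/-- test vectors -/
noncomputable def tv (z : G) (N : ℕ) (θ : ℝ) : L2 G :=
  ∑ j ∈ Finset.range N, ch θ (-(j : ℤ)) • dl (z ^ j)

theorem norm_tv {z : G} (hz : ∀ k : ℤ, z ^ k = 1 → k = 0) (N : ℕ) (θ : ℝ) :
    ‖tv z N θ‖ ^ 2 = N := by
  classical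
  have ho : Orthonormal ℂ (fun j : ℕ => (dl (z ^ j) : L2 G)) := by
    rw [orthonormal_iff_ite]
    intro i j
    rw [inner_dl, dl_apply]
    have : z ^ i = z ^ j ↔ i = j := by
      refine ⟨fun h => ?_, fun h => by rw [h]⟩
      have := hz ((i : ℤ) - j) (by rw [zpow_sub, zpow_natCast, zpow_natCast, h, mul_inv_cancel])
      omega
    simp only [this]
  have h := ho.inner_sum (fun j : ℕ => ch θ (-(j : ℤ))) (fun j : ℕ => ch θ (-(j : ℤ)))
    (Finset.range N)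
  simp only [conj_mul_of_norm (norm_ch _ _), Finset.sum_const, Finset.card_range] at h
  rw [inner_self_eq_norm_sq_to_K] at h
  have h' : ((‖tv z N θ‖ ^ 2 : ℝ) : ℂ) = ((N : ℝ) : ℂ) := by
    rw [tv]
    simpa using h
  exact_mod_cast h'

theorem tv_one (z : G) (N : ℕ) (θ : ℝ) : ‖lam z (tv z N θ) - ch θ 1 • tv z N θ‖ ≤ 2 := by
  let v : ℕ → L2 G := fun j => ch θ (-(j : ℤ)) • dl (z ^ j)
  have h1 : ∀ j, lam z (v j) = ch θ 1 • v (j + 1) := by
    intro j
    simp only [v]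
    rw [map_smul, lam_dl, smul_smul, ← ch_add, pow_succ']
    congr 2
    push_cast
    ring
  have h2 : lam z (tv z N θ) - ch θ 1 • tv z N θ = ch θ 1 • (v N - v 0) := by
    change lam z (∑ j ∈ Finset.range N, v j) - ch θ 1 • ∑ j ∈ Finset.range N, v j = _
    rw [map_sum, ← Finset.sum_range_sub, Finset.sum_sub_distrib, smul_sub, Finset.smul_sum,
      Finset.smul_sum (s := Finset.range N) (f := fun j => v (j + 1))]
    simp only [h1]
  have h3 : ∀ j, ‖v j‖ = 1 := fun j => by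
    simp only [v]
    rw [norm_smul, norm_ch, norm_dl, one_mul]
  rw [h2, norm_smul, norm_ch, one_mul]
  refine (norm_sub_le _ _).trans ?_
  rw [h3, h3]
  norm_num

theorem tv_zpow (z : G) (k : ℤ) :
    ∃ C : ℝ, ∀ N θ, ‖lam (z ^ k) (tv z N θ) - ch θ k • tv z N θ‖ ≤ C := by
  induction k using Int.induction_on with
  | zero => exact ⟨0, fun N θ => by simp [ch_zero, u_one]⟩
  | succ k ih =>
    obtain ⟨C, hC⟩ := ih
    refine ⟨2 + C, fun N θ => ?_⟩
    have e : lam (z ^ ((k : ℤ) + 1)) (tv z N θ) - ch θ (k + 1) • tv z N θ =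
        lam (z ^ (k : ℤ)) (lam z (tv z N θ) - ch θ 1 • tv z N θ) +
        ch θ 1 • (lam (z ^ (k : ℤ)) (tv z N θ) - ch θ k • tv z N θ) := by
      rw [zpow_add_one, lam_mul, mul_apply_eq_comp, map_sub, map_smul, smul_sub, smul_smul, ch_add,
        mul_comm]
      abel
    rw [e]
    refine (norm_add_le _ _).trans (add_le_add ?_ ?_)
    · rw [norm_lam]; exact tv_one z N θ
    · rw [norm_smul, norm_ch, one_mul]; exact hC N θ
  | pred k ih =>
    obtain ⟨C, hC⟩ := ih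
    refine ⟨2 + C, fun N θ => ?_⟩
    have e : lam z (lam (z ^ (-(k : ℤ) - 1)) (tv z N θ) - ch θ (-k - 1) • tv z N θ) =
        -(ch θ (-k - 1) • (lam z (tv z N θ) - ch θ 1 • tv z N θ)) +
        (lam (z ^ (-(k : ℤ))) (tv z N θ) - ch θ (-k) • tv z N θ) := by
      rw [map_sub, map_smul, ← mul_apply_eq_comp, ← lam_mul, ← zpow_one_add, smul_sub, smul_smul,
        ← ch_add]
      have : (1 : ℤ) + (-k - 1) = -k := by ring
      rw [this, sub_add_cancel]
      abel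
    rw [← norm_lam z, e]
    refine (norm_add_le _ _).trans (add_le_add ?_ (hC N θ))
    rw [norm_neg, norm_smul, norm_ch, one_mul]; exact tv_one z N θ

theorem cut_tv (z : G) (N : ℕ) (θ : ℝ) :
    cut (Subgroup.zpowers z : Set G) (tv z N θ) = tv z N θ := by
  rw [tv, map_sum]
  refine Finset.sum_congr rfl fun j _ => ?_
  rw [map_smul, cut_dl, if_pos (by exact Subgroup.npow_mem_zpowers z j)]

theorem cut_lam_tv (z : G) (N : ℕ) (θ : ℝ) {g : G} (hg : g ∉ Subgroup.zpowers z) :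
    cut (Subgroup.zpowers z : Set G) (lam g (tv z N θ)) = 0 := by
  rw [tv, map_sum, map_sum]
  refine Finset.sum_eq_zero fun j _ => ?_
  rw [map_smul, map_smul, lam_dl, cut_dl, if_neg, smul_zero]
  intro h
  exact hg ((Subgroup.mul_mem_cancel_right _ (Subgroup.npow_mem_zpowers z j)).1 h)

theorem cj_tv {z g : G} (h : g * z = z * g) (N : ℕ) (θ : ℝ) :
    perm (cj g) (tv z N θ) = tv z N θ := by
  rw [tv, map_sum]
  refine Finset.sum_congr rfl fun j _ => ?_
  have : Commute g (z ^ j) := Commute.pow_right h j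
  rw [map_smul, perm_dl, cj_apply, this.eq, mul_inv_cancel_right]

theorem symbol {z : G} (hz : ∀ k : ℤ, z ^ k = 1 → k = 0) (f : G →₀ ℂ) :
    ∃ (φ : ℝ → ℂ) (C : ℝ), Continuous φ ∧ ∫ θ in (0 : ℝ)..(2 * π), φ θ = 2 * π * f 1 ∧
      ∀ N θ, ‖cut (Subgroup.zpowers z : Set G) (L (triv G) f (tv z N θ)) - φ θ • tv z N θ‖ ≤ C := by
  classical
  induction f using Finsupp.induction_linear with
  | zero => exact ⟨0, 0, continuous_const, by simp, fun N θ => by simp⟩
  | add f g hf hg =>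
    obtain ⟨φ, C, a1, a2, a3⟩ := hf
    obtain ⟨ψ, D, b1, b2, b3⟩ := hg
    refine ⟨fun θ => φ θ + ψ θ, C + D, a1.add b1, ?_, fun N θ => ?_⟩
    · rw [intervalIntegral.integral_add (a1.intervalIntegrable _ _) (b1.intervalIntegrable _ _),
        a2, b2, Finsupp.add_apply, mul_add]
    · rw [map_add, add_apply, map_add, add_smul, add_sub_add_comm]
      exact (norm_add_le _ _).trans (add_le_add (a3 N θ) (b3 N θ))
  | single g c =>
    have hL : L (triv G) (Finsupp.single g c) = c • lam g := by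
      rw [L, Finsupp.linearCombination_single]
    by_cases hg : g ∈ Subgroup.zpowers z
    · obtain ⟨k, rfl⟩ := Subgroup.mem_zpowers_iff.1 hg
      obtain ⟨C, hC⟩ := tv_zpow z k
      refine ⟨fun θ => c * ch θ k, ‖c‖ * C, ?_, ?_, fun N θ => ?_⟩
      · unfold ch; fun_prop
      · rw [intervalIntegral.integral_const_mul, int_ch, Finsupp.single_apply]
        by_cases hk : k = 0
        · subst hk; simp [mul_comm]
        · rw [if_neg hk, if_neg (fun h => hk (hz k h))]; simp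
      · rw [hL, smul_apply, map_smul, mul_smul, ← smul_sub, norm_smul]
        gcongr
        have e := proj_apply_le (cut_proj (Subgroup.zpowers z : Set G))
          (lam (z ^ k) (tv z N θ) - ch θ k • tv z N θ)
        rw [map_sub, map_smul, cut_tv] at e
        exact e.trans (hC N θ)
    · refine ⟨0, 0, continuous_const, ?_, fun N θ => ?_⟩
      · rw [Finsupp.single_apply, if_neg]
        · simp
        · rintro rfl; exact hg (one_mem _)
      · rw [hL, smul_apply, map_smul, cut_lam_tv z N θ hg]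
        simp

end

end Pool.Agent.H506Z.TP
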