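import Pool.Agent.H506Z.TP5

/-! Failure of the tracial Rokhlin property. -/

set_option autoImplicit false
set_option linter.unusedSectionVars false
set_option linter.deprecated false

namespace Pool.Agent.H506Z.TP

open Pool.Agent.H812R3.KP
open scoped InnerProductSpace ComplexConjugate Real

theorem dichot {φ : ℝ → ℂ} (hφ : Continuous φ) {r : ℝ} (hr : r < 1 / 2)
    (h : ∀ θ, ‖φ θ‖ ≤ r ∨ ‖1 - φ θ‖ ≤ r) : (∀ θ, ‖φ θ‖ ≤ r) ∨ ∀ θ, ‖1 - φ θ‖ ≤ r := by
  by_contra hc
  push Not at hc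
  obtain ⟨⟨a, ha⟩, b, hb⟩ := hc
  have h1 : ‖1 - φ a‖ ≤ r := (h a).resolve_left (not_le.2 ha)
  have h2 : ‖φ b‖ ≤ r := (h b).resolve_right (not_le.2 hb)
  have h3 : ∀ θ, 1 ≤ ‖1 - φ θ‖ + ‖φ θ‖ := fun θ => by
    have := norm_add_le (1 - φ θ) (φ θ)
    rwa [sub_add_cancel, norm_one] at this
  have h4 : (1 / 2 : ℝ) ∈ Set.Icc ‖φ b‖ ‖φ a‖ := ⟨by linarith, by linarith [h3 a]⟩
  obtain ⟨c, hc⟩ := intermediate_value_univ b a hφ.norm h4
  have hc' : ‖φ c‖ = 1 / 2 := hc
  rcases h c with h5 | h5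
  · linarith
  · linarith [h3 c]

theorem mean_le {φ : ℝ → ℂ} {c : ℂ} {r : ℝ} (hi : ∫ θ in (0 : ℝ)..(2 * π), φ θ = 2 * π * c)
    (h : ∀ θ, ‖φ θ‖ ≤ r) : ‖c‖ ≤ r := by
  have h1 := intervalIntegral.norm_integral_le_of_norm_le_const (a := 0) (b := 2 * π) (f := φ)
    (C := r) (fun x _ => h x)
  have hp : (0 : ℝ) < 2 * π := by positivity
  have h2 : ‖(2 * π : ℂ)‖ = 2 * π := by
    rw [norm_mul, Complex.norm_real, Real.norm_of_nonneg Real.pi_pos.le]; simp
  rw [hi, norm_mul, h2, sub_zero, abs_of_pos hp, mul_comm] at h1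
  exact le_of_mul_le_mul_right h1 hp

section
variable {G : Type} [Group G]

/-- the data of the spectral gap argument -/
structure Gap (z a b : G) (T : Set G) : Prop where
  hz : ∀ k : ℤ, z ^ k = 1 → k = 0
  ha : a * z = z * a
  hb : b * z = z * b
  h1 : ∀ x, x ∉ Subgroup.zpowers z → x ∈ T ∨ a * x * a⁻¹ ∈ T
  h2 : ∀ x ∈ T, x ∉ Subgroup.zpowers z
  h5 : ∀ x ∈ T, b * x * b⁻¹ ∉ T
  h6 : ∀ x ∈ T, b⁻¹ * x * b ∉ T
  h7 : ∀ x ∈ T, b⁻¹ * (b⁻¹ * x * b) * b ∉ T

theorem trace_dichot {z a b : G} {T : Set G} (hg : Gap z a b T) {e : B G}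
    (he : e ∈ Al (triv G)) (hp : IsStarProjection e) {ε : ℝ} (hε : 0 < ε) (hε' : ε < 1 / 100)
    (ha : ‖e * lam a - lam a * e‖ ≤ ε) (hb : ‖e * lam b - lam b * e‖ ≤ ε) :
    ‖tr e‖ ≤ 25 * ε ∨ ‖1 - tr e‖ ≤ 25 * ε := by
  obtain ⟨f, hf⟩ := dense _ he hε
  obtain ⟨φ, C, c1, c2, c3⟩ := symbol hg.hz f
  have hzb : ∀ x ∈ Subgroup.zpowers z, Commute b x := by
    intro x hx
    obtain ⟨k, rfl⟩ := Subgroup.mem_zpowers_iff.1 hx
    exact Commute.zpow_right hg.hb k
  have key : ∀ θ, ‖φ θ‖ ≤ 24 * ε ∨ ‖1 - φ θ‖ ≤ 24 * ε := by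
    intro θ
    obtain ⟨N, hN⟩ := exists_nat_gt (C ^ 2 / ε ^ 2)
    have hN0 : (0 : ℝ) < N := lt_of_le_of_lt (by positivity) hN
    set η := tv z N θ with hη
    have n2 : ‖η‖ ^ 2 = N := norm_tv hg.hz N θ
    have n0 : 0 < ‖η‖ := by
      rcases (norm_nonneg η).lt_or_eq with h | h
      · exact h
      · rw [← h] at n2; simp at n2; simp [← n2] at hN0
    have hC : C ≤ ε * ‖η‖ := by
      refine le_of_sq_le_sq ?_ (by positivity)
      rw [div_lt_iff₀ (by positivity)] at hN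
      rw [mul_pow, n2]
      linarith
    have g1 : ‖cut (Subgroup.zpowers z : Set G)ᶜ (e η)‖ ≤ 10 * (ε * ‖η‖) := by
      refine gap (cj a) (cj b) _ T hg.h1 hg.h2 ?_ ?_ hg.h5 hg.h6 ?_ _ ?_ ?_
      · intro x hx hx'
        rw [cj_apply, (hzb x hx').eq, mul_inv_cancel_right] at hx
        exact hg.h2 x hx hx'
      · intro x hx hx'
        rw [cj_inv_apply, mul_assoc, ← (hzb x hx').eq, inv_mul_cancel_left] at hx
        exact hg.h2 x hx hx'
      · intro x hx
        have := hg.h7 _ hx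
        rw [cj_apply] at this
        rw [cj_inv_apply]
        simpa [mul_assoc] using this
      · exact (cj_close he a η (cj_tv hg.ha N θ)).trans (by gcongr)
      · exact (cj_close he b η (cj_tv hg.hb N θ)).trans (by gcongr)
    have g2 : ‖cut (Subgroup.zpowers z : Set G) ((e - L (triv G) f) η)‖ ≤ ε * ‖η‖ :=
      (proj_apply_le (cut_proj _) _).trans ((ContinuousLinearMap.le_opNorm _ _).trans (by gcongr))
    have g3 : ‖e η - φ θ • η‖ ≤ 12 * (ε * ‖η‖) := by
      have e1 : e η - φ θ • η = cut (Subgroup.zpowers z : Set G)ᶜ (e η) +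
          cut (Subgroup.zpowers z : Set G) ((e - L (triv G) f) η) +
          (cut (Subgroup.zpowers z : Set G) (L (triv G) f η) - φ θ • η) := by
        have e2 : e η = cut (Subgroup.zpowers z : Set G) (e η) +
            cut (Subgroup.zpowers z : Set G)ᶜ (e η) := by
          rw [← add_apply, cut_add]; rfl
        rw [sub_apply, map_sub]
        nth_rewrite 1 [e2]
        abel
      rw [e1]
      have := c3 N θ
      rw [← hη] at this
      linarith [norm_add₃_le (a := cut (Subgroup.zpowers z : Set G)ᶜ (e η))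
        (b := cut (Subgroup.zpowers z : Set G) ((e - L (triv G) f) η))
        (c := cut (Subgroup.zpowers z : Set G) (L (triv G) f η) - φ θ • η)]
    have ee : e (e η) = e η := by rw [← mul_apply_eq_comp, hp.isIdempotentElem.eq]
    have g4 : ‖1 - φ θ‖ * ‖e η‖ ≤ 12 * (ε * ‖η‖) := by
      have := proj_apply_le hp (e η - φ θ • η)
      rw [map_sub, map_smul, ee] at this
      rw [← norm_smul, sub_smul, one_smul]
      exact this.trans g3
    have g5 : ‖φ θ‖ * ‖η - e η‖ ≤ 12 * (ε * ‖η‖) := by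
      have := proj_apply_le hp.one_sub (e η - φ θ • η)
      rw [← norm_smul, ← norm_neg]
      refine le_trans (le_of_eq ?_) (this.trans g3)
      congr 1
      change _ = e η - φ θ • η - e (e η - φ θ • η)
      rw [smul_sub, map_sub, map_smul, ee]
      abel
    have g6 : ‖η‖ ≤ ‖η - e η‖ + ‖e η‖ := by
      have := norm_add_le (η - e η) (e η)
      rwa [sub_add_cancel] at this
    by_contra hc
    push Not at hc
    obtain ⟨d1, d2⟩ := hc
    rcases le_total ‖η - e η‖ ‖e η‖ with h | h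
    · have : 24 * ε * ‖e η‖ < ‖1 - φ θ‖ * ‖e η‖ := by gcongr; linarith
      nlinarith
    · have : 24 * ε * ‖η - e η‖ < ‖φ θ‖ * ‖η - e η‖ := by gcongr; linarith
      nlinarith
  have h1 : ‖tr e - f 1‖ ≤ ε := by
    rw [← tr_L (triv G) f, ← map_sub]
    exact (norm_tr_le _).trans hf.le
  rcases dichot c1 (by linarith) key with h | h
  · left
    have := mean_le c2 h
    have h2 := norm_add_le (tr e - f 1) (f 1)
    rw [sub_add_cancel] at h2
    linarith
  · right
    have h3 : ∫ θ in (0 : ℝ)..(2 * π), (1 - φ θ) = 2 * π * (1 - f 1) := by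
      rw [intervalIntegral.integral_sub (continuous_const.intervalIntegrable _ _)
        (c1.intervalIntegrable _ _), c2]
      simp
      ring
    have := mean_le h3 h
    have h2 := norm_sub_le (1 - f 1) (tr e - f 1)
    rw [sub_sub_sub_cancel_right] at h2
    linarith

theorem exists_orth {D : Type} [CStarAlgebra D] (t : D →+ ℂ)
    (ht : ∀ b, t (star b * b) = 0 → b = 0) {h : D} (h1 : IsSelfAdjoint h) (h2 : t h = 0)
    (h3 : h ≠ 0) : ∃ x y : D, x ≠ 0 ∧ y ≠ 0 ∧ x * y = 0 := by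
  letI : PartialOrder D := CStarAlgebra.spectralOrder D
  haveI : StarOrderedRing D := CStarAlgebra.spectralOrderedRing D
  have e := CFC.posPart_sub_negPart h h1
  refine ⟨h⁺, h⁻, fun h0 => ?_, fun h0 => ?_, CFC.posPart_mul_negPart h⟩
  · obtain ⟨b, hb⟩ := CStarAlgebra.nonneg_iff_eq_star_mul_self.1 (CFC.negPart_nonneg h)
    rw [h0, zero_sub, hb] at e
    have : b = 0 := ht b (by rw [← e, map_neg, neg_eq_zero] at h2; exact h2)
    apply h3
    rw [← e, this]; simp
  · obtain ⟨b, hb⟩ := CStarAlgebra.nonneg_iff_eq_star_mul_self.1 (CFC.posPart_nonneg h)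
    rw [h0, sub_zero, hb] at e
    have : b = 0 := ht b (by rw [← e] at h2; exact h2)
    apply h3
    rw [← e, this]; simp

theorem not_tracial {z a b : G} {T : Set G} (hg : Gap z a b T) (ω : Chr ℤˣ G) :
    ¬ TracialRokhlin (act (triv G) ω _ rfl) := by
  classical
  intro H
  have hcl := isClosed_al (triv G)
  let t : Al (triv G) →+ ℂ := (tr : B G →L[ℂ] ℂ).toLinearMap.toAddMonoidHom.comp
    (Al (triv G)).subtype.toAlgHom.toRingHom.toAddMonoidHom
  have ht : ∀ a : Al (triv G), t a = tr (a : B G) := fun a => rfl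
  have htf : ∀ b, t (star b * b) = 0 → b = 0 := fun b hb =>
    Subtype.ext (faithful' _ b.2 hb)
  have htc : ∀ a b, t (a * b) = t (b * a) := fun a b => tr_comm _ a.2 b.2
  let lm : G → Al (triv G) := fun g => ⟨lam g, u_mem _ g⟩
  have hz1 : z ≠ 1 := fun h => one_ne_zero (hg.hz 1 (by simpa using h))
  have hz2 : z * z ≠ 1 := fun h => two_ne_zero (hg.hz 2 (by rw [← h]; exact zpow_two z))
  have hsl : star (lam z) = lam z⁻¹ := by
    rw [star_u]
    change conj (1 : ℂ) • _ = _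
    rw [map_one, one_smul]
  obtain ⟨x0, y0, hx0, hy0, hxy⟩ := exists_orth t htf (h := lm z + star (lm z))
    (IsSelfAdjoint.add_star_self _) (by
      rw [ht]
      change tr (lam z + star (lam z)) = 0
      rw [hsl, map_add, tr_u, tr_u, if_neg hz1, if_neg (by simpa using hz1), add_zero]) (by
      intro h
      have h1 : lam z + star (lam z) = 0 := congrArg Subtype.val h
      have h2 := congrArg (fun T => tr (T * lam z)) h1
      simp only [add_mul, star_u_mul, ← lam_mul, map_add, tr_u, if_neg hz2, tr_one] at h2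
      simp at h2)
  set y := y0 * star y0 with hy
  have hty : t y ≠ 0 := by
    rw [hy, htc]
    exact fun h => hy0 (htf _ h)
  set m : ℝ := ‖(y : B G) (dl 1)‖ with hm
  set c : ℝ := ‖t y‖ ^ 2 / (m ^ 2 + 1) with hc
  have hc0 : 0 < c := by positivity
  set ε : ℝ := min (1 / 200) (c / 200) with hε
  have hε0 : 0 < ε := by positivity
  have hε1 : ε ≤ 1 / 200 := min_le_left _ _
  have hε2 : ε ≤ c / 200 := min_le_right _ _
  obtain ⟨e, ⟨e1, e2, e3, e4⟩, p, v, p1, p2, v1, v2⟩ := H {lm a, lm b} ε hε0 (star x0 * x0)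
    ⟨x0, rfl⟩ (fun h => hx0 ((CStarRing.star_mul_self_eq_zero_iff x0).1 h))
  have coeP : ∀ q : Al (triv G), IsStarProjection q → IsStarProjection (q : B G) := fun q hq =>
    ⟨congrArg Subtype.val hq.isIdempotentElem.eq, congrArg Subtype.val hq.isSelfAdjoint.star_eq⟩
  have d : ∀ k, ‖t (e k)‖ ≤ 25 * ε ∨ ‖1 - t (e k)‖ ≤ 25 * ε := fun k =>
    trace_dichot hg (e k).2 (coeP _ (e1 k)) hε0 (by linarith) (e4 k (lm a) (by simp)).le
      (e4 k (lm b) (by simp)).le
  have f1 : ‖t (e 1) - t (e (-1))‖ ≤ ε := by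
    have h1 := e3 (-1) 1
    rw [mul_one] at h1
    have h2 : t (act (triv G) ω _ rfl (-1) (e 1)) = t (e 1) := tr_ad ω _ _
    rw [← h2, ← map_sub, ht]
    exact (norm_tr_le _).trans h1.le
  have hsum : ∑ k, e k = e 1 + e (-1) := by
    rw [show (Finset.univ : Finset ℤˣ) = {1, -1} from rfl, Finset.sum_pair (by decide)]
  have f2 : ‖t (e 1) + t (e (-1))‖ ≤ 1 := by
    rw [← map_add, ht]
    exact (norm_tr_le _).trans (coeP _ ((e1 1).add (e1 (-1)) (e2 1 (-1) (by decide)))).norm_le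
  have f3 : ‖t (e 1) + t (e (-1))‖ ≤ 51 * ε := by
    rcases d 1 with h | h
    · have h1 : t (e 1) + t (e (-1)) = t (e 1) + t (e 1) - (t (e 1) - t (e (-1))) := by ring
      rw [h1]
      linarith [norm_sub_le (t (e 1) + t (e 1)) (t (e 1) - t (e (-1))),
        norm_add_le (t (e 1)) (t (e 1))]
    · exfalso
      have h1 : (2 : ℂ) = (t (e 1) + t (e (-1))) + (t (e 1) - t (e (-1))) +
        ((1 - t (e 1)) + (1 - t (e 1))) := by ring
      have h2 : ‖(2 : ℂ)‖ = 2 := by simp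
      rw [h1] at h2
      linarith [norm_add₃_le (a := t (e 1) + t (e (-1))) (b := t (e 1) - t (e (-1)))
        (c := (1 - t (e 1)) + (1 - t (e 1))), norm_add_le (1 - t (e 1)) (1 - t (e 1))]
  have t1 : t 1 = 1 := tr_one
  have f4 : t (1 - p) = t (e 1) + t (e (-1)) := by
    rw [map_sub, ← v2, htc, v1, hsum, map_sub, map_add]
    ring
  have f5 : p * y = 0 := by
    have hcl2 : IsClosed {s : Al (triv G) | s * y = 0} :=
      isClosed_eq (continuous_id.mul continuous_const) continuous_const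
    refine hcl2.closure_subset_iff.2 ?_ p2
    rintro _ ⟨d, rfl⟩
    change star x0 * x0 * d * (star x0 * x0) * (y0 * star y0) = 0
    rw [mul_assoc, mul_assoc (star x0) x0 (y0 * star y0), ← mul_assoc x0 y0, hxy]
    simp
  have q1 := p1.one_sub
  have f6 : t y = ⟪((1 - p : Al (triv G)) : B G) (dl 1), (y : B G) (dl 1)⟫_ℂ := by
    rw [← tr_star_mul]
    change t y = t (star (1 - p) * y)
    rw [q1.isSelfAdjoint.star_eq, sub_mul, f5, one_mul, sub_zero]
  have f7 : t (1 - p) = ((‖((1 - p : Al (triv G)) : B G) (dl 1)‖ ^ 2 : ℝ) : ℂ) := by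
    rw [← tr_star_mul_self]
    change t (1 - p) = t (star (1 - p) * (1 - p))
    rw [q1.isSelfAdjoint.star_eq, q1.isIdempotentElem.eq]
  set w : ℝ := ‖((1 - p : Al (triv G)) : B G) (dl 1)‖ with hw
  have f8 : w ^ 2 ≤ 51 * ε := by
    rw [← f4, f7, Complex.norm_real, Real.norm_of_nonneg (by positivity)] at f3
    exact f3
  have f9 : ‖t y‖ ≤ w * m := by
    rw [f6]; exact norm_inner_le_norm _ _
  have f10 : ‖t y‖ ^ 2 ≤ w ^ 2 * m ^ 2 := by
    rw [← mul_pow]; gcongr
  have f11 : ‖t y‖ ^ 2 = c * (m ^ 2 + 1) := by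
    rw [hc]; field_simp
  have f12 : w ^ 2 * m ^ 2 ≤ 51 * ε * m ^ 2 := by gcongr
  nlinarith [sq_nonneg m]

end

end Pool.Agent.H506Z.TP
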