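import Pool.Agent.H506Z.TP6

/-! The group `F(S) ⋊ ℤ`. -/

set_option autoImplicit false
set_option linter.unusedSectionVars false
set_option linter.deprecated false

namespace Pool.Agent.H506Z.TP

open FreeGroup

section
variable {S : Type} [DecidableEq S]

/-- first letter -/
def hd (w : FreeGroup S) : Option (S × Bool) := w.toWord.head?

/-- a letter -/
def ltr (x : S × Bool) : FreeGroup S := FreeGroup.mk [x]

theorem toWord_ltr (x : S × Bool) : (ltr x).toWord = [x] := by
  rw [ltr, toWord_mk]; simp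

theorem ltr_inv (x : S × Bool) : (ltr x)⁻¹ = ltr (x.1, !x.2) := by
  rw [ltr, inv_mk]; rfl

theorem toWord_app {v w : FreeGroup S}
    (h : ∀ x ∈ v.toWord.getLast?, ∀ y ∈ w.toWord.head?, x.1 = y.1 → x.2 = y.2) :
    (v * w).toWord = v.toWord ++ w.toWord := by
  rw [toWord_mul]
  apply IsReduced.reduce_eq
  exact List.IsChain.append isReduced_toWord isReduced_toWord h

theorem hd_ltr_mul {x : S × Bool} {w : FreeGroup S} (h : hd w ≠ some (x.1, !x.2)) :
    hd (ltr x * w) = some x := by
  rw [hd, toWord_app, toWord_ltr]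
  · rfl
  · intro a ha y hy e
    rw [toWord_ltr] at ha
    have ha' : x = a := by simpa using ha
    subst ha'
    by_contra hc
    apply h
    rw [hd, Option.mem_def.1 hy]
    congr 1
    refine Prod.ext e.symm ?_
    revert hc
    cases x.2 <;> cases y.2 <;> simp

theorem hd_mul {v w : FreeGroup S} (hv : v ≠ 1)
    (h : ∀ x ∈ v.toWord, ∀ y, hd w = some y → x.1 ≠ y.1) : hd (v * w) = hd v := by
  rw [hd, toWord_app, hd]
  · rw [List.head?_append_of_ne_nil _ (by simpa using hv)]
  · intro a ha y hy e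
    exact absurd e (h a (List.mem_of_getLast? ha) y hy)

theorem hd_mul_ltr {w : FreeGroup S} {h y : S × Bool} (h1 : hd w = some h) (h2 : h.1 ≠ y.1) :
    hd (w * ltr y) = some h := by
  have hne : w.toWord ≠ [] := by
    intro e
    rw [hd, e] at h1
    simp at h1
  by_cases hc : w.toWord.getLast? = some (y.1, !y.2)
  · obtain ⟨M, hM⟩ := List.getLast?_eq_some_iff.1 hc
    have e1 : w = FreeGroup.mk M * (ltr y)⁻¹ := by
      rw [ltr_inv, ltr, mul_mk, ← hM, mk_toWord]
    have e2 : FreeGroup.IsReduced M := by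
      have e3 := isReduced_toWord (x := w)
      rw [hM] at e3
      exact List.IsChain.left_of_append e3
    rw [e1, inv_mul_cancel_right, hd, toWord_mk, e2.reduce_eq]
    rw [hd, hM] at h1
    cases M with
    | nil =>
      have : (y.1, !y.2) = h := by simpa using h1
      exact absurd (this ▸ rfl) h2
    | cons c M => simpa using h1
  · rw [hd, toWord_app, List.head?_append_of_ne_nil _ hne]
    · exact h1
    · intro a ha b hb e
      rw [toWord_ltr] at hb
      have hb' : y = b := by simpa using hb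
      subst hb'
      by_contra hd'
      apply hc
      rw [Option.mem_def.1 ha]
      congr 1
      refine Prod.ext e ?_
      revert hd'
      cases a.2 <;> cases y.2 <;> simp

theorem hd_conj {w : FreeGroup S} {h x : S × Bool} (h1 : hd w = some h) (h2 : h.1 ≠ x.1) :
    hd (ltr x * w * (ltr x)⁻¹) = some x := by
  rw [mul_assoc, ltr_inv]
  apply hd_ltr_mul
  rw [hd_mul_ltr (y := (x.1, !x.2)) h1 h2]
  intro e
  exact h2 (by rw [Option.some.inj e])

theorem hd_conj2 {w : FreeGroup S} {h x : S × Bool} (h1 : hd w = some h) (h2 : h.1 ≠ x.1) :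
    hd (ltr x * (ltr x * w * (ltr x)⁻¹) * (ltr x)⁻¹) = some x := by
  have e : ltr x * (ltr x * w * (ltr x)⁻¹) * (ltr x)⁻¹ =
      ltr x * (ltr x * (w * (ltr x)⁻¹ * (ltr x)⁻¹)) := by simp only [mul_assoc]
  rw [e, ltr_inv]
  apply hd_ltr_mul
  rw [hd_ltr_mul]
  · intro e
    have := congrArg Prod.snd (Option.some.inj e)
    simp at this
  · rw [hd_mul_ltr (y := (x.1, !x.2)) (hd_mul_ltr (y := (x.1, !x.2)) h1 h2) h2]
    intro e
    exact h2 (by rw [Option.some.inj e])

theorem hd_pow {w : FreeGroup S} {x : S × Bool} (h : hd w ≠ some (x.1, !x.2)) (n : ℕ) :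
    hd (ltr x ^ (n + 1) * w) = some x := by
  induction n with
  | zero => simpa using hd_ltr_mul h
  | succ n ih =>
    rw [pow_succ', mul_assoc]
    apply hd_ltr_mul
    rw [ih]
    intro e
    have := congrArg Prod.snd (Option.some.inj e)
    simp at this

theorem hd_none {w : FreeGroup S} (h : hd w = none) : w = 1 := by
  simpa [hd] using h

theorem hd_map (f : Equiv.Perm S) (w : FreeGroup S) :
    hd (FreeGroup.map f w) = (hd w).map fun x => (f x.1, x.2) := by
  have : (FreeGroup.map f w).toWord = w.toWord.map fun x => (f x.1, x.2) := by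
    conv_lhs => rw [← mk_toWord (x := w), map.mk, toWord_mk]
    apply IsReduced.reduce_eq
    rw [FreeGroup.IsReduced, List.isChain_map]
    exact List.IsChain.imp (fun a b h e => h (f.injective e)) isReduced_toWord
  rw [hd, this, List.head?_map, hd]

/-- permutations of the letters act on the free group -/
def permAut : Equiv.Perm S →* MulAut (FreeGroup S) :=
  MonoidHom.mk' (fun σ => freeGroupCongr σ) (by
    intro σ τ
    ext w
    simp [map.comp])

theorem permAut_apply (σ : Equiv.Perm S) (w : FreeGroup S) :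
    permAut σ w = FreeGroup.map σ w := rfl

end

/-- the letters -/
abbrev Ltr : Type := Σ n : ℕ, ZMod (3 ^ (n - 1))

/-- the shift -/
def shf (k : ℤ) (s : Ltr) : Ltr := ⟨s.1, s.2 + k⟩

theorem shf_add (k l : ℤ) (s : Ltr) : shf (k + l) s = shf k (shf l s) := by
  obtain ⟨n, x⟩ := s
  have : x + ((k + l : ℤ) : ZMod (3 ^ (n - 1))) = x + l + k := by
    push_cast
    ring
  exact congrArg (Sigma.mk n) this

theorem shf_zero (s : Ltr) : shf 0 s = s := by simp [shf]

theorem shf_eq (k : ℤ) (s : Ltr) : shf k s = s ↔ (3 : ℤ) ^ (s.1 - 1) ∣ k := by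
  obtain ⟨n, x⟩ := s
  simp only [shf, Sigma.mk.injEq, heq_eq_eq, true_and, add_eq_left]
  rw [ZMod.intCast_zmod_eq_zero_iff_dvd]
  simp

/-- the shift as a homomorphism -/
def sh : Multiplicative ℤ →* Equiv.Perm Ltr :=
  MonoidHom.toHomPerm
    { toFun := fun k => shf k.toAdd
      map_one' := funext shf_zero
      map_mul' := fun k l => funext (shf_add k.toAdd l.toAdd) }

theorem sh_apply (k : Multiplicative ℤ) (s : Ltr) : sh k s = shf k.toAdd s := rfl

/-- the action on the free group -/
def ph : Multiplicative ℤ →* MulAut (FreeGroup Ltr) := permAut.comp sh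

theorem ph_apply (k : Multiplicative ℤ) (w : FreeGroup Ltr) :
    ph k w = FreeGroup.map (sh k) w := rfl

/-- the group -/
abbrev Gam : Type := FreeGroup Ltr ⋊[ph] Multiplicative ℤ

/-- the generator of `ℤ` -/
def zz : Gam := SemidirectProduct.inr (Multiplicative.ofAdd 1)

theorem zz_zpow (k : ℤ) : zz ^ k = SemidirectProduct.inr (Multiplicative.ofAdd k) := by
  rw [zz, ← map_zpow, ← ofAdd_zsmul]
  simp

theorem mem_zz (g : Gam) : g ∈ Subgroup.zpowers zz ↔ g.left = 1 := by
  rw [Subgroup.mem_zpowers_iff]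
  constructor
  · rintro ⟨k, rfl⟩
    rw [zz_zpow]; rfl
  · intro h
    refine ⟨g.right.toAdd, ?_⟩
    rw [zz_zpow]
    ext
    · simp [h]
    · simp

theorem ph_ltr (k : Multiplicative ℤ) (x : Ltr × Bool) :
    ph k (ltr x) = ltr (shf k.toAdd x.1, x.2) := by
  rw [ph_apply, ltr, map.mk]; rfl

theorem conj_left {c : FreeGroup Ltr} (hc : ∀ k, ph k c = c) (g : Gam) :
    (SemidirectProduct.inl c * g * (SemidirectProduct.inl c)⁻¹ : Gam).left = c * g.left * c⁻¹ := by
  rw [← _root_.map_inv]
  simp [hc]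

theorem fix_ltr {s : Ltr} (hs : s.1 ≤ 1) (β : Bool) (k : Multiplicative ℤ) :
    ph k (ltr (s, β)) = ltr (s, β) := by
  rw [ph_ltr, (shf_eq _ _).2]
  rw [show s.1 - 1 = 0 by omega]
  simp

theorem gap_gam : Gap zz (SemidirectProduct.inl (ltr (⟨0, 0⟩, true)))
    (SemidirectProduct.inl (ltr (⟨1, 0⟩, true))) {g : Gam | ∃ β, hd g.left = some (⟨0, 0⟩, β)} := by
  have hab : (⟨0, 0⟩ : Ltr) ≠ ⟨1, 0⟩ := fun h => zero_ne_one (congrArg Sigma.fst h)
  have hcomm : ∀ c : FreeGroup Ltr, (∀ k, ph k c = c) →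
      (SemidirectProduct.inl c : Gam) * zz = zz * SemidirectProduct.inl c := by
    intro c hc
    ext
    · simp [zz, hc]
    · simp [zz]
  have hinv : (SemidirectProduct.inl (ltr (⟨1, 0⟩, true)) : Gam)⁻¹ =
      SemidirectProduct.inl (ltr (⟨1, 0⟩, false)) := by rw [← _root_.map_inv, ltr_inv]; rfl
  have hcj : ∀ x : Gam, (SemidirectProduct.inl (ltr (⟨1, 0⟩, true)) : Gam)⁻¹ * x *
      SemidirectProduct.inl (ltr (⟨1, 0⟩, true)) = SemidirectProduct.inl (ltr (⟨1, 0⟩, false)) * x *
      (SemidirectProduct.inl (ltr (⟨1, 0⟩, false)))⁻¹ := by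
    intro x
    rw [← hinv, inv_inv]
  refine ⟨?_, hcomm _ (fix_ltr (by simp) _), hcomm _ (fix_ltr (by simp) _), ?_, ?_, ?_, ?_, ?_⟩
  · intro k hk
    rw [zz_zpow] at hk
    have := congrArg SemidirectProduct.right hk
    simpa using this
  · intro x hx
    rw [mem_zz] at hx
    cases e : hd x.left with
    | none => exact absurd (hd_none e) hx
    | some h =>
      by_cases h2 : h.1 = ⟨0, 0⟩
      · exact Or.inl ⟨h.2, by rw [e, ← h2]⟩
      · refine Or.inr ⟨true, ?_⟩
        rw [conj_left (fix_ltr (by simp) _)]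
        exact hd_conj e h2
  · rintro x ⟨β, hx⟩ hx'
    rw [mem_zz] at hx'
    rw [hx'] at hx
    simp [hd] at hx
  · rintro x ⟨β, hx⟩ ⟨β', hx'⟩
    rw [conj_left (fix_ltr (by simp) _), hd_conj hx hab] at hx'
    exact hab (congrArg Prod.fst (Option.some.inj hx')).symm
  · rintro x ⟨β, hx⟩ ⟨β', hx'⟩
    rw [hcj, conj_left (fix_ltr (by simp) _), hd_conj hx hab] at hx'
    exact hab (congrArg Prod.fst (Option.some.inj hx')).symm
  · rintro x ⟨β, hx⟩ ⟨β', hx'⟩
    rw [hcj, hcj, conj_left (fix_ltr (by simp) _), conj_left (fix_ltr (by simp) _),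
      hd_conj2 hx hab] at hx'
    exact hab (congrArg Prod.fst (Option.some.inj hx')).symm

theorem powers_gam (F : Finset Gam) (hF : 1 ∉ F) : ∃ (D : Set Gam) (g : ℕ → Gam),
    (∀ f ∈ F, ∀ y ∈ D, f * y ∉ D) ∧ ∀ i j, i ≠ j → ∀ y ∉ D, (g i)⁻¹ * g j * y ∈ D := by
  obtain ⟨n, hn1, hn2⟩ : ∃ n : ℕ, (∀ f ∈ F, ∀ x ∈ f.left.toWord, x.1.1 < n) ∧
      ∀ f ∈ F, f.right.toAdd.natAbs < n := by
    refine ⟨F.sup (fun f => f.left.toWord.toFinset.sup (fun x => x.1.1) + f.right.toAdd.natAbs) + 1,
      fun f hf x hx => ?_, fun f hf => ?_⟩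
    · have h1 := Finset.le_sup (f := fun f : Gam =>
        f.left.toWord.toFinset.sup (fun x => x.1.1) + f.right.toAdd.natAbs) hf
      have h2 := Finset.le_sup (f := fun x : Ltr × Bool => x.1.1) (List.mem_toFinset.2 hx)
      omega
    · have h1 := Finset.le_sup (f := fun f : Gam =>
        f.left.toWord.toFinset.sup (fun x => x.1.1) + f.right.toAdd.natAbs) hf
      omega
  let s : Ltr := ⟨n + 1, 0⟩
  refine ⟨{g | ∃ β, hd g.left = some (s, β)}, fun i => SemidirectProduct.inl (ltr (s, true) ^ i),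
    ?_, ?_⟩
  · rintro f hf y ⟨β, hy⟩ ⟨β', hy'⟩
    have h1 : hd (ph f.right y.left) = some (shf f.right.toAdd s, β) := by
      rw [ph_apply, hd_map, hy]; rfl
    rw [SemidirectProduct.mul_left] at hy'
    by_cases hv : f.left = 1
    · rw [hv, one_mul, h1] at hy'
      have h2 : shf f.right.toAdd s = s := congrArg Prod.fst (Option.some.inj hy')
      rw [shf_eq] at h2
      have h3 : f.right.toAdd = 0 := by
        apply Int.eq_zero_of_dvd_of_natAbs_lt_natAbs h2
        have h4 := hn2 f hf
        have h5 : n < 3 ^ n := Nat.lt_pow_self (by norm_num)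
        simp only [s, Nat.add_sub_cancel, Int.natAbs_pow]
        exact h4.trans h5
      apply hF
      have : f = 1 := by
        ext
        · simp [hv]
        · simpa using h3
      rwa [this] at hf
    · rw [hd_mul hv] at hy'
      · have h2 := hn1 f hf _ (List.mem_of_mem_head? hy')
        simp only [s] at h2
        omega
      · intro x hx w hw e
        rw [h1] at hw
        have h2 := hn1 f hf x hx
        rw [e, ← Option.some.inj hw] at h2
        simp only [s, shf] at h2
        omega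
  · intro i j hij y hy
    have hy' : ∀ β, hd y.left ≠ some (s, β) := fun β h => hy ⟨β, h⟩
    have e0 : ((SemidirectProduct.inl (ltr (s, true) ^ i) : Gam)⁻¹ *
        SemidirectProduct.inl (ltr (s, true) ^ j) * y).left =
        (ltr (s, true) ^ i)⁻¹ * ltr (s, true) ^ j * y.left := by
      rw [← _root_.map_inv, ← _root_.map_mul, SemidirectProduct.mul_left,
        SemidirectProduct.left_inl, SemidirectProduct.right_inl, _root_.map_one]
      rfl
    change ∃ β, hd _ = _
    rw [e0]
    rcases lt_or_gt_of_ne hij with h | h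
    · obtain ⟨m, rfl⟩ := Nat.exists_eq_add_of_lt h
      refine ⟨true, ?_⟩
      rw [add_assoc, pow_add, inv_mul_cancel_left]
      exact hd_pow (hy' _) m
    · obtain ⟨m, rfl⟩ := Nat.exists_eq_add_of_lt h
      refine ⟨false, ?_⟩
      rw [add_assoc, pow_add, mul_inv_rev, inv_mul_cancel_right, ← inv_pow, ltr_inv]
      exact hd_pow (hy' _) m

/-- the sign character -/
def eps : Gam →* ℤˣ := (zpowersHom ℤˣ (-1)).comp SemidirectProduct.rightHom

theorem central_gam (Φ : Finset Gam) : ∃ z, eps z = -1 ∧ ∀ g ∈ Φ, z * g = g * z := by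
  have h1 : ∀ w : FreeGroup Ltr, ∀ᶠ n : ℕ in Filter.atTop,
      ph (Multiplicative.ofAdd ((3 : ℤ) ^ n)) w = w := by
    intro w
    induction w using FreeGroup.induction_on with
    | C1 => simp
    | of s =>
      filter_upwards [Filter.eventually_ge_atTop s.1] with n hn
      rw [ph_apply, map.of, sh_apply, (shf_eq _ _).2]
      exact pow_dvd_pow _ (by omega)
    | inv_of s ih => filter_upwards [ih] with n hn using by rw [_root_.map_inv, hn]
    | mul v w h1 h2 => filter_upwards [h1, h2] with n a b using by rw [_root_.map_mul, a, b]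
  obtain ⟨n, hn⟩ := ((Filter.eventually_all_finset Φ).2 fun g _ => h1 g.left).exists
  refine ⟨SemidirectProduct.inr (Multiplicative.ofAdd ((3 : ℤ) ^ n)), ?_, fun g hg => ?_⟩
  · have : Odd ((3 : ℤ) ^ n) := Odd.pow (by decide)
    simp [eps, this.neg_one_zpow]
  · ext
    · simp [hn g hg]
    · simp [add_comm]

end Pool.Agent.H506Z.TP
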