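import Pool.Agent.H506Z.TP7

/-! The Pauli group cocycle (the CAR algebra) and the example. -/

set_option autoImplicit false
set_option linter.unusedSectionVars false
set_option linter.deprecated false

namespace Pool.Agent.H506Z.TP

open Pool.Agent.H812R3.KP
open scoped ComplexConjugate

/-- finitely supported bit strings -/
abbrev Vv : Type := ℕ →₀ ZMod 2

/-- the pairing -/
noncomputable def pr (b a : Vv) : ZMod 2 := b.sum fun n x => x * a n

theorem pr_add_left (b b' a : Vv) : pr (b + b') a = pr b a + pr b' a :=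
  Finsupp.sum_add_index' (fun _ => zero_mul _) (fun _ _ _ => add_mul _ _ _)

theorem pr_add_right (b a a' : Vv) : pr b (a + a') = pr b a + pr b a' := by
  simp only [pr, Finsupp.add_apply, mul_add, Finsupp.sum_add]

theorem pr_zero_left (a : Vv) : pr 0 a = 0 := by simp [pr]

theorem pr_zero_right (a : Vv) : pr a 0 = 0 := by simp [pr]

theorem pr_single_left (n : ℕ) (a : Vv) : pr (Finsupp.single n 1) a = a n := by
  simp [pr]

theorem pr_single_right (n : ℕ) (b : Vv) : pr b (Finsupp.single n 1) = b n := by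
  rw [pr, Finsupp.sum_eq_single n]
  · simp
  · intro m _ hm
    simp [hm]
  · simp

/-- the sign -/
def sgu (x : ZMod 2) : ℤˣ := if x = 0 then 1 else -1

theorem sgu_add (x y : ZMod 2) : sgu (x + y) = sgu x * sgu y := by
  revert x y
  decide

/-- the sign as a complex number -/
def sg (x : ZMod 2) : ℂ := ((sgu x : ℤ) : ℂ)

theorem sg_add (x y : ZMod 2) : sg (x + y) = sg x * sg y := by
  simp [sg, sgu_add]

theorem sg_zero : sg 0 = 1 := by simp [sg, sgu]

theorem sg_one : sg 1 = -1 := by
  have : sgu 1 = -1 := by decide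
  simp [sg, this]

theorem sg_cases (x : ZMod 2) : sg x = 1 ∨ sg x = -1 := by
  rcases Int.units_eq_one_or (sgu x) with h | h <;> simp [sg, h]

theorem zmod_one {x : ZMod 2} (h : x ≠ 0) : x = 1 := by
  revert x
  decide

/-- the group -/
abbrev Lam : Type := Multiplicative (Vv × Vv)

/-- the cocycle -/
noncomputable def pauli : Coc Lam where
  c g h := sg (pr g.toAdd.2 h.toAdd.1)
  norm_c g h := by rcases sg_cases (pr g.toAdd.2 h.toAdd.1) with h | h <;> simp [h]
  one_left g := by simp [pr_zero_left, sg_zero]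
  one_right g := by simp [pr_zero_right, sg_zero]
  assoc g h k := by
    simp only [toAdd_mul, Prod.fst_add, Prod.snd_add, pr_add_left, pr_add_right, sg_add]
    ring

theorem pauli_c (g h : Lam) : pauli.c g h = sg (pr g.toAdd.2 h.toAdd.1) := rfl

theorem conj_of_comm {R : Type} [Ring R] [StarRing R] {a b : R} (h : a * star a = 1)
    (e : a * b = b * a) : a * b * star a = b := by
  rw [e, mul_assoc, h, mul_one]

theorem conj_of_anti {R : Type} [Ring R] [StarRing R] {a b : R} (h : a * star a = 1)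
    (e : a * b = -(b * a)) : a * b * star a = -b := by
  rw [e, neg_mul, mul_assoc, h, mul_one]

theorem simple_car : IsSimple (Al pauli) := by
  apply simple_pauli
  · intro g h
    have : pauli.c h g = pauli.c g h ∨ pauli.c h g = -pauli.c g h := by
      rw [pauli_c, pauli_c]
      rcases sg_cases (pr g.toAdd.2 h.toAdd.1) with h1 | h1 <;>
        rcases sg_cases (pr h.toAdd.2 g.toAdd.1) with h2 | h2 <;> simp [h1, h2]
    rcases this with e | e
    · exact Or.inl (conj_of_comm (mul_star_u _ _) (comm_u _ (mul_comm _ _) e))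
    · exact Or.inr (conj_of_anti (mul_star_u _ _) (anti_u _ (mul_comm _ _) e))
  · intro g hg
    by_cases h1 : g.toAdd.1 = 0
    · have h2 : g.toAdd.2 ≠ 0 := by
        intro h2
        apply hg
        have : g.toAdd = 0 := Prod.ext h1 h2
        simpa using this
      obtain ⟨n, hn⟩ := Finsupp.ne_iff.1 h2
      refine ⟨Multiplicative.ofAdd (Finsupp.single n 1, 0),
        conj_of_anti (mul_star_u _ _) (anti_u _ (mul_comm _ _) ?_)⟩
      rw [pauli_c, pauli_c]
      simp only [toAdd_ofAdd, pr_zero_left, pr_single_right, zmod_one hn, sg_zero, sg_one, neg_neg]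
    · obtain ⟨n, hn⟩ := Finsupp.ne_iff.1 h1
      refine ⟨Multiplicative.ofAdd (0, Finsupp.single n 1),
        conj_of_anti (mul_star_u _ _) (anti_u _ (mul_comm _ _) ?_)⟩
      rw [pauli_c, pauli_c]
      simp only [toAdd_ofAdd, pr_zero_right, pr_single_left, zmod_one hn, sg_zero, sg_one]

/-- the parity of the first component -/
noncomputable def eps' : Lam →* ℤˣ :=
  MonoidHom.mk' (fun g => sgu (g.toAdd.1.sum fun _ x => x)) (by
    intro g h
    rw [toAdd_mul, Prod.fst_add, Finsupp.sum_add_index' (fun _ => rfl) (fun _ _ _ => rfl), sgu_add])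

theorem eps'_apply (g : Lam) : eps' g = sgu (g.toAdd.1.sum fun _ x => x) := rfl

theorem lam_sq (g : Lam) : g * g = 1 := by
  have h : ∀ v : Vv, v + v = 0 := fun v => by
    ext n
    simp [CharTwo.add_self_eq_zero]
  have : (g * g).toAdd = 0 := Prod.ext (h _) (h _)
  exact toAdd_eq_zero.1 this

theorem central_lam (Φ : Finset Lam) : ∃ x y t : Lam, x * x = 1 ∧ y * y = 1 ∧ t * t = 1 ∧
    pauli.c x x = 1 ∧ pauli.c y y = 1 ∧ pauli.c t t = 1 ∧ pauli.c x y = -pauli.c y x ∧
    pauli.c x t = pauli.c t x ∧ pauli.c y t = pauli.c t y ∧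
    eps' x = 1 ∧ eps' y = 1 ∧ eps' t = -1 ∧
    ∀ g ∈ Φ, pauli.c x g = pauli.c g x ∧ pauli.c y g = pauli.c g y ∧ pauli.c t g = pauli.c g t := by
  obtain ⟨m, hm⟩ : ∃ m : ℕ, ∀ g ∈ Φ, ∀ n, m ≤ n → g.toAdd.1 n = 0 ∧ g.toAdd.2 n = 0 := by
    refine ⟨Φ.sup (fun g => (g.toAdd.1.support ∪ g.toAdd.2.support).sup id) + 1,
      fun g hg n hn => ?_⟩
    have h1 := Finset.le_sup (f := fun g : Lam => (g.toAdd.1.support ∪ g.toAdd.2.support).sup id) hg
    have h2 : n ∉ g.toAdd.1.support ∪ g.toAdd.2.support := by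
      intro h
      have h3 : n ≤ _ := Finset.le_sup (f := id) h
      omega
    simpa using h2
  have s0 : sgu 0 = 1 := by decide
  have s1 : sgu 1 = -1 := by decide
  refine ⟨Multiplicative.ofAdd (Finsupp.single m 1 + Finsupp.single (m + 1) 1, 0),
    Multiplicative.ofAdd (0, Finsupp.single m 1), Multiplicative.ofAdd (Finsupp.single (m + 1) 1, 0),
    lam_sq _, lam_sq _, lam_sq _, ?_, ?_, ?_, ?_, ?_, ?_, ?_, ?_, ?_, fun g hg => ?_⟩
  · simp [pauli_c, pr_zero_left, sg_zero]
  · simp [pauli_c, pr_zero_right, sg_zero]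
  · simp [pauli_c, pr_zero_left, sg_zero]
  · simp [pauli_c, pr_zero_left, pr_single_left, sg_zero, sg_one]
  · simp [pauli_c, pr_zero_left]
  · simp [pauli_c, pr_zero_left, pr_single_left]
  · rw [eps'_apply, toAdd_ofAdd, Finsupp.sum_add_index' (fun _ => rfl) (fun _ _ _ => rfl), sgu_add]
    simp [s1]
  · simp [eps'_apply, s0]
  · simp [eps'_apply, s1]
  · have a1 := hm g hg m le_rfl
    have a2 := hm g hg (m + 1) (Nat.le_succ _)
    simp [pauli_c, pr_zero_left, pr_zero_right, pr_single_left, pr_single_right, pr_add_right,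
      a1, a2]

theorem example_main :
    IsClosed (Al (triv Gam) : Set (B Gam)) ∧ IsClosed (Al pauli : Set (B Lam)) ∧
    IsSimple (Al (triv Gam)) ∧ IsSimple (Al pauli) ∧
    IsStablyFinite (minTensor (Al (triv Gam)) (Al pauli)) ∧
    IsTensorAction (act (triv Gam) (sgn eps) _ rfl) (act pauli (sgn eps') _ rfl)
      (act ((triv Gam).prod pauli) ((sgn eps).prod (sgn eps')) _ (minTensor_eq _ _)) ∧
    Rokhlin (act ((triv Gam).prod pauli) ((sgn eps).prod (sgn eps')) _ (minTensor_eq _ _)) ∧
    ¬ TracialRokhlin (act (triv Gam) (sgn eps) _ rfl) :=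
  ⟨isClosed_al _, isClosed_al _, simple_powers _ powers_gam, simple_car,
    stablyFinite _ _ (minTensor_eq _ _), isTensorAction _ _ _ _,
    rokhlin_prod pauli eps eps' mul_comm central_gam central_lam _ _, not_tracial gap_gam _⟩

end Pool.Agent.H506Z.TP
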