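import Pool.Agent.H506Z.TP8

/-! The example in abstract form. -/

set_option autoImplicit false
set_option linter.unusedSectionVars false
set_option linter.deprecated false

namespace Pool.Agent.H506Z.TP

open Pool.Agent.H812R3.KP

theorem faithfulRep {X : Type} (S : StarSubalgebra ℂ (B X)) [hS : IsClosed (S : Set (B X))] :
    IsFaithfulRep (A := S) (fun a x y => ent (a : B X) x y) := by
  classical
  refine ⟨L2 X, inferInstance, inferInstance, inferInstance,
    HilbertBasis.ofRepr (LinearIsometryEquiv.refl ℂ _), S.subtype, Subtype.val_injective, ?_⟩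
  intro a x y
  have h : ∀ x, (HilbertBasis.ofRepr (LinearIsometryEquiv.refl ℂ (L2 X)) : HilbertBasis X ℂ (L2 X)) x
      = dl x := by
    intro x
    rw [← HilbertBasis.repr_symm_single, dl_eq_single]
    rfl
  rw [h, h]
  exact ent_eq_inner _ _ _

/-- elementary tensors -/
noncomputable def tens {X Y : Type} (A : StarSubalgebra ℂ (B X)) (A' : StarSubalgebra ℂ (B Y))
    (a : A) (b : A') : minTensor A A' :=
  ⟨amp1 X Y a * amp2 X Y b, StarSubalgebra.le_topologicalClosure _
    (StarAlgebra.subset_adjoin _ _ ⟨a, a.2, b, b.2, isTensor_amp _ _⟩)⟩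

theorem isMinTensor {X Y : Type} (A : StarSubalgebra ℂ (B X)) (A' : StarSubalgebra ℂ (B Y))
    [IsClosed (A : Set (B X))] [IsClosed (A' : Set (B Y))]
    [IsClosed (minTensor A A' : Set (B (X × Y)))] : IsMinTensor (tens A A') := by
  refine ⟨?_, X, Y, _, _, _, faithfulRep A, faithfulRep A', faithfulRep (minTensor A A'), ?_⟩
  · rw [eq_top_iff]
    intro c _
    have h1 : (c : B (X × Y)) ∈ closure (StarAlgebra.adjoin ℂ
        {T : B (X × Y) | ∃ a ∈ A, ∃ b ∈ A', IsTensor T a b} : Set (B (X × Y))) := by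
      rw [← StarSubalgebra.topologicalClosure_coe]; exact c.2
    have h2 : StarAlgebra.adjoin ℂ {T : B (X × Y) | ∃ a ∈ A, ∃ b ∈ A', IsTensor T a b} ≤
        (StarAlgebra.adjoin ℂ {c : minTensor A A' | ∃ a b, c = tens A A' a b}).map
          (minTensor A A').subtype := by
      refine StarAlgebra.adjoin_le ?_
      rintro T ⟨a, ha, b, hb, hT⟩
      exact ⟨tens A A' ⟨a, ha⟩ ⟨b, hb⟩, StarAlgebra.subset_adjoin _ _ ⟨_, _, rfl⟩, hT.eq.symm⟩
    rw [← SetLike.mem_coe, StarSubalgebra.topologicalClosure_coe,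
      Topology.IsInducing.subtypeVal.closure_eq_preimage_closure_image]
    exact closure_mono h2 h1
  · intro a b x x' y y'
    have := isTensor_amp (a : B X) (b : B Y) x x' y y'
    simp only [coeff_eq] at this
    exact this

theorem example_abs :
    ∃ (A B C : Type) (_ : CStarAlgebra A) (_ : CStarAlgebra B) (_ : CStarAlgebra C) (t : A → B → C)
      (α : ℤˣ →* (A ≃⋆ₐ[ℂ] A)) (β : ℤˣ →* (B ≃⋆ₐ[ℂ] B)) (γ : ℤˣ × ℤˣ →* (C ≃⋆ₐ[ℂ] C)),
      IsSimple A ∧ IsSimple B ∧ IsMinTensor t ∧ IsStablyFinite C ∧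
      (∀ g h a b, γ (g, h) (t a b) = t (α g a) (β h b)) ∧ Rokhlin γ ∧ ¬ TracialRokhlin α := by
  obtain ⟨h1, h2, h3, h4, h5, h6, h7, h8⟩ := example_main
  have h0 : IsClosed (minTensor (Al (triv Gam)) (Al pauli) : Set (B (Gam × Lam))) :=
    StarSubalgebra.isClosed_topologicalClosure _
  refine ⟨Al (triv Gam), Al pauli, minTensor (Al (triv Gam)) (Al pauli), inferInstance,
    inferInstance, inferInstance, tens _ _, _, act pauli (sgn eps') _ rfl, _, h3, h4, isMinTensor _ _, h5, ?_, h7, h8⟩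
  intro g h a b
  obtain ⟨T, t1, t2⟩ := h6 g h a b
  have e : T = tens _ _ a b := Subtype.ext t1.eq
  rw [← e]
  exact Subtype.ext t2.eq

end Pool.Agent.H506Z.TP
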